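import Pool.Agent.ExpFrac.Poly

/-!
The remainder of the Hermite approximation and the determinant estimates.
-/

set_option autoImplicit false

open Polynomial Finset
open scoped Nat

namespace ExpFrac

theorem remainder (p : ℝ[X]) (s B : ℝ) (hs : 0 ≤ s)
    (hB : ∀ x, 0 ≤ x → x ≤ s → |p.eval x| ≤ B) :
    |Real.exp s * eval 0 (sumIDeriv p) - eval s (sumIDeriv p)| ≤ s * (Real.exp s * B) := by
  have hd : ∀ x : ℝ, HasDerivAt (fun x => Real.exp (s - x) * eval x (sumIDeriv p))
      (-(Real.exp (s - x) * eval x p)) x := by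
    intro x
    have h1 : HasDerivAt (fun x : ℝ => Real.exp (s - x)) (Real.exp (s - x) * (-1)) x :=
      ((hasDerivAt_id x).const_sub s).exp
    have h2 := (sumIDeriv p).hasDerivAt x
    have h3 : HasDerivAt (fun x => Real.exp (s - x) * eval x (sumIDeriv p))
        (Real.exp (s - x) * (-1) * eval x (sumIDeriv p) +
          Real.exp (s - x) * eval x (derivative (sumIDeriv p))) x := h1.mul h2
    have h4 : eval x (sumIDeriv p) = eval x p + eval x (derivative (sumIDeriv p)) := by
      have h5 := congrArg (eval x) (sumIDeriv_eq_self_add p)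
      rwa [eval_add] at h5
    refine h3.congr_deriv ?_
    rw [h4]
    ring
  have hmv := Convex.norm_image_sub_le_of_norm_hasDerivWithin_le (s := Set.Icc 0 s) (C := Real.exp s * B)
    (f := fun x => Real.exp (s - x) * eval x (sumIDeriv p))
    (f' := fun x => -(Real.exp (s - x) * eval x p)) (x := 0) (y := s)
    (fun x _ => (hd x).hasDerivWithinAt) (fun x hx => by
      rw [norm_neg, Real.norm_eq_abs, abs_mul, abs_of_pos (Real.exp_pos _)]
      refine mul_le_mul (Real.exp_le_exp.2 (by linarith [hx.1])) (hB x hx.1 hx.2) (abs_nonneg _)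
        (Real.exp_pos _).le)
    (convex_Icc 0 s) ⟨le_rfl, hs⟩ ⟨hs, le_rfl⟩
  simp only [sub_self, Real.exp_zero, one_mul, sub_zero, Real.norm_eq_abs] at hmv
  rw [abs_sub_comm, abs_of_nonneg hs] at hmv
  calc _ ≤ _ := hmv
    _ = _ := by ring

/-- Leibniz bound with row and column scales. -/
theorem det_le_scale {ι : Type} [Fintype ι] [DecidableEq ι] (A : Matrix ι ι ℝ) (r c : ι → ℝ)
    (h : ∀ i j, |A i j| ≤ r i * c j) :
    |A.det| ≤ ((Fintype.card ι)! : ℝ) * ((∏ i, r i) * ∏ j, c j) := by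
  rw [Matrix.det_apply]
  refine (abs_sum_le_sum_abs _ _).trans ?_
  have : ∀ σ ∈ (univ : Finset (Equiv.Perm ι)), |Equiv.Perm.sign σ • ∏ i, A (σ i) i| ≤
      (∏ i, r i) * ∏ j, c j := by
    intro σ _
    have h1 : |Equiv.Perm.sign σ • ∏ i, A (σ i) i| = ∏ i, |A (σ i) i| := by
      rw [← abs_prod]
      rcases Int.units_eq_one_or (Equiv.Perm.sign σ) with h | h
      · rw [h, one_smul]
      · rw [h, Units.neg_smul, one_smul, abs_neg]
    rw [h1]
    calc ∏ i, |A (σ i) i| ≤ ∏ i, (r (σ i) * c i) :=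
          Finset.prod_le_prod (fun _ _ => abs_nonneg _) (fun i _ => h _ _)
      _ = (∏ i, r i) * ∏ j, c j := by
          rw [prod_mul_distrib, Equiv.prod_comp σ r]
  refine (sum_le_sum this).trans ?_
  rw [sum_const, card_univ, Fintype.card_perm, nsmul_eq_mul]

/-- Rows which are small off one direction. -/
theorem det_dir {ι : Type} [Fintype ι] [DecidableEq ι] (A : Matrix ι ι ℝ) (E : ι → ℝ) (j₀ : ι)
    (Λ : ℝ) (hE : ∀ j, 0 < E j) (hΛ : ∀ j, E j ≤ Λ * E j₀) (u r : ι → ℝ)
    (hw : ∀ i j, |A i j - u i * E j| ≤ r i) (V : ℝ) (hV : ∀ i, |A i j₀| ≤ r i * V) :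
    |A.det| ≤ ((Fintype.card ι)! : ℝ) * ((∏ i, r i) * (V * (1 + Λ) ^ (Fintype.card ι - 1))) := by
  have hr : ∀ i, 0 ≤ r i := fun i => (abs_nonneg _).trans (hw i j₀)
  have hΛ0 : 0 ≤ Λ := by
    have h1 := hΛ j₀
    have h2 := hE j₀
    nlinarith
  set B : Matrix ι ι ℝ := fun i j => if j = j₀ then A i j₀ else A i j - (E j / E j₀) * A i j₀ with hB
  have hdet : A.det = B.det := by
    rw [← Matrix.det_transpose A, ← Matrix.det_transpose B]
    refine Matrix.det_eq_of_forall_row_eq_smul_add_const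
      (fun j => if j = j₀ then 0 else E j / E j₀) j₀ (by simp) ?_
    intro j i
    rw [Matrix.transpose_apply, Matrix.transpose_apply, Matrix.transpose_apply]
    by_cases hj : j = j₀
    · subst hj; simp [hB]
    · simp only [hB, if_neg hj, if_true]
      ring
  rw [hdet]
  refine (det_le_scale B r (fun j => if j = j₀ then V else 1 + Λ) ?_).trans (le_of_eq ?_)
  · intro i j
    by_cases hj : j = j₀
    · subst hj
      simp only [hB, if_true]
      exact hV i
    · simp only [hB, if_neg hj]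
      have e : A i j - E j / E j₀ * A i j₀ =
          (A i j - u i * E j) - E j / E j₀ * (A i j₀ - u i * E j₀) := by
        field_simp [(hE j₀).ne']
        ring
      have hq0 : 0 ≤ E j / E j₀ := div_nonneg (hE j).le (hE j₀).le
      have hq : E j / E j₀ ≤ Λ := (div_le_iff₀ (hE j₀)).2 (hΛ j)
      rw [e]
      calc |(A i j - u i * E j) - E j / E j₀ * (A i j₀ - u i * E j₀)|
          ≤ |A i j - u i * E j| + |E j / E j₀ * (A i j₀ - u i * E j₀)| := abs_sub _ _
        _ = |A i j - u i * E j| + E j / E j₀ * |A i j₀ - u i * E j₀| := by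
            rw [abs_mul, abs_of_nonneg hq0]
        _ ≤ r i + Λ * r i := by
            refine add_le_add (hw i j) (mul_le_mul hq (hw i j₀) (abs_nonneg _) hΛ0)
        _ = r i * (1 + Λ) := by ring
  · rw [← mul_prod_erase univ (fun j => if j = j₀ then V else 1 + Λ) (mem_univ j₀)]
    have : ∏ x ∈ univ.erase j₀, (if x = j₀ then V else 1 + Λ) = (1 + Λ) ^ (Fintype.card ι - 1) := by
      rw [prod_congr rfl (g := fun _ => 1 + Λ) (fun x hx => by rw [if_neg (mem_erase.1 hx).1]),
        prod_const, card_erase_of_mem (mem_univ j₀), card_univ]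
    rw [this, if_pos rfl]

/-- The determinant modulo a prime. -/
theorem det_mod {ι : Type} [Fintype ι] [DecidableEq ι] (A : Matrix ι ι ℤ) (q : ℕ)
    [Fact q.Prime] (i₀ : ι) (h : ∀ i, i ≠ i₀ → ∀ j, j ≠ i → (q : ℤ) ∣ A i j)
    (hd : ∀ i, ¬ (q : ℤ) ∣ A i i) : A.det ≠ 0 := by
  intro h0
  have h1 : (A.map (Int.castRingHom (ZMod q))).det = 0 := by
    rw [← RingHom.mapMatrix_apply, ← RingHom.map_det, h0, map_zero]
  rw [Matrix.det_apply, Finset.sum_eq_single 1] at h1
  · simp only [Equiv.Perm.sign_one, one_smul, Equiv.Perm.coe_one, id_eq, Matrix.map_apply,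
      eq_intCast] at h1
    rw [prod_eq_zero_iff] at h1
    obtain ⟨i, -, hi⟩ := h1
    exact hd i ((ZMod.intCast_zmod_eq_zero_iff_dvd _ _).1 hi)
  · intro σ _ hσ
    have : ∃ i, σ i ≠ i₀ ∧ σ i ≠ i := by
      by_contra hcon
      push Not at hcon
      apply hσ
      ext i
      by_cases hi : σ i = i₀
      · by_contra hne
        -- `i` moves; then `σ i = i₀` moves as well
        have h2 : σ i₀ = i₀ := by
          by_contra h3
          exact h3 (hcon i₀ h3)
        have h4 : σ i = σ i₀ := by rw [hi, h2]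
        have h5 := σ.injective h4
        apply hne
        simp [h5, h2]
      · simpa using hcon i hi
    obtain ⟨i, hi1, hi2⟩ := this
    have : ∏ i, (A.map (Int.castRingHom (ZMod q))) (σ i) i = 0 := by
      refine prod_eq_zero (mem_univ i) ?_
      rw [Matrix.map_apply, eq_intCast]
      exact (ZMod.intCast_zmod_eq_zero_iff_dvd _ _).2 (h (σ i) hi1 i (Ne.symm hi2))
    rw [this, smul_zero]
  · intro h
    exact absurd (mem_univ _) h

end ExpFrac
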