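import Pool.Agent.ExpFrac.Sys

/-!
Completion of a basis by rows of a nonsingular matrix, and the lower bound for the maximal minor
of an integer matrix whose row space is close to `w`.
-/

set_option autoImplicit false

open Polynomial Finset
open scoped Nat

namespace ExpFrac

variable {ι : Type} [Fintype ι] [DecidableEq ι]

theorem det_updateRow_dot (P : Matrix ι ι ℝ) (i : ι) (x : ι → ℝ) :
    (P.updateRow i x).det = x ⬝ᵥ (fun y => (P.updateRow i (Pi.single y 1)).det) := by
  have h : x = ∑ y, x y • (Pi.single y 1 : ι → ℝ) := by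
    ext z
    simp [Finset.sum_apply, Pi.single_apply]
  have hl : ∀ z : ι → ℝ, (P.updateRow i z).det = (Matrix.cramer P.transpose z) i := by
    intro z
    rw [Matrix.cramer_transpose_apply]
  conv_lhs => rw [h, hl, map_sum]
  rw [Finset.sum_apply]
  refine Finset.sum_congr rfl fun y _ => ?_
  simp only [map_smul, Pi.smul_apply, smul_eq_mul, hl]

/-- Exchange lemma. -/
theorem exists_exchange (P W : Matrix ι ι ℝ) (hP : P.det ≠ 0) (hW : W.det ≠ 0) (s : Finset ι) :
    ∃ f : ι → ι, Matrix.det (fun i => if i ∈ s then W (f i) else P i : Matrix ι ι ℝ) ≠ 0 := by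
  induction s using Finset.induction_on with
  | empty => exact ⟨id, by simpa using hP⟩
  | insert a s ha ih =>
    obtain ⟨f, hf⟩ := ih
    set P' : Matrix ι ι ℝ := fun i => if i ∈ s then W (f i) else P i with hP'
    set c : ι → ℝ := fun y => (P'.updateRow a (Pi.single y 1)).det with hc
    have hcne : c ≠ 0 := by
      intro h0
      apply hf
      have h1 := det_updateRow_dot P' a (P' a)
      rw [Matrix.updateRow_eq_self] at h1
      rw [h1]
      show (P' a) ⬝ᵥ c = 0
      rw [h0, dotProduct_zero]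
    obtain ⟨l, hl⟩ : ∃ l, W l ⬝ᵥ c ≠ 0 := by
      by_contra hcon
      push Not at hcon
      apply hcne
      refine Matrix.eq_zero_of_mulVec_eq_zero hW ?_
      ext l
      exact hcon l
    refine ⟨Function.update f a l, ?_⟩
    have e : (fun i => if i ∈ insert a s then W (Function.update f a l i) else P i :
        Matrix ι ι ℝ) = P'.updateRow a (W l) := by
      ext i y
      by_cases hi : i = a
      · subst hi
        simp
      · rw [Matrix.updateRow_ne hi]
        simp [hP', hi]
    rw [e, det_updateRow_dot]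
    exact hl

variable {κ μ : Type} [Fintype κ] [DecidableEq κ] [Fintype μ] [DecidableEq μ]

/-- The lower bound for the maximal minor. -/
theorem minor_lower (w : κ ⊕ μ → ℝ) (E ρ v : ℝ) (hw1 : ∀ y, 1 ≤ w y) (hwE : ∀ y, w y ≤ E)
    (hρ : 0 < ρ) (hS : Sys w ρ v) (B : Matrix κ (κ ⊕ μ) ℤ)
    (hB : (B.submatrix id Sum.inl).det ≠ 0)
    (hmax : ∀ J : κ → κ ⊕ μ, |(B.submatrix id J).det| ≤ |(B.submatrix id Sum.inl).det|)
    (i₀ : κ) (c : κ → ℝ) (t δ : ℝ) (ht : t ≠ 0) (hδ : 0 < δ)
    (hc : ∀ y, |∑ i, c i * (B i y : ℝ) - t * w y| ≤ δ) (η : ℝ)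
    (hη : (Fintype.card κ + 1) * δ / |t| ≤ η) :
    1 ≤ |((B.submatrix id Sum.inl).det : ℝ)| * (((Fintype.card (κ ⊕ μ))! : ℝ) *
      ((η * ρ ^ (Fintype.card μ)) * (max ((E + η) / η) (v / ρ) *
        (1 + E) ^ (Fintype.card (κ ⊕ μ) - 1)))) := by
  obtain ⟨W, U, hW, hW1, hW2⟩ := hS
  have ht0 : 0 < |t| := abs_pos.2 ht
  have hη0 : 0 < η := lt_of_lt_of_le (by positivity) hη
  set Br : Matrix κ (κ ⊕ μ) ℝ := B.map (Int.cast : ℤ → ℝ) with hBr
  set b : Matrix κ κ ℝ := Br.submatrix id Sum.inl with hb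
  have cast_det : ∀ J : κ → κ ⊕ μ, ((B.submatrix id J).det : ℝ) = (Br.submatrix id J).det := by
    intro J
    have : Br.submatrix id J = (B.submatrix id J).map (Int.castRingHom ℝ) := by
      ext i y; simp [hBr]
    rw [this, ← RingHom.mapMatrix_apply, ← RingHom.map_det, eq_intCast]
  have hbdet : b.det ≠ 0 := by
    rw [hb, ← cast_det]; exact_mod_cast hB
  have hbu : IsUnit b.det := isUnit_iff_ne_zero.2 hbdet
  have hbabs : 0 < |b.det| := abs_pos.2 hbdet
  set R : Matrix κ (κ ⊕ μ) ℝ := b⁻¹ * Br with hR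
  have hbR : b * R = Br := by rw [hR, ← Matrix.mul_assoc, Matrix.mul_nonsing_inv b hbu, Matrix.one_mul]
  have hRabs : ∀ i y, |R i y| ≤ 1 := by
    intro i y
    have e1 : R i y = (b.det)⁻¹ * (Br.submatrix id (Function.update Sum.inl i y)).det := by
      have e2 : R i y = (b⁻¹.mulVec (fun a => Br a y)) i := by
        rw [hR, Matrix.mul_apply]; rfl
      rw [e2, Matrix.inv_def, Ring.inverse_eq_inv', Matrix.smul_mulVec, Pi.smul_apply, smul_eq_mul,
        ← Matrix.cramer_eq_adjugate_mulVec, Matrix.cramer_apply]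
      congr 2
      ext a a'
      by_cases ha : a' = i
      · subst ha; simp
      · simp [ha, hb]
    rw [e1, abs_mul, abs_inv, ← cast_det (Function.update Sum.inl i y)]
    have h1 := hmax (Function.update Sum.inl i y)
    have h2 : |((B.submatrix id (Function.update Sum.inl i y)).det : ℝ)| ≤ |b.det| := by
      rw [hb, ← cast_det]
      exact_mod_cast h1
    rw [inv_mul_le_iff₀ hbabs, mul_one]
    exact h2
  -- the completed matrix
  set P : Matrix (κ ⊕ μ) (κ ⊕ μ) ℝ := fun i => Sum.elim (fun a => Br a)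
    (fun m => (Pi.single (Sum.inr m) 1 : κ ⊕ μ → ℝ)) i with hP
  have hPdet : P.det ≠ 0 := by
    have : P = Matrix.fromBlocks b (Br.submatrix id Sum.inr) 0 1 := by
      ext i y
      rcases i with i | i <;> rcases y with y | y <;>
        simp [hP, hb, Matrix.one_apply, Pi.single_apply, eq_comm]
    rw [this, Matrix.det_fromBlocks_zero₂₁, Matrix.det_one, mul_one]
    exact hbdet
  have hWdet : (W.map (Int.castRingHom ℝ)).det ≠ 0 := by
    rw [← RingHom.mapMatrix_apply, ← RingHom.map_det, eq_intCast]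
    exact_mod_cast hW
  obtain ⟨f, hf⟩ := exists_exchange P (W.map (Int.castRingHom ℝ)) hPdet hWdet
    (univ.map ⟨Sum.inr, Sum.inr_injective⟩)
  set Qz : Matrix (κ ⊕ μ) (κ ⊕ μ) ℤ := fun i => Sum.elim (fun a => B a)
    (fun m => W (f (Sum.inr m))) i with hQz
  have hQeq : (fun i => if i ∈ (univ.map ⟨Sum.inr, Sum.inr_injective⟩ : Finset (κ ⊕ μ)) then
      (W.map (Int.castRingHom ℝ)) (f i) else P i : Matrix (κ ⊕ μ) (κ ⊕ μ) ℝ) =
      Qz.map (Int.castRingHom ℝ) := by
    ext i y
    rcases i with i | i <;> simp [hQz, hP, hBr]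
  rw [hQeq] at hf
  have hQz1 : (1 : ℝ) ≤ |(Qz.map (Int.castRingHom ℝ)).det| := by
    rw [← RingHom.mapMatrix_apply, ← RingHom.map_det, eq_intCast] at hf ⊢
    have h1 : Qz.det ≠ 0 := by exact_mod_cast hf
    exact_mod_cast Int.one_le_abs h1
  set Q' : Matrix (κ ⊕ μ) (κ ⊕ μ) ℝ := fun i => Sum.elim (fun a => R a)
    (fun m => (fun y => (W (f (Sum.inr m)) y : ℝ))) i with hQ'
  have hfac : Qz.map (Int.castRingHom ℝ) = Matrix.fromBlocks b 0 0 1 * Q' := by
    ext i y
    rw [Matrix.mul_apply, Fintype.sum_sum_type]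
    rcases i with i | i
    · have : ∑ a, b i a * R a y = Br i y := by
        rw [← hbR]; rfl
      simp [hQz, hQ', this, hBr]
    · simp [hQz, hQ', Matrix.one_apply]
  have hdetfac : (Qz.map (Int.castRingHom ℝ)).det = b.det * Q'.det := by
    rw [hfac, Matrix.det_mul, Matrix.det_fromBlocks_zero₂₁, Matrix.det_one, mul_one]
  -- the new row
  set z : κ ⊕ μ → ℝ := fun y => ∑ a, w (Sum.inl a) * R a y with hz
  have hzrow : (∑ k, (Sum.elim (fun a => w (Sum.inl a)) (fun _ => 0) : κ ⊕ μ → ℝ) k • Q' k) = z := by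
    ext y
    rw [Fintype.sum_sum_type]
    simp [hQ', hz, Finset.sum_apply]
  have hQ'' : (Q'.updateRow (Sum.inl i₀) z).det = w (Sum.inl i₀) * Q'.det := by
    rw [← hzrow, Matrix.det_updateRow_sum]
    simp
  have hzw : ∀ y, |z y - w y| ≤ η := by
    intro y
    set err : κ → ℝ := fun a => ∑ i, c i * (B i (Sum.inl a) : ℝ) - t * w (Sum.inl a) with herr
    have e1 : ∑ i, c i * (B i y : ℝ) = ∑ a, (t * w (Sum.inl a) + err a) * R a y := by
      have e2 : ∀ i, (B i y : ℝ) = ∑ a, (B i (Sum.inl a) : ℝ) * R a y := by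
        intro i
        have := congrFun (congrFun hbR i) y
        rw [Matrix.mul_apply] at this
        simp only [hb, hBr, Matrix.submatrix_apply, Matrix.map_apply, id] at this
        exact this.symm
      simp only [e2, herr, add_sub_cancel]
      rw [Finset.sum_congr rfl (fun i _ => Finset.mul_sum _ _ _), Finset.sum_comm]
      refine Finset.sum_congr rfl fun a _ => ?_
      rw [Finset.sum_mul]
      refine Finset.sum_congr rfl fun i _ => ?_
      ring
    have e3 : ∑ a, (t * w (Sum.inl a) + err a) * R a y = t * z y + ∑ a, err a * R a y := by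
      rw [hz, Finset.mul_sum, ← Finset.sum_add_distrib]
      refine Finset.sum_congr rfl fun a _ => ?_
      ring
    have e4 : z y - w y = ((∑ i, c i * (B i y : ℝ) - t * w y) - ∑ a, err a * R a y) / t := by
      rw [e1, e3]; field_simp; ring
    have e5 : |∑ a, err a * R a y| ≤ Fintype.card κ * δ := by
      refine (Finset.abs_sum_le_sum_abs _ _).trans ?_
      have : ∀ a ∈ (univ : Finset κ), |err a * R a y| ≤ δ := by
        intro a _
        rw [abs_mul]
        calc |err a| * |R a y| ≤ δ * 1 :=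
              mul_le_mul (hc (Sum.inl a)) (hRabs a y) (abs_nonneg _) hδ.le
          _ = δ := mul_one _
      refine (Finset.sum_le_sum this).trans ?_
      rw [Finset.sum_const, Finset.card_univ, nsmul_eq_mul]
    rw [e4, abs_div]
    refine le_trans (div_le_div_of_nonneg_right ?_ ht0.le) hη
    refine (abs_sub _ _).trans ?_
    have := hc y
    linarith
  -- the determinant estimate
  have hE1 : 1 ≤ E := (hw1 (Sum.inl i₀)).trans (hwE (Sum.inl i₀))
  set V := max ((E + η) / η) (v / ρ) with hV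
  have hV1 : (E + η) / η ≤ V := le_max_left _ _
  have hV2 : v / ρ ≤ V := le_max_right _ _
  have hV3 : 1 ≤ V := by
    refine le_trans ?_ hV1
    rw [le_div_iff₀ hη0]
    linarith
  set r : κ ⊕ μ → ℝ := Sum.elim (fun i => if i = i₀ then η else 1) (fun _ => ρ) with hr
  have hprod : ∏ i, r i = η * ρ ^ (Fintype.card μ) := by
    rw [Fintype.prod_sum_type]
    simp [hr, Finset.prod_ite_eq']
  have hmain := det_dir (Q'.updateRow (Sum.inl i₀) z) w (Sum.inl i₀) E
    (fun j => by linarith [hw1 j]) (fun j => by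
      have h1 := hwE j
      have h2 := hw1 (Sum.inl i₀)
      nlinarith)
    (Sum.elim (fun i => if i = i₀ then 1 else 0) (fun m => U (f (Sum.inr m)))) r (fun i y => by
      rcases i with i | m
      · by_cases hi : i = i₀
        · subst hi
          rw [Matrix.updateRow_self]
          simp only [hr, Sum.elim_inl, if_true, one_mul]
          exact hzw y
        · rw [Matrix.updateRow_ne (by simpa using hi)]
          simp only [hr, Sum.elim_inl, if_neg hi, zero_mul, sub_zero]
          exact hRabs i y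
      · rw [Matrix.updateRow_ne (by simp)]
        simp only [hr, Sum.elim_inr]
        exact hW1 (f (Sum.inr m)) y) V (fun i => by
      rcases i with i | m
      · by_cases hi : i = i₀
        · subst hi
          rw [Matrix.updateRow_self]
          simp only [hr, Sum.elim_inl, if_true]
          have h1 := hzw (Sum.inl i)
          have h2 := hwE (Sum.inl i)
          have h3 := hw1 (Sum.inl i)
          have h4 : |z (Sum.inl i)| ≤ E + η := by
            rw [abs_le] at h1 ⊢
            constructor <;> linarith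
          calc |z (Sum.inl i)| ≤ E + η := h4
            _ = η * ((E + η) / η) := by field_simp
            _ ≤ η * V := mul_le_mul_of_nonneg_left hV1 hη0.le
        · rw [Matrix.updateRow_ne (by simpa using hi)]
          simp only [hr, Sum.elim_inl, if_neg hi, one_mul]
          exact (hRabs i _).trans hV3
      · rw [Matrix.updateRow_ne (by simp)]
        simp only [hr, Sum.elim_inr]
        calc |((W (f (Sum.inr m)) (Sum.inl i₀) : ℤ) : ℝ)| ≤ v := hW2 _ _
          _ = ρ * (v / ρ) := by field_simp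
          _ ≤ ρ * V := mul_le_mul_of_nonneg_left hV2 hρ.le)
  rw [hQ'', hprod, abs_mul] at hmain
  have h5 : |Q'.det| ≤ |w (Sum.inl i₀)| * |Q'.det| := by
    have : 1 ≤ |w (Sum.inl i₀)| := (hw1 _).trans (le_abs_self _)
    nlinarith [abs_nonneg Q'.det]
  rw [hdetfac, abs_mul] at hQz1
  have h6 : ((B.submatrix id Sum.inl).det : ℝ) = b.det := cast_det _
  rw [h6]
  exact hQz1.trans (mul_le_mul_of_nonneg_left (h5.trans hmain) (abs_nonneg _))

theorem Sys.reindex {Y Y' : Type} [Fintype Y] [DecidableEq Y] [Fintype Y'] [DecidableEq Y']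
    {w : Y → ℝ} {ρ v : ℝ} (h : Sys w ρ v) (e : Y' ≃ Y) : Sys (w ∘ e) ρ v := by
  obtain ⟨W, U, hW, hW1, hW2⟩ := h
  refine ⟨W.submatrix e e, U ∘ e, ?_, fun l y => hW1 _ _, fun l y => hW2 _ _⟩
  rw [Matrix.det_submatrix_equiv_self]
  exact hW

/-- The lower bound for the maximal minor, general index types. -/
theorem minor_lower' {Y : Type} [Fintype Y] [DecidableEq Y] (w : Y → ℝ) (E ρ v : ℝ)
    (hw1 : ∀ y, 1 ≤ w y) (hwE : ∀ y, w y ≤ E)
    (hρ : 0 < ρ) (hS : Sys w ρ v) (B : Matrix κ Y ℤ) (J : κ → Y)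
    (hB : (B.submatrix id J).det ≠ 0)
    (hmax : ∀ J' : κ → Y, |(B.submatrix id J').det| ≤ |(B.submatrix id J).det|)
    (i₀ : κ) (c : κ → ℝ) (t δ : ℝ) (ht : t ≠ 0) (hδ : 0 < δ)
    (hc : ∀ y, |∑ i, c i * (B i y : ℝ) - t * w y| ≤ δ) (η : ℝ)
    (hη : (Fintype.card κ + 1) * δ / |t| ≤ η) :
    Fintype.card κ ≤ Fintype.card Y ∧
    1 ≤ |((B.submatrix id J).det : ℝ)| * (((Fintype.card Y)! : ℝ) *
      ((η * ρ ^ (Fintype.card Y - Fintype.card κ)) * (max ((E + η) / η) (v / ρ) *
        (1 + E) ^ (Fintype.card Y - 1)))) := by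
  classical
  have hJ : Function.Injective J := by
    intro a a' haa
    by_contra hne
    exact hB (Matrix.det_zero_of_column_eq hne fun i => by simp [haa])
  set e : κ ⊕ ((Set.range J)ᶜ : Set Y) ≃ Y :=
    (Equiv.sumCongr (Equiv.ofInjective J hJ) (Equiv.refl _)).trans
      (Equiv.Set.sumCompl (Set.range J)) with he
  have he1 : ∀ a, e (Sum.inl a) = J a := by
    intro a
    simp [he]
  have hcard := Fintype.card_congr e
  rw [Fintype.card_sum] at hcard
  have h1 : (B.submatrix id e).submatrix id Sum.inl = B.submatrix id J := by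
    ext i a
    simp [he1]
  have hm := minor_lower (w ∘ e) E ρ v (fun y => hw1 _) (fun y => hwE _) hρ (hS.reindex e)
    (B.submatrix id e) (by rw [h1]; exact hB) (fun J' => by
      rw [h1]
      exact hmax (e ∘ J')) i₀ c t δ ht hδ (fun y => hc (e y)) η hη
  rw [h1, Fintype.card_congr e] at hm
  refine ⟨by omega, ?_⟩
  have h2 : Fintype.card Y - Fintype.card κ = Fintype.card ((Set.range J)ᶜ : Set Y) := by omega
  rw [h2]
  exact hm

end ExpFrac
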