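import Pool.Agent.ExpFrac.Bound

/-!
The basic inequality: integers close to `y exp (k j)`.
-/

set_option autoImplicit false

open Polynomial Finset
open scoped Nat

namespace ExpFrac

variable {ι : Type} [Fintype ι] [DecidableEq ι]

/-- The size of the remainders. -/
noncomputable def rho (K N L : ℕ) : ℝ := L * (Real.exp L * (L : ℝ) ^ (K * N)) / (N - 1)!

/-- The size of the entries. -/
noncomputable def vee (K N L : ℕ) : ℝ :=
  Real.exp L * (((K * N)! : ℝ) * (1 + L : ℝ) ^ (K * N)) / (N - 1)! + rho K N L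

theorem rho_pos (K N L : ℕ) (hL : 1 ≤ L) : 0 < rho K N L := by
  have : (0 : ℝ) < L := by exact_mod_cast hL
  unfold rho
  positivity

theorem row_approx (N L : ℕ) (hL : 1 ≤ L) (k : ι → ℕ) (hk : ∀ j, k j ≤ L) (l : ι)
    (W : ι → ℤ) (hW : ∀ j, eval (k j : ℤ) (sumIDeriv (P N k l)) = ((N - 1)! : ℤ) * W j) (j : ι) :
    |(W j : ℝ) - ((eval 0 (sumIDeriv (P N k l)) : ℤ) : ℝ) / (N - 1)! * Real.exp (k j)| ≤
      rho (Fintype.card ι) N L := by
  have hf : (0 : ℝ) < ((N - 1)! : ℝ) := by positivity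
  have hL' : (1 : ℝ) ≤ L := by exact_mod_cast hL
  have hkj : (k j : ℝ) ≤ L := by exact_mod_cast hk j
  have h0 := remainder ((P N k l).map (Int.castRingHom ℝ)) (k j : ℝ)
    ((L : ℝ) ^ (Fintype.card ι * N)) (Nat.cast_nonneg _)
    (fun x hx0 hx1 => abs_eval_P_le N k l L hL' (fun j => by exact_mod_cast hk j) x hx0
      (hx1.trans hkj))
  have e0 : eval 0 (sumIDeriv ((P N k l).map (Int.castRingHom ℝ))) =
      ((eval 0 (sumIDeriv (P N k l)) : ℤ) : ℝ) := by
    rw [sumIDeriv_map]
    have := Polynomial.eval_intCast_map (Int.castRingHom ℝ) (sumIDeriv (P N k l)) 0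
    simpa using this
  have e1 : eval (k j : ℝ) (sumIDeriv ((P N k l).map (Int.castRingHom ℝ))) =
      ((N - 1)! : ℝ) * W j := by
    rw [sumIDeriv_map]
    have := Polynomial.eval_intCast_map (Int.castRingHom ℝ) (sumIDeriv (P N k l)) (k j : ℤ)
    rw [Int.cast_id, hW j] at this
    simpa using this
  rw [e0, e1] at h0
  have e2 : (W j : ℝ) - ((eval 0 (sumIDeriv (P N k l)) : ℤ) : ℝ) / (N - 1)! * Real.exp (k j) =
      -(Real.exp (k j) * ((eval 0 (sumIDeriv (P N k l)) : ℤ) : ℝ) - ((N - 1)! : ℝ) * W j) /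
        (N - 1)! := by
    field_simp
    ring
  rw [e2, abs_div, abs_neg, abs_of_pos hf, rho]
  refine div_le_div_of_nonneg_right (h0.trans ?_) hf.le
  refine mul_le_mul hkj ?_ (by positivity) (by positivity)
  exact mul_le_mul_of_nonneg_right (Real.exp_le_exp.2 hkj) (by positivity)

theorem row_size (N L : ℕ) (hL : 1 ≤ L) (k : ι → ℕ) (hk : ∀ j, k j ≤ L) (l : ι)
    (W : ι → ℤ) (hW : ∀ j, eval (k j : ℤ) (sumIDeriv (P N k l)) = ((N - 1)! : ℤ) * W j) (j : ι) :
    |(W j : ℝ)| ≤ vee (Fintype.card ι) N L := by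
  have hf : (0 : ℝ) < ((N - 1)! : ℝ) := by positivity
  have hkj : (k j : ℝ) ≤ L := by exact_mod_cast hk j
  have h1 := row_approx N L hL k hk l W hW j
  have h2 : |((eval 0 (sumIDeriv (P N k l)) : ℤ) : ℝ)| ≤
      ((Fintype.card ι * N)! : ℝ) * (1 + L : ℝ) ^ (Fintype.card ι * N) := by
    have := abs_F_zero_le N k l L hk
    exact_mod_cast this
  have h3 : |((eval 0 (sumIDeriv (P N k l)) : ℤ) : ℝ) / (N - 1)! * Real.exp (k j)| ≤
      Real.exp L * (((Fintype.card ι * N)! : ℝ) * (1 + L : ℝ) ^ (Fintype.card ι * N)) /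
        (N - 1)! := by
    rw [abs_mul, abs_div, abs_of_pos hf, abs_of_pos (Real.exp_pos _), div_mul_eq_mul_div,
      mul_comm (Real.exp (L : ℝ))]
    refine div_le_div_of_nonneg_right ?_ hf.le
    exact mul_le_mul h2 (Real.exp_le_exp.2 hkj) (Real.exp_pos _).le (by positivity)
  have e : (W j : ℝ) = ((W j : ℝ) - ((eval 0 (sumIDeriv (P N k l)) : ℤ) : ℝ) / (N - 1)! *
      Real.exp (k j)) + ((eval 0 (sumIDeriv (P N k l)) : ℤ) : ℝ) / (N - 1)! * Real.exp (k j) := by
    ring
  rw [e, vee]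
  refine (abs_add_le _ _).trans ?_
  rw [add_comm]
  exact add_le_add h3 h1

/-- The basic inequality for vectors which are not divisible by `q`. -/
theorem core_prim (N L q : ℕ) (hN : 0 < N) (hL : 1 ≤ L) [hq : Fact q.Prime] (hqN : q ∣ N)
    (hqL : L < q) (k : ι → ℕ) (hinj : Function.Injective k) (hk : ∀ j, k j ≤ L) (j₀ : ι)
    (a : ι → ℤ) (i₀ : ι) (ha : ¬ (q : ℤ) ∣ a i₀) (y δ T : ℝ) (hδ : 0 < δ)
    (hy : ∀ j, |(a j : ℝ) - y * Real.exp (k j)| ≤ δ) (hT : |(a j₀ : ℝ)| ≤ T) :
    1 ≤ ((Fintype.card ι)! : ℝ) * ((δ * rho (Fintype.card ι) N L ^ (Fintype.card ι - 1)) *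
      (max (T / δ) (vee (Fintype.card ι) N L / rho (Fintype.card ι) N L) *
        (1 + Real.exp L) ^ (Fintype.card ι - 1))) := by
  have hρ := rho_pos (Fintype.card ι) N L hL
  choose W hW1 hW2 hW3 using fun l => exists_W N hN k l
  set A : Matrix ι ι ℤ := fun i j => if i = i₀ then a j else W i j with hA
  have hdet : A.det ≠ 0 := by
    refine det_mod A q i₀ ?_ ?_
    · intro i hi j hj
      simp only [hA, if_neg hi]
      exact (Int.natCast_dvd_natCast.2 hqN).trans (hW2 i j hj)
    · intro i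
      by_cases hi : i = i₀
      · subst hi
        simp only [hA, if_true]
        exact ha
      · simp only [hA, if_neg hi]
        intro hdvd
        have h1 : (q : ℤ) ∣ ∏ j ∈ univ.erase i, ((k i : ℤ) - k j) ^ N := by
          have h2 := (Int.natCast_dvd_natCast.2 hqN).trans (hW3 i)
          exact (dvd_sub_right hdvd).1 h2
        have hp : Prime (q : ℤ) := Nat.prime_iff_prime_int.1 hq.out
        obtain ⟨j, hj, h3⟩ := (hp.dvd_finsetProd_iff _).1 h1
        have h4 := hp.dvd_of_dvd_pow h3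
        have h5 : (k i : ℤ) - k j ≠ 0 := by
          intro h6
          have : k i = k j := by omega
          exact (mem_erase.1 hj).1 (hinj this).symm
        have h7 := Int.le_of_dvd (abs_pos.2 h5) ((dvd_abs _ _).2 h4)
        have h8 : |(k i : ℤ) - k j| ≤ L := by
          rw [abs_le]
          have := hk i
          have := hk j
          constructor <;> omega
        omega
  have h1 : (1 : ℝ) ≤ |((A.map (Int.castRingHom ℝ)).det)| := by
    rw [← RingHom.mapMatrix_apply, ← RingHom.map_det, eq_intCast]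
    have := Int.one_le_abs hdet
    exact_mod_cast this
  refine h1.trans ?_
  set r : ι → ℝ := fun i => if i = i₀ then δ else rho (Fintype.card ι) N L with hr
  have hprod : ∏ i, r i = δ * rho (Fintype.card ι) N L ^ (Fintype.card ι - 1) := by
    rw [← mul_prod_erase univ r (mem_univ i₀)]
    have : ∏ x ∈ univ.erase i₀, r x = rho (Fintype.card ι) N L ^ (Fintype.card ι - 1) := by
      rw [prod_congr rfl (g := fun _ => rho (Fintype.card ι) N L)
        (fun x hx => by rw [hr]; exact if_neg (mem_erase.1 hx).1),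
        prod_const, card_erase_of_mem (mem_univ i₀), card_univ]
    rw [this]
    simp [hr]
  have hA0 : ∀ j, (A.map (Int.castRingHom ℝ)) i₀ j = (a j : ℝ) := by
    intro j
    rw [Matrix.map_apply, eq_intCast, hA]
    simp
  have hA1 : ∀ i, i ≠ i₀ → ∀ j, (A.map (Int.castRingHom ℝ)) i j = (W i j : ℝ) := by
    intro i hi j
    rw [Matrix.map_apply, eq_intCast, hA]
    simp [hi]
  have hmain := det_dir (A.map (Int.castRingHom ℝ)) (fun j => Real.exp (k j)) j₀ (Real.exp L)
    (fun j => Real.exp_pos _) (fun j => by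
      have h2 : Real.exp (k j) ≤ Real.exp L := Real.exp_le_exp.2 (by exact_mod_cast hk j)
      have h3 : (1 : ℝ) ≤ Real.exp (k j₀) := Real.one_le_exp (Nat.cast_nonneg _)
      nlinarith [Real.exp_pos (L : ℝ)])
    (fun i => if i = i₀ then y else
      ((eval 0 (sumIDeriv (P N k i)) : ℤ) : ℝ) / (N - 1)!) r (fun i j => by
        by_cases hi : i = i₀
        · subst hi
          rw [hA0]
          simp only [hr, if_true]
          exact hy j
        · rw [hA1 i hi]
          simp only [hr, if_neg hi]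
          exact row_approx N L hL k hk i (W i) (hW1 i) j)
    (max (T / δ) (vee (Fintype.card ι) N L / rho (Fintype.card ι) N L)) (fun i => by
        by_cases hi : i = i₀
        · subst hi
          rw [hA0]
          simp only [hr, if_true]
          calc |(a j₀ : ℝ)| ≤ T := hT
            _ = δ * (T / δ) := by field_simp
            _ ≤ _ := mul_le_mul_of_nonneg_left (le_max_left _ _) hδ.le
        · rw [hA1 i hi]
          simp only [hr, if_neg hi]
          calc |(W i j₀ : ℝ)| ≤ vee (Fintype.card ι) N L :=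
                row_size N L hL k hk i (W i) (hW1 i) j₀
            _ = rho (Fintype.card ι) N L * (vee (Fintype.card ι) N L /
                rho (Fintype.card ι) N L) := by field_simp
            _ ≤ _ := mul_le_mul_of_nonneg_left (le_max_right _ _) hρ.le)
  rw [hprod] at hmain
  exact hmain

/-- The basic inequality. -/
theorem core (N L q : ℕ) (hN : 0 < N) (hL : 1 ≤ L) [hq : Fact q.Prime] (hqN : q ∣ N)
    (hqL : L < q) (k : ι → ℕ) (hinj : Function.Injective k) (hk : ∀ j, k j ≤ L) (j₀ : ι)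
    (a : ι → ℤ) (ha : ∃ i, a i ≠ 0) (y δ T : ℝ) (hδ : 0 < δ)
    (hy : ∀ j, |(a j : ℝ) - y * Real.exp (k j)| ≤ δ) (hT : |(a j₀ : ℝ)| ≤ T) :
    1 ≤ ((Fintype.card ι)! : ℝ) * ((δ * rho (Fintype.card ι) N L ^ (Fintype.card ι - 1)) *
      (max (T / δ) (vee (Fintype.card ι) N L / rho (Fintype.card ι) N L) *
        (1 + Real.exp L) ^ (Fintype.card ι - 1))) := by
  obtain ⟨g, hg, hg1⟩ := Finset.extract_gcd (s := (univ : Finset ι)) a ⟨j₀, mem_univ _⟩
  set d : ℤ := univ.gcd a with hd
  have hd0 : d ≠ 0 := by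
    intro h
    rw [hd, Finset.gcd_eq_zero_iff] at h
    obtain ⟨i, hi⟩ := ha
    exact hi (h i (mem_univ i))
  have hd1 : (1 : ℝ) ≤ |(d : ℝ)| := by exact_mod_cast Int.one_le_abs hd0
  have hdR : (d : ℝ) ≠ 0 := by exact_mod_cast hd0
  have : ∃ i₀, ¬ (q : ℤ) ∣ g i₀ := by
    by_contra hcon
    push Not at hcon
    have h1 : (q : ℤ) ∣ univ.gcd g := Finset.dvd_gcd fun i _ => hcon i
    rw [hg1] at h1
    have hp : Prime (q : ℤ) := Nat.prime_iff_prime_int.1 hq.out
    exact hp.not_isUnit (isUnit_of_dvd_one h1)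
  obtain ⟨i₀, hi₀⟩ := this
  have hag : ∀ j, (a j : ℝ) = d * g j := by
    intro j
    have := hg j (mem_univ j)
    exact_mod_cast this
  refine core_prim N L q hN hL hqN hqL k hinj hk j₀ g i₀ hi₀ (y / d) δ _ hδ ?_ ?_
  · intro j
    have h1 := hy j
    rw [hag j] at h1
    have e : (g j : ℝ) - y / d * Real.exp (k j) = (d * g j - y * Real.exp (k j)) / d := by
      field_simp
    rw [e, abs_div]
    exact (div_le_self (abs_nonneg _) hd1).trans h1
  · refine le_trans ?_ hT
    rw [hag j₀, abs_mul]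
    nlinarith [abs_nonneg (g j₀ : ℝ)]

end ExpFrac
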