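import Pool.Agent.ExpFrac.Dich

/-!
The inhomogeneous case: integers close to `y exp (k j) + β`, through differences.
-/

set_option autoImplicit false

open Polynomial Finset
open scoped Nat

namespace ExpFrac

variable {ι : Type} [Fintype ι] [DecidableEq ι]

theorem core_primB (N L q : ℕ) (hN : 0 < N) (hL : 1 ≤ L) [hq : Fact q.Prime] (hqN : q ∣ N)
    (hqL : L < q) (k : Option ι → ℕ) (hinj : Function.Injective k) (hk : ∀ j, k j ≤ L)
    (hk0 : ∀ j : ι, k none < k (some j)) (j₀ : ι)
    (b : ι → ℤ) (i₀ : ι) (ha : ¬ (q : ℤ) ∣ b i₀) (y δ T : ℝ) (hδ : 0 < δ)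
    (hy : ∀ j, |(b j : ℝ) - y * (Real.exp (k (some j)) - Real.exp (k none))| ≤ δ)
    (hT : |(b j₀ : ℝ)| ≤ T) :
    1 ≤ ((Fintype.card ι)! : ℝ) * ((δ * (2 * rho (Fintype.card ι + 1) N L) ^
      (Fintype.card ι - 1)) *
      (max (T / δ) (vee (Fintype.card ι + 1) N L / rho (Fintype.card ι + 1) N L) *
        (1 + Real.exp L) ^ (Fintype.card ι - 1))) := by
  have hcard : Fintype.card (Option ι) = Fintype.card ι + 1 := Fintype.card_option
  have hρ := rho_pos (Fintype.card ι + 1) N L hL
  choose W hW1 hW2 hW3 using fun l : Option ι => exists_W N hN k l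
  have hap := fun (l j : Option ι) => row_approx N L hL k hk l (W l) (hW1 l) j
  have hsz := fun (l j : Option ι) => row_size N L hL k hk l (W l) (hW1 l) j
  rw [hcard] at hap hsz
  set A : Matrix ι ι ℤ := fun i j => if i = i₀ then b j else W (some i) (some j) - W (some i) none
    with hA
  have hdet : A.det ≠ 0 := by
    refine det_mod A q i₀ ?_ ?_
    · intro i hi j hj
      simp only [hA, if_neg hi]
      refine dvd_sub ?_ ?_
      · exact (Int.natCast_dvd_natCast.2 hqN).trans (hW2 (some i) (some j) (by simpa using hj))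
      · exact (Int.natCast_dvd_natCast.2 hqN).trans (hW2 (some i) none (by simp))
    · intro i
      by_cases hi : i = i₀
      · subst hi
        simp only [hA, if_true]
        exact ha
      · simp only [hA, if_neg hi]
        intro hdvd
        have h0 : (q : ℤ) ∣ W (some i) none :=
          (Int.natCast_dvd_natCast.2 hqN).trans (hW2 (some i) none (by simp))
        have hdvd' : (q : ℤ) ∣ W (some i) (some i) := by
          have := dvd_add hdvd h0
          rwa [sub_add_cancel] at this
        have h1 : (q : ℤ) ∣ ∏ j ∈ univ.erase (some i), ((k (some i) : ℤ) - k j) ^ N := by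
          have h2 := (Int.natCast_dvd_natCast.2 hqN).trans (hW3 (some i))
          exact (dvd_sub_right hdvd').1 h2
        have hp : Prime (q : ℤ) := Nat.prime_iff_prime_int.1 hq.out
        obtain ⟨j, hj, h3⟩ := (hp.dvd_finsetProd_iff _).1 h1
        have h4 := hp.dvd_of_dvd_pow h3
        have h5 : (k (some i) : ℤ) - k j ≠ 0 := by
          intro h6
          have : k (some i) = k j := by omega
          exact (mem_erase.1 hj).1 (hinj this).symm
        have h7 := Int.le_of_dvd (abs_pos.2 h5) ((dvd_abs _ _).2 h4)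
        have h8 : |(k (some i) : ℤ) - k j| ≤ L := by
          rw [abs_le]
          have := hk (some i)
          have := hk j
          constructor <;> omega
        omega
  have h1 : (1 : ℝ) ≤ |((A.map (Int.castRingHom ℝ)).det)| := by
    rw [← RingHom.mapMatrix_apply, ← RingHom.map_det, eq_intCast]
    have := Int.one_le_abs hdet
    exact_mod_cast this
  refine h1.trans ?_
  set r : ι → ℝ := fun i => if i = i₀ then δ else 2 * rho (Fintype.card ι + 1) N L with hr
  have hprod : ∏ i, r i = δ * (2 * rho (Fintype.card ι + 1) N L) ^ (Fintype.card ι - 1) := by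
    rw [← mul_prod_erase univ r (mem_univ i₀)]
    have : ∏ x ∈ univ.erase i₀, r x =
        (2 * rho (Fintype.card ι + 1) N L) ^ (Fintype.card ι - 1) := by
      rw [prod_congr rfl (g := fun _ => 2 * rho (Fintype.card ι + 1) N L)
        (fun x hx => by rw [hr]; exact if_neg (mem_erase.1 hx).1),
        prod_const, card_erase_of_mem (mem_univ i₀), card_univ]
    rw [this]
    simp [hr]
  have hA0 : ∀ j, (A.map (Int.castRingHom ℝ)) i₀ j = (b j : ℝ) := by
    intro j
    rw [Matrix.map_apply, eq_intCast, hA]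
    simp
  have hA1 : ∀ i, i ≠ i₀ → ∀ j, (A.map (Int.castRingHom ℝ)) i j =
      (W (some i) (some j) : ℝ) - W (some i) none := by
    intro i hi j
    rw [Matrix.map_apply, eq_intCast, hA]
    simp [hi]
  have hE1 : ∀ j : ι, 1 ≤ Real.exp (k (some j)) - Real.exp (k none) := by
    intro j
    have h2 : (k none : ℝ) + 1 ≤ k (some j) := by exact_mod_cast hk0 j
    have h3 := Real.exp_le_exp.2 h2
    rw [Real.exp_add] at h3
    have h4 : (1 : ℝ) ≤ Real.exp (k none) := Real.one_le_exp (Nat.cast_nonneg _)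
    have h5 := Real.exp_one_gt_d9
    nlinarith
  have hmain := det_dir (A.map (Int.castRingHom ℝ))
    (fun j => Real.exp (k (some j)) - Real.exp (k none)) j₀ (Real.exp L)
    (fun j => by linarith [hE1 j]) (fun j => by
      have h2 : Real.exp (k (some j)) ≤ Real.exp L :=
        Real.exp_le_exp.2 (by exact_mod_cast hk (some j))
      have h3 := hE1 j₀
      have h4 := Real.exp_pos (k none : ℝ)
      nlinarith [Real.exp_pos (L : ℝ)])
    (fun i => if i = i₀ then y else
      ((eval 0 (sumIDeriv (P N k (some i))) : ℤ) : ℝ) / (N - 1)!) r (fun i j => by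
        by_cases hi : i = i₀
        · subst hi
          rw [hA0]
          simp only [hr, if_true]
          exact hy j
        · rw [hA1 i hi]
          simp only [hr, if_neg hi]
          have h2 := hap (some i) (some j)
          have h3 := hap (some i) none
          set U := ((eval 0 (sumIDeriv (P N k (some i))) : ℤ) : ℝ) / (N - 1)! with hU
          have e : (W (some i) (some j) : ℝ) - W (some i) none -
              U * (Real.exp (k (some j)) - Real.exp (k none)) =
              ((W (some i) (some j) : ℝ) - U * Real.exp (k (some j))) -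
                ((W (some i) none : ℝ) - U * Real.exp (k none)) := by ring
          rw [e]
          refine (abs_sub _ _).trans ?_
          linarith)
    (max (T / δ) (vee (Fintype.card ι + 1) N L / rho (Fintype.card ι + 1) N L)) (fun i => by
        by_cases hi : i = i₀
        · subst hi
          rw [hA0]
          simp only [hr, if_true]
          calc |(b j₀ : ℝ)| ≤ T := hT
            _ = δ * (T / δ) := by field_simp
            _ ≤ _ := mul_le_mul_of_nonneg_left (le_max_left _ _) hδ.le
        · rw [hA1 i hi]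
          simp only [hr, if_neg hi]
          calc |(W (some i) (some j₀) : ℝ) - W (some i) none|
              ≤ |(W (some i) (some j₀) : ℝ)| + |(W (some i) none : ℝ)| := abs_sub _ _
            _ ≤ 2 * vee (Fintype.card ι + 1) N L := by
                have := hsz (some i) (some j₀)
                have := hsz (some i) none
                linarith
            _ = 2 * rho (Fintype.card ι + 1) N L * (vee (Fintype.card ι + 1) N L /
                rho (Fintype.card ι + 1) N L) := by field_simp
            _ ≤ _ := mul_le_mul_of_nonneg_left (le_max_right _ _) (by linarith))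
  rw [hprod] at hmain
  exact hmain

theorem coreB (N L q : ℕ) (hN : 0 < N) (hL : 1 ≤ L) [hq : Fact q.Prime] (hqN : q ∣ N)
    (hqL : L < q) (k : Option ι → ℕ) (hinj : Function.Injective k) (hk : ∀ j, k j ≤ L)
    (hk0 : ∀ j : ι, k none < k (some j)) (j₀ : ι)
    (b : ι → ℤ) (hb : ∃ i, b i ≠ 0) (y δ T : ℝ) (hδ : 0 < δ)
    (hy : ∀ j, |(b j : ℝ) - y * (Real.exp (k (some j)) - Real.exp (k none))| ≤ δ)
    (hT : |(b j₀ : ℝ)| ≤ T) :
    1 ≤ ((Fintype.card ι)! : ℝ) * ((δ * (2 * rho (Fintype.card ι + 1) N L) ^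
      (Fintype.card ι - 1)) *
      (max (T / δ) (vee (Fintype.card ι + 1) N L / rho (Fintype.card ι + 1) N L) *
        (1 + Real.exp L) ^ (Fintype.card ι - 1))) := by
  obtain ⟨g, hg, hg1⟩ := Finset.extract_gcd (s := (univ : Finset ι)) b ⟨j₀, mem_univ _⟩
  set d : ℤ := univ.gcd b with hd
  have hd0 : d ≠ 0 := by
    intro h
    rw [hd, Finset.gcd_eq_zero_iff] at h
    obtain ⟨i, hi⟩ := hb
    exact hi (h i (mem_univ i))
  have hd1 : (1 : ℝ) ≤ |(d : ℝ)| := by exact_mod_cast Int.one_le_abs hd0
  have hdR : (d : ℝ) ≠ 0 := by exact_mod_cast hd0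
  have : ∃ i₀, ¬ (q : ℤ) ∣ g i₀ := by
    by_contra hcon
    push Not at hcon
    have h1 : (q : ℤ) ∣ univ.gcd g := Finset.dvd_gcd fun i _ => hcon i
    rw [hg1] at h1
    have hp : Prime (q : ℤ) := Nat.prime_iff_prime_int.1 hq.out
    exact hp.not_isUnit (isUnit_of_dvd_one h1)
  obtain ⟨i₀, hi₀⟩ := this
  have hag : ∀ j, (b j : ℝ) = d * g j := by
    intro j
    have := hg j (mem_univ j)
    exact_mod_cast this
  refine core_primB N L q hN hL hqN hqL k hinj hk hk0 j₀ g i₀ hi₀ (y / d) δ _ hδ ?_ ?_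
  · intro j
    have h1 := hy j
    rw [hag j] at h1
    have e : (g j : ℝ) - y / d * (Real.exp (k (some j)) - Real.exp (k none)) =
        (d * g j - y * (Real.exp (k (some j)) - Real.exp (k none))) / d := by
      field_simp
    rw [e, abs_div]
    exact (div_le_self (abs_nonneg _) hd1).trans h1
  · refine le_trans ?_ hT
    rw [hag j₀, abs_mul]
    nlinarith [abs_nonneg (g j₀ : ℝ)]

/-- The dichotomy, inhomogeneous case. -/
theorem dichB (m L N q : ℕ) (hm : 1 ≤ m) (hmL : m ≤ L) (hmL2 : m + 1 ≤ L) (hLN : L ≤ N)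
    [hq : Fact q.Prime] (hqN : q ∣ N) (hqL : L < q) (k : Option (Fin (m + 1)) → ℕ)
    (hinj : Function.Injective k) (hk : ∀ j, k j ≤ L) (hk0 : ∀ j, k none < k (some j))
    (b : Fin (m + 1) → ℤ) (hb : ∃ i, b i ≠ 0) (y δ : ℝ) (hδ : 0 < δ)
    (hy : ∀ j, |(b j : ℝ) - y * (Real.exp (k (some j)) - Real.exp (k none))| ≤ δ) (T : ℝ)
    (hT0 : 0 < T) (hT : |(b 0 : ℝ)| ≤ T) :
    (m : ℝ) * (N * Real.log N) ≤ 18 * (m ^ 2 * N * Real.log (L + 1)) + Real.log T ∨
      -Real.log δ ≤ 2 * (N * Real.log N) + 24 * (m ^ 2 * N * Real.log (L + 1)) := by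
  have hL : 1 ≤ L := hm.trans hmL
  have hN : 1 ≤ N := hL.trans hLN
  have hm' : (1 : ℝ) ≤ m := by exact_mod_cast hm
  have hN' : (1 : ℝ) ≤ N := by exact_mod_cast hN
  have hLN' : (L : ℝ) ≤ N := by exact_mod_cast hLN
  have hL' : (1 : ℝ) ≤ L := by exact_mod_cast hL
  set B := Real.log ((L : ℝ) + 1) with hB
  have hB1 : (1 / 2 : ℝ) ≤ B := half_le_log hL
  have hcard : Fintype.card (Fin (m + 1)) = m + 1 := Fintype.card_fin _
  have h0 := coreB N L q hN hL hqN hqL k hinj hk hk0 0 b hb y δ T hδ hy hT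
  rw [hcard, Nat.add_sub_cancel] at h0
  have hρ := rho_pos (m + 1 + 1) N L hL
  have hv : 0 < vee (m + 1 + 1) N L := by
    rw [vee]
    positivity
  have hlρ := log_rho_le (m + 1 + 1) N L hL hN
  have hlv := log_vee_le (m + 1 + 1) N L hL hN (by omega) (by omega)
  have hlf := log_fac_lower N hN
  have hle := log_one_add_exp_le L
  have hl2 : Real.log 2 ≤ 1 := by linarith [Real.log_two_lt_d9]
  have hKf : Real.log (((m + 1)! : ℕ) : ℝ) ≤ (m + 1) * B := by
    have h1 := log_fac_upper (m + 1)
    have h2 : Real.log ((m + 1 : ℕ) : ℝ) ≤ B := by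
      refine Real.log_le_log (by positivity) ?_
      have : ((m + 1 : ℕ) : ℝ) ≤ ((L + 1 : ℕ) : ℝ) := by exact_mod_cast (by omega : m + 1 ≤ L + 1)
      push_cast at this ⊢
      exact this
    calc _ ≤ _ := h1
      _ ≤ ((m + 1 : ℕ) : ℝ) * B := mul_le_mul_of_nonneg_left h2 (by positivity)
      _ = _ := by push_cast; ring
  have hfac : (0 : ℝ) < (((m + 1)! : ℕ) : ℝ) := by positivity
  have hE : (0 : ℝ) < 1 + Real.exp L := by positivity
  push_cast at hlρ hlv
  rw [← hB] at hlρ hlv
  -- auxiliary products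
  have hB0 : (0 : ℝ) ≤ B := by linarith
  have hmN : (1 : ℝ) ≤ m * N := by
    have := mul_le_mul hm' hN' zero_le_one (by linarith)
    linarith
  have q1 : (m : ℝ) * N ≤ (m : ℝ) ^ 2 * N := by
    have : (m : ℝ) * N * 1 ≤ (m : ℝ) * N * m := mul_le_mul_of_nonneg_left hm' (by linarith)
    calc (m : ℝ) * N = (m : ℝ) * N * 1 := (mul_one _).symm
      _ ≤ _ := this
      _ = _ := by ring
  have q2 : (m : ℝ) ≤ m * N := by
    have : (m : ℝ) * 1 ≤ (m : ℝ) * N := mul_le_mul_of_nonneg_left hN' (by linarith)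
    linarith
  have q3 : (N : ℝ) ≤ m * N := by
    have : 1 * (N : ℝ) ≤ (m : ℝ) * N := mul_le_mul_of_nonneg_right hm' (by linarith)
    linarith
  have p6 : (m : ℝ) * N * B ≤ (m : ℝ) ^ 2 * N * B := mul_le_mul_of_nonneg_right q1 hB0
  have p1 : B ≤ (m : ℝ) ^ 2 * N * B := by
    have := mul_le_mul_of_nonneg_right hmN hB0
    linarith
  have p2 : (m : ℝ) * B ≤ (m : ℝ) ^ 2 * N * B := by
    have := mul_le_mul_of_nonneg_right q2 hB0
    linarith
  have p3 : (m : ℝ) * N ≤ 2 * ((m : ℝ) ^ 2 * N * B) := by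
    have h2 : (m : ℝ) * N * (1 / 2) ≤ (m : ℝ) * N * B :=
      mul_le_mul_of_nonneg_left hB1 (by linarith)
    linarith
  have p4 : (m : ℝ) * L ≤ 2 * ((m : ℝ) ^ 2 * N * B) := by
    have : (m : ℝ) * L ≤ m * N := mul_le_mul_of_nonneg_left hLN' (by linarith)
    linarith
  have p5 : (m : ℝ) ≤ 2 * ((m : ℝ) ^ 2 * N * B) := by linarith
  have p7 : (N : ℝ) * B ≤ (m : ℝ) ^ 2 * N * B := by
    have := mul_le_mul_of_nonneg_right q3 hB0
    linarith
  have p8 : (m : ℝ) * Real.log 2 ≤ m := by
    have := mul_le_mul_of_nonneg_left hl2 (by linarith : (0 : ℝ) ≤ m)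
    linarith
  have h3 : (m : ℝ) * Real.log (1 + Real.exp L) ≤ m * (L + 1) :=
    mul_le_mul_of_nonneg_left hle (by linarith)
  have h4 : (m : ℝ) * (N * Real.log N - 2 * N) ≤ m * Real.log ((N - 1)! : ℝ) :=
    mul_le_mul_of_nonneg_left hlf (by linarith)
  rcases le_total (T / δ) (vee (m + 1 + 1) N L / rho (m + 1 + 1) N L) with h | h
  · right
    rw [max_eq_right h] at h0
    have h1 := Real.log_le_log one_pos h0
    rw [Real.log_one, Real.log_mul hfac.ne' (by positivity), Real.log_mul (by positivity)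
      (by positivity), Real.log_mul hδ.ne' (by positivity), Real.log_mul (by positivity)
      (by positivity), Real.log_div hv.ne' hρ.ne', Real.log_pow, Real.log_pow,
      Real.log_mul (by norm_num) hρ.ne'] at h1
    have h2 : ((m : ℝ) - 1) * Real.log (rho (m + 1 + 1) N L) ≤
        ((m : ℝ) - 1) * (B + L + (m + 1 + 1) * N * B - Real.log ((N - 1)! : ℝ)) :=
      mul_le_mul_of_nonneg_left hlρ (by linarith)
    linarith
  · left
    rw [max_eq_left h] at h0
    have e : (((m + 1)! : ℕ) : ℝ) * ((δ * (2 * rho (m + 1 + 1) N L) ^ m) * ((T / δ) *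
        (1 + Real.exp L) ^ m)) = (((m + 1)! : ℕ) : ℝ) * ((2 * rho (m + 1 + 1) N L) ^ m * (T *
        (1 + Real.exp L) ^ m)) := by
      field_simp
    rw [e] at h0
    have h1 := Real.log_le_log one_pos h0
    rw [Real.log_one, Real.log_mul hfac.ne' (by positivity), Real.log_mul (by positivity)
      (by positivity), Real.log_mul hT0.ne' (by positivity), Real.log_pow, Real.log_pow,
      Real.log_mul (by norm_num) hρ.ne'] at h1
    have h2 : (m : ℝ) * Real.log (rho (m + 1 + 1) N L) ≤
        (m : ℝ) * (B + L + (m + 1 + 1) * N * B - Real.log ((N - 1)! : ℝ)) :=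
      mul_le_mul_of_nonneg_left hlρ (by linarith)
    linarith

end ExpFrac
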