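import Pool.Agent.ExpFrac.Main

/-!
Counting the exceptional integers.
-/

set_option autoImplicit false

open Finset Filter


namespace ExpFrac

/-- The size of the threshold. -/
noncomputable def rate (n m L : ℕ) : ℝ :=
  n / m + 400 * m * n * Real.log (L + 1) / Real.log n

/-- Windows: at most `m` exceptions. -/
theorem window (ξ : ℝ) (hξ : ξ ≠ 0) : ∃ n₀ : ℕ, ∀ n ≥ n₀, ∀ m L : ℕ, 1 ≤ m → 1 ≤ L →
    400 * (m : ℝ) * Real.log (L + 1) ≤ Real.log n →
    {k : ℕ | n ≤ k ∧ k ≤ n + L ∧ nint (ξ * Real.exp k) < Real.exp (-rate n m L)}.ncard ≤ m := by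
  obtain ⟨n₀, h₀⟩ := main ξ hξ
  refine ⟨n₀, fun n hn m L hm hL h => ?_⟩
  set S := {k : ℕ | n ≤ k ∧ k ≤ n + L ∧ nint (ξ * Real.exp k) < Real.exp (-rate n m L)} with hS
  have hfin : S.Finite := (Set.finite_Icc n (n + L)).subset fun k hk => ⟨hk.1, hk.2.1⟩
  by_contra hcon
  push Not at hcon
  have h1 : m + 1 ≤ hfin.toFinset.card := by
    rw [← Set.ncard_eq_toFinset_card S hfin]; exact hcon
  have h2 : Fintype.card (Fin (m + 1)) ≤ Fintype.card hfin.toFinset := by
    rw [Fintype.card_fin, Fintype.card_coe]; exact h1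
  obtain ⟨f⟩ := Function.Embedding.nonempty_of_card_le h2
  have hf : ∀ j, ((f j : ℕ)) ∈ S := fun j => hfin.mem_toFinset.1 (f j).2
  obtain ⟨j, hj⟩ := h₀ n hn m L hm hL h (fun j => (f j : ℕ) - n) (by
      intro i j hij
      have h3 := (hf i).1
      have h4 := (hf j).1
      have h5 : (f i : ℕ) = f j := by
        simp only at hij
        omega
      exact f.injective (Subtype.ext h5)) (by
      intro j
      have h3 := (hf j).2.1
      show (f j : ℕ) - n ≤ L
      omega)
  have h6 : n + ((f j : ℕ) - n) = f j := by have := (hf j).1; omega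
  rw [h6] at hj
  exact absurd (hf j).2.2 (not_lt.2 hj)

/-- Counting with windows. -/
theorem count_windows (S : Set ℕ) (x L m s : ℕ)
    (h : ∀ n, s ≤ n → n ≤ x → (S ∩ Set.Icc n (n + L)).ncard ≤ m) :
    (S ∩ Set.Iic x).ncard ≤ s + m * (x / (L + 1) + 1) := by
  have hsub : S ∩ Set.Iic x ⊆ Set.Iio s ∪
      ⋃ i ∈ (Finset.range (x / (L + 1) + 1)).filter (fun i => s + i * (L + 1) ≤ x),
        (S ∩ Set.Icc (s + i * (L + 1)) (s + i * (L + 1) + L)) := by
    intro k hk
    by_cases hks : k < s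
    · exact Or.inl hks
    · right
      push Not at hks
      have hkx : k ≤ x := hk.2
      have h1 : (k - s) / (L + 1) * (L + 1) ≤ k - s := Nat.div_mul_le_self _ _
      have h2 : k - s < ((k - s) / (L + 1) + 1) * (L + 1) := by
        have := Nat.lt_div_mul_add (a := k - s) (b := L + 1) (by omega)
        linarith
      have h2' : ((k - s) / (L + 1) + 1) * (L + 1) = (k - s) / (L + 1) * (L + 1) + (L + 1) := by
        ring
      rw [Set.mem_iUnion₂]
      refine ⟨(k - s) / (L + 1), ?_, hk.1, ?_, ?_⟩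
      · rw [Finset.mem_filter, Finset.mem_range]
        constructor
        · have : (k - s) / (L + 1) ≤ x / (L + 1) := Nat.div_le_div_right (by omega)
          omega
        · omega
      · omega
      · omega
  have hfin1 : (Set.Iio s).Finite := Set.finite_Iio s
  refine (Set.ncard_le_ncard hsub ?_).trans ?_
  · refine hfin1.union ?_
    refine Set.Finite.biUnion (Finset.finite_toSet _) fun i _ => ?_
    exact (Set.finite_Icc _ _).subset Set.inter_subset_right
  refine (Set.ncard_union_le _ _).trans ?_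
  have h3 : (Set.Iio s).ncard = s := by
    rw [Set.ncard_eq_toFinset_card _ hfin1]
    simp
  rw [h3]
  refine Nat.add_le_add_left ?_ s
  have h4 : ∀ T : Finset ℕ, (∀ i ∈ T, s + i * (L + 1) ≤ x) →
      (⋃ i ∈ T, (S ∩ Set.Icc (s + i * (L + 1)) (s + i * (L + 1) + L))).ncard ≤ m * T.card := by
    intro T
    induction T using Finset.induction_on with
    | empty => intro _; simp
    | insert a T ha ih =>
      intro hT
      rw [Finset.set_biUnion_insert, Finset.card_insert_of_notMem ha]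
      refine (Set.ncard_union_le _ _).trans ?_
      have h5 := h (s + a * (L + 1)) (by omega) (hT a (Finset.mem_insert_self a T))
      have h6 := ih fun i hi => hT i (Finset.mem_insert_of_mem hi)
      calc _ ≤ m + m * T.card := add_le_add h5 h6
        _ = m * (T.card + 1) := by ring
  refine (h4 _ fun i hi => (Finset.mem_filter.1 hi).2).trans ?_
  refine Nat.mul_le_mul_left m ((Finset.card_filter_le _ _).trans ?_)
  rw [Finset.card_range]

/-- Counting with an abstract threshold. -/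
theorem count_rate (ξ : ℝ) (hξ : ξ ≠ 0) (φ : ℕ → ℝ) : ∃ n₀ : ℕ, ∀ x m L s : ℕ, n₀ ≤ s → 1 ≤ m →
    1 ≤ L → (∀ n, s ≤ n → n ≤ x → 400 * (m : ℝ) * Real.log (L + 1) ≤ Real.log n) →
    (∀ n, s ≤ n → n ≤ x → ∀ k, n ≤ k → rate n m L ≤ φ k ∨ x < k) →
    ({k : ℕ | nint (ξ * Real.exp k) < Real.exp (-φ k)} ∩ Set.Iic x).ncard ≤
      s + m * (x / (L + 1) + 1) := by
  obtain ⟨n₀, h₀⟩ := window ξ hξ
  refine ⟨n₀, fun x m L s hs hm hL h1 h2 => ?_⟩
  have e : {k : ℕ | nint (ξ * Real.exp k) < Real.exp (-φ k)} ∩ Set.Iic x =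
      ({k : ℕ | nint (ξ * Real.exp k) < Real.exp (-φ k)} ∩ Set.Iic x) ∩ Set.Iic x := by
    rw [Set.inter_assoc, Set.inter_self]
  rw [e]
  refine count_windows _ x L m s fun n hn hnx => ?_
  refine (Set.ncard_le_ncard ?_ ?_).trans (h₀ n (hs.trans hn) m L hm hL (h1 n hn hnx))
  · rintro k ⟨⟨hk1, hk2⟩, hk3, hk4⟩
    refine ⟨hk3, hk4, lt_of_lt_of_le hk1 (Real.exp_le_exp.2 (neg_le_neg ?_))⟩
    rcases h2 n hn hnx k hk3 with h | h
    · exact h
    · exact absurd h (not_lt.2 hk2)
  · exact (Set.finite_Icc n (n + L)).subset fun k hk => ⟨hk.1, hk.2.1⟩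

end ExpFrac
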