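import Pool.Agent.ExpFrac.Core

/-!
The basic inequality in logarithmic form.
-/

set_option autoImplicit false

open Polynomial Finset
open scoped Nat

namespace ExpFrac

theorem log_fac_lower (N : ℕ) (hN : 1 ≤ N) :
    (N : ℝ) * Real.log N - 2 * N ≤ Real.log ((N - 1)! : ℝ) := by
  have hN' : (1 : ℝ) ≤ N := by exact_mod_cast hN
  have hN0 : (0 : ℝ) < N := by linarith
  have h1 := Real.pow_div_factorial_le_exp (N : ℝ) hN0.le N
  have hf : (0 : ℝ) < (N ! : ℝ) := by positivity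
  have hf1 : (0 : ℝ) < ((N - 1)! : ℝ) := by positivity
  have h2 : Real.log ((N : ℝ) ^ N / (N ! : ℝ)) ≤ N := by
    have h5 := Real.log_le_log (div_pos (pow_pos hN0 N) hf) h1
    rwa [Real.log_exp] at h5
  rw [Real.log_div (pow_pos hN0 N).ne' hf.ne', Real.log_pow] at h2
  have h3 : Real.log (N ! : ℝ) = Real.log ((N - 1)! : ℝ) + Real.log N := by
    rw [← Real.log_mul hf1.ne' hN0.ne']
    congr 1
    exact_mod_cast fac_succ hN
  have h4 : Real.log (N : ℝ) ≤ N - 1 := Real.log_le_sub_one_of_pos hN0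
  linarith

theorem log_fac_upper (n : ℕ) : Real.log (n ! : ℝ) ≤ n * Real.log n := by
  have h0 : (0 : ℝ) < (n ! : ℝ) := by positivity
  have h1 : (n ! : ℝ) ≤ (n : ℝ) ^ n := by exact_mod_cast Nat.factorial_le_pow n
  calc Real.log (n ! : ℝ) ≤ Real.log ((n : ℝ) ^ n) := Real.log_le_log h0 h1
    _ = n * Real.log n := Real.log_pow _ _

theorem half_le_log {L : ℕ} (hL : 1 ≤ L) : (1 / 2 : ℝ) ≤ Real.log (L + 1) := by
  have hL' : (1 : ℝ) ≤ L := by exact_mod_cast hL
  have h1 : Real.log 2 ≤ Real.log ((L : ℝ) + 1) := Real.log_le_log (by norm_num) (by linarith)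
  have := Real.log_two_gt_d9
  linarith

theorem log_rho_le (K N L : ℕ) (hL : 1 ≤ L) (hN : 1 ≤ N) :
    Real.log (rho K N L) ≤ Real.log (L + 1) + L + K * N * Real.log (L + 1) -
      Real.log ((N - 1)! : ℝ) := by
  have hL' : (1 : ℝ) ≤ L := by exact_mod_cast hL
  have hL0 : (0 : ℝ) < L := by linarith
  have hf1 : (0 : ℝ) < ((N - 1)! : ℝ) := by positivity
  have hle : Real.log (L : ℝ) ≤ Real.log (L + 1) := Real.log_le_log hL0 (by linarith)
  rw [rho, Real.log_div (by positivity) hf1.ne', Real.log_mul hL0.ne' (by positivity),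
    Real.log_mul (Real.exp_pos _).ne' (by positivity), Real.log_exp, Real.log_pow]
  have h1 : ((K * N : ℕ) : ℝ) * Real.log L ≤ K * N * Real.log (L + 1) := by
    push_cast
    exact mul_le_mul_of_nonneg_left hle (by positivity)
  linarith

theorem vee_le (K N L : ℕ) (hL : 1 ≤ L) :
    vee K N L ≤ (1 + L : ℝ) * (Real.exp L * (((K * N)! : ℝ) * (1 + L : ℝ) ^ (K * N))) /
      (N - 1)! := by
  have hL0 : (0 : ℝ) ≤ L := Nat.cast_nonneg _
  have hf1 : (0 : ℝ) < ((N - 1)! : ℝ) := by positivity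
  rw [vee, rho, ← add_div]
  refine div_le_div_of_nonneg_right ?_ hf1.le
  have h1 : (L : ℝ) ^ (K * N) ≤ (1 + L : ℝ) ^ (K * N) :=
    pow_le_pow_left₀ hL0 (by linarith) _
  have h2 : (1 : ℝ) ≤ ((K * N)! : ℝ) := by exact_mod_cast Nat.one_le_iff_ne_zero.2 (Nat.factorial_ne_zero _)
  have h3 : (L : ℝ) ^ (K * N) ≤ ((K * N)! : ℝ) * (1 + L : ℝ) ^ (K * N) := by
    have : (0 : ℝ) ≤ (1 + L : ℝ) ^ (K * N) := by positivity
    nlinarith
  have h4 : Real.exp L * (L : ℝ) ^ (K * N) ≤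
      Real.exp L * (((K * N)! : ℝ) * (1 + L : ℝ) ^ (K * N)) :=
    mul_le_mul_of_nonneg_left h3 (Real.exp_pos _).le
  nlinarith

theorem log_vee_le (K N L : ℕ) (hL : 1 ≤ L) (hN : 1 ≤ N) (hK : 1 ≤ K) (hKL : K ≤ L + 1) :
    Real.log (vee K N L) ≤ Real.log (L + 1) + L + K * N * Real.log (L + 1) +
      (K * N * Real.log (L + 1) + K * N * Real.log N) - Real.log ((N - 1)! : ℝ) := by
  have hL' : (1 : ℝ) ≤ L := by exact_mod_cast hL
  have hf1 : (0 : ℝ) < ((N - 1)! : ℝ) := by positivity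
  have hf2 : (0 : ℝ) < ((K * N)! : ℝ) := by positivity
  have hN0 : (0 : ℝ) < N := by exact_mod_cast hN
  have hK0 : (0 : ℝ) < K := by exact_mod_cast hK
  have hv : 0 < vee K N L := by
    have := rho_pos K N L hL
    rw [vee]
    positivity
  have h1 := Real.log_le_log hv (vee_le K N L hL)
  rw [Real.log_div (by positivity) hf1.ne', Real.log_mul (by positivity) (by positivity),
    Real.log_mul (Real.exp_pos _).ne' (by positivity), Real.log_mul hf2.ne' (by positivity),
    Real.log_exp, Real.log_pow] at h1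
  have h2 := log_fac_upper (K * N)
  have h3 : Real.log ((K * N : ℕ) : ℝ) = Real.log K + Real.log N := by
    push_cast
    exact Real.log_mul hK0.ne' hN0.ne'
  have h4 : Real.log (K : ℝ) ≤ Real.log (L + 1) := Real.log_le_log hK0 (by exact_mod_cast hKL)
  have h5 : ((K * N : ℕ) : ℝ) = (K : ℝ) * N := by push_cast; ring
  rw [h3, h5] at h2
  rw [h5] at h1
  have h6 : (K : ℝ) * N * (Real.log K + Real.log N) ≤
      K * N * Real.log (L + 1) + K * N * Real.log N := by
    have : (K : ℝ) * N * Real.log K ≤ K * N * Real.log (L + 1) :=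
      mul_le_mul_of_nonneg_left h4 (by positivity)
    linarith
  have h7 : Real.log (1 + (L : ℝ)) = Real.log (L + 1) := by rw [add_comm]
  rw [h7] at h1
  linarith

theorem log_one_add_exp_le (L : ℕ) : Real.log (1 + Real.exp L) ≤ L + 1 := by
  rw [← Real.log_exp ((L : ℝ) + 1)]
  refine Real.log_le_log (by positivity) ?_
  rw [Real.exp_add]
  have h1 : (1 : ℝ) ≤ Real.exp L := Real.one_le_exp (Nat.cast_nonneg _)
  have h2 : (2 : ℝ) ≤ Real.exp 1 := by linarith [Real.exp_one_gt_d9]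
  nlinarith

/-- The dichotomy. -/
theorem dich (m L N q : ℕ) (hm : 1 ≤ m) (hmL : m ≤ L) (hLN : L ≤ N) [hq : Fact q.Prime]
    (hqN : q ∣ N) (hqL : L < q) (k : Fin (m + 1) → ℕ) (hinj : Function.Injective k)
    (hk : ∀ j, k j ≤ L) (a : Fin (m + 1) → ℤ) (ha : ∃ i, a i ≠ 0) (y δ : ℝ) (hδ : 0 < δ)
    (hy : ∀ j, |(a j : ℝ) - y * Real.exp (k j)| ≤ δ) (T : ℝ) (hT0 : 0 < T)
    (hT : |(a 0 : ℝ)| ≤ T) :
    (m : ℝ) * (N * Real.log N) ≤ 16 * (m ^ 2 * N * Real.log (L + 1)) + Real.log T ∨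
      -Real.log δ ≤ N * Real.log N + 18 * (m ^ 2 * N * Real.log (L + 1)) := by
  have hL : 1 ≤ L := hm.trans hmL
  have hN : 1 ≤ N := hL.trans hLN
  have hm' : (1 : ℝ) ≤ m := by exact_mod_cast hm
  have hN' : (1 : ℝ) ≤ N := by exact_mod_cast hN
  have hLN' : (L : ℝ) ≤ N := by exact_mod_cast hLN
  have hL' : (1 : ℝ) ≤ L := by exact_mod_cast hL
  set B := Real.log ((L : ℝ) + 1) with hB
  have hB1 : (1 / 2 : ℝ) ≤ B := half_le_log hL
  have hcard : Fintype.card (Fin (m + 1)) = m + 1 := Fintype.card_fin _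
  have h0 := core N L q hN hL hqN hqL k hinj hk 0 a ha y δ T hδ hy hT
  rw [hcard, Nat.add_sub_cancel] at h0
  have hρ := rho_pos (m + 1) N L hL
  have hv : 0 < vee (m + 1) N L := by
    rw [vee]
    positivity
  have hlρ := log_rho_le (m + 1) N L hL hN
  have hlv := log_vee_le (m + 1) N L hL hN (by omega) (by omega)
  have hlf := log_fac_lower N hN
  have hle := log_one_add_exp_le L
  have hKf : Real.log (((m + 1)! : ℕ) : ℝ) ≤ (m + 1) * B := by
    have h1 := log_fac_upper (m + 1)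
    have h2 : Real.log ((m + 1 : ℕ) : ℝ) ≤ B := by
      refine Real.log_le_log (by positivity) ?_
      have : ((m + 1 : ℕ) : ℝ) ≤ ((L + 1 : ℕ) : ℝ) := by exact_mod_cast (by omega : m + 1 ≤ L + 1)
      push_cast at this ⊢
      exact this
    calc _ ≤ _ := h1
      _ ≤ ((m + 1 : ℕ) : ℝ) * B := mul_le_mul_of_nonneg_left h2 (by positivity)
      _ = _ := by push_cast; ring
  have hfac : (0 : ℝ) < (((m + 1)! : ℕ) : ℝ) := by positivity
  have hE : (0 : ℝ) < 1 + Real.exp L := by positivity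
  push_cast at hlρ hlv
  rw [← hB] at hlρ hlv
  -- auxiliary products
  have hB0 : (0 : ℝ) ≤ B := by linarith
  have hmN : (1 : ℝ) ≤ m * N := by
    have := mul_le_mul hm' hN' zero_le_one (by linarith)
    linarith
  have q1 : (m : ℝ) * N ≤ (m : ℝ) ^ 2 * N := by
    have : (m : ℝ) * N * 1 ≤ (m : ℝ) * N * m := mul_le_mul_of_nonneg_left hm' (by linarith)
    calc (m : ℝ) * N = (m : ℝ) * N * 1 := (mul_one _).symm
      _ ≤ _ := this
      _ = _ := by ring
  have q2 : (m : ℝ) ≤ m * N := by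
    have : (m : ℝ) * 1 ≤ (m : ℝ) * N := mul_le_mul_of_nonneg_left hN' (by linarith)
    linarith
  have q3 : (N : ℝ) ≤ m * N := by
    have : 1 * (N : ℝ) ≤ (m : ℝ) * N := mul_le_mul_of_nonneg_right hm' (by linarith)
    linarith
  have p6 : (m : ℝ) * N * B ≤ (m : ℝ) ^ 2 * N * B := mul_le_mul_of_nonneg_right q1 hB0
  have p1 : B ≤ (m : ℝ) ^ 2 * N * B := by
    have := mul_le_mul_of_nonneg_right hmN hB0
    linarith
  have p2 : (m : ℝ) * B ≤ (m : ℝ) ^ 2 * N * B := by
    have := mul_le_mul_of_nonneg_right q2 hB0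
    linarith
  have p3 : (m : ℝ) * N ≤ 2 * ((m : ℝ) ^ 2 * N * B) := by
    have h2 : (m : ℝ) * N * (1 / 2) ≤ (m : ℝ) * N * B :=
      mul_le_mul_of_nonneg_left hB1 (by linarith)
    linarith
  have p4 : (m : ℝ) * L ≤ 2 * ((m : ℝ) ^ 2 * N * B) := by
    have : (m : ℝ) * L ≤ m * N := mul_le_mul_of_nonneg_left hLN' (by linarith)
    linarith
  have p5 : (m : ℝ) ≤ 2 * ((m : ℝ) ^ 2 * N * B) := by linarith
  have p7 : (N : ℝ) * B ≤ (m : ℝ) ^ 2 * N * B := by
    have := mul_le_mul_of_nonneg_right q3 hB0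
    linarith
  rcases le_total (T / δ) (vee (m + 1) N L / rho (m + 1) N L) with h | h
  · right
    rw [max_eq_right h] at h0
    have h1 := Real.log_le_log one_pos h0
    rw [Real.log_one, Real.log_mul hfac.ne' (by positivity), Real.log_mul (by positivity)
      (by positivity), Real.log_mul hδ.ne' (by positivity), Real.log_mul (by positivity)
      (by positivity), Real.log_div hv.ne' hρ.ne', Real.log_pow, Real.log_pow] at h1
    have h2 : ((m : ℝ) - 1) * Real.log (rho (m + 1) N L) ≤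
        ((m : ℝ) - 1) * (B + L + (m + 1) * N * B - Real.log ((N - 1)! : ℝ)) :=
      mul_le_mul_of_nonneg_left hlρ (by linarith)
    have h3 : (m : ℝ) * Real.log (1 + Real.exp L) ≤ m * (L + 1) :=
      mul_le_mul_of_nonneg_left hle (by linarith)
    have h4 : (m : ℝ) * (N * Real.log N - 2 * N) ≤ m * Real.log ((N - 1)! : ℝ) :=
      mul_le_mul_of_nonneg_left hlf (by linarith)
    linarith
  · left
    rw [max_eq_left h] at h0
    have e : (((m + 1)! : ℕ) : ℝ) * ((δ * rho (m + 1) N L ^ m) * ((T / δ) *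
        (1 + Real.exp L) ^ m)) = (((m + 1)! : ℕ) : ℝ) * (rho (m + 1) N L ^ m * (T *
        (1 + Real.exp L) ^ m)) := by
      field_simp
    rw [e] at h0
    have h1 := Real.log_le_log one_pos h0
    rw [Real.log_one, Real.log_mul hfac.ne' (by positivity), Real.log_mul (by positivity)
      (by positivity), Real.log_mul hT0.ne' (by positivity), Real.log_pow, Real.log_pow] at h1
    have h2 : (m : ℝ) * Real.log (rho (m + 1) N L) ≤
        (m : ℝ) * (B + L + (m + 1) * N * B - Real.log ((N - 1)! : ℝ)) :=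
      mul_le_mul_of_nonneg_left hlρ (by linarith)
    have h3 : (m : ℝ) * Real.log (1 + Real.exp L) ≤ m * (L + 1) :=
      mul_le_mul_of_nonneg_left hle (by linarith)
    have h4 : (m : ℝ) * (N * Real.log N - 2 * N) ≤ m * Real.log ((N - 1)! : ℝ) :=
      mul_le_mul_of_nonneg_left hlf (by linarith)
    linarith

end ExpFrac
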