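import Pool.Agent.ExpFrac.Comp

/-!
Factorization of an integer matrix through its rank and nonzero minors.
-/

set_option autoImplicit false

open Polynomial Finset
open scoped Nat

namespace ExpFrac

theorem exists_minor {κ Y : Type} [Fintype κ] [DecidableEq κ] [Fintype Y]
    (C : Matrix κ Y ℚ) (hC : LinearIndependent ℚ C.row) :
    ∃ J : κ → Y, (C.submatrix id J).det ≠ 0 := by
  classical
  obtain ⟨κ', a, ha, hspan, hli⟩ := exists_linearIndependent' ℚ C.col
  have : Finite κ' := Finite.of_injective a ha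
  have := Fintype.ofFinite κ'
  have h1 : C.rank = Fintype.card κ := hC.rank_matrix
  have h2 : Module.finrank ℚ (Submodule.span ℚ (Set.range (C.col ∘ a))) = Fintype.card κ' :=
    finrank_span_eq_card hli
  rw [hspan, ← Matrix.rank_eq_finrank_span_cols, h1] at h2
  obtain ⟨e⟩ := Fintype.card_eq.1 h2
  refine ⟨a ∘ e, ?_⟩
  have h3 : LinearIndependent ℚ (C.submatrix id (a ∘ e)).col := by
    have h4 := hli.comp e e.injective
    exact h4
  rw [Matrix.linearIndependent_cols_iff_isUnit] at h3
  exact ((Matrix.isUnit_iff_isUnit_det _).1 h3).ne_zero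

theorem exists_minor_int {κ Y : Type} [Fintype κ] [DecidableEq κ] [Fintype Y]
    (C : Matrix κ Y ℤ) (hC : LinearIndependent ℤ C.row) :
    ∃ J : κ → Y, (C.submatrix id J).det ≠ 0 := by
  have h1 : LinearIndependent ℤ (C.map (Int.castRingHom ℚ)).row := by
    have h2 := hC.map' (LinearMap.compLeft ((Int.castAddHom ℚ).toIntLinearMap) Y) (by
      rw [LinearMap.ker_eq_bot]
      intro u v huv
      ext y
      have := congrFun huv y
      simpa using this)
    exact h2
  have h3 : LinearIndependent ℚ (C.map (Int.castRingHom ℚ)).row :=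
    (LinearIndependent.iff_fractionRing ℤ ℚ).1 h1
  obtain ⟨J, hJ⟩ := exists_minor _ h3
  refine ⟨J, fun h0 => hJ ?_⟩
  have e : (C.map (Int.castRingHom ℚ)).submatrix id J =
      (C.submatrix id J).map (Int.castRingHom ℚ) := rfl
  rw [e, ← RingHom.mapMatrix_apply, ← RingHom.map_det, h0, map_zero]

/-- Factorization through the rank. -/
theorem exists_factor {X Y : Type} [Fintype X] [Fintype Y] (M : Matrix X Y ℤ) (hM : M ≠ 0) :
    ∃ (j : ℕ) (A : Matrix X (Fin j) ℤ) (B : Matrix (Fin j) Y ℤ), 1 ≤ j ∧ M = A * B ∧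
      (∃ I, (A.submatrix I id).det ≠ 0) ∧ (∃ J, (B.submatrix id J).det ≠ 0) := by
  classical
  set N : Submodule ℤ (Y → ℤ) := Submodule.span ℤ (Set.range fun x => M x) with hN
  set b := Module.finBasis ℤ N with hb
  set j := Module.finrank ℤ N with hj
  have hmem : ∀ x, M x ∈ N := fun x => Submodule.subset_span ⟨x, rfl⟩
  set A : Matrix X (Fin j) ℤ := fun x i => b.repr ⟨M x, hmem x⟩ i with hA
  set B : Matrix (Fin j) Y ℤ := fun i y => (b i : Y → ℤ) y with hB
  have hfac : M = A * B := by
    ext x y
    have h1 := b.sum_repr ⟨M x, hmem x⟩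
    have h2 := congrArg (fun u : N => (u : Y → ℤ) y) h1
    simp only [Submodule.coe_sum, Submodule.coe_smul, Finset.sum_apply, Pi.smul_apply,
      smul_eq_mul] at h2
    rw [Matrix.mul_apply]
    exact h2.symm
  refine ⟨j, A, B, ?_, hfac, ?_, ?_⟩
  · by_contra hcon
    have h0 : j = 0 := by omega
    apply hM
    rw [hfac]
    ext x y
    rw [Matrix.mul_apply]
    refine Finset.sum_eq_zero fun i _ => ?_
    exact absurd i.2 (by omega)
  · have h1 : LinearIndependent ℤ A.transpose.row := by
      rw [Fintype.linearIndependent_iff]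
      intro g hg i
      set ph : N →ₗ[ℤ] ℤ := ∑ i, g i • b.coord i with hph
      have hph0 : ∀ (y : Y → ℤ) (hy : y ∈ N), ph ⟨y, hy⟩ = 0 := by
        intro y hy
        refine Submodule.span_induction (p := fun y hy => ph ⟨y, hy⟩ = 0) ?_ ?_ ?_ ?_ hy
        · rintro _ ⟨x, rfl⟩
          have h2 := congrFun hg x
          simp only [Finset.sum_apply, Pi.smul_apply, Matrix.row_apply, Matrix.transpose_apply,
            smul_eq_mul, Pi.zero_apply] at h2
          simp only [hph, LinearMap.sum_apply, LinearMap.smul_apply, Module.Basis.coord_apply,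
            smul_eq_mul]
          exact h2
        · exact map_zero ph
        · intro u v hu hv h3 h4
          have : (⟨u + v, N.add_mem hu hv⟩ : N) = ⟨u, hu⟩ + ⟨v, hv⟩ := rfl
          show ph ⟨u + v, _⟩ = 0
          rw [this, map_add, h3, h4, add_zero]
        · intro a u hu h3
          have : (⟨a • u, N.smul_mem a hu⟩ : N) = a • ⟨u, hu⟩ := rfl
          show ph ⟨a • u, _⟩ = 0
          rw [this, map_smul, h3, smul_zero]
      have h5 := hph0 (b i) (b i).2
      simp only [hph, LinearMap.sum_apply, LinearMap.smul_apply, Module.Basis.coord_apply,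
        smul_eq_mul, Subtype.coe_eta, Module.Basis.repr_self, Finsupp.single_apply, mul_ite,
        mul_one, mul_zero] at h5
      simpa using h5
    obtain ⟨I, hI⟩ := exists_minor_int _ h1
    refine ⟨I, ?_⟩
    rw [← Matrix.det_transpose] at hI
    exact hI
  · have h1 : LinearIndependent ℤ B.row := by
      have h2 := b.linearIndependent.map' N.subtype (Submodule.ker_subtype N)
      exact h2
    exact exists_minor_int _ h1

theorem exists_max_minor {κ Y : Type} [Fintype κ] [DecidableEq κ] [Fintype Y]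
    (C : Matrix κ Y ℤ) (h : ∃ J : κ → Y, (C.submatrix id J).det ≠ 0) :
    ∃ J : κ → Y, (C.submatrix id J).det ≠ 0 ∧
      ∀ J' : κ → Y, |(C.submatrix id J').det| ≤ |(C.submatrix id J).det| := by
  classical
  obtain ⟨J₀, h₀⟩ := h
  have : Nonempty (κ → Y) := ⟨J₀⟩
  obtain ⟨J, hJ⟩ := Finite.exists_max (fun J : κ → Y => |(C.submatrix id J).det|)
  refine ⟨J, fun h1 => ?_, hJ⟩
  have h2 := hJ J₀
  rw [h1, abs_zero] at h2
  exact h₀ (abs_nonpos_iff.1 h2)

end ExpFrac
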