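import Pool.Agent.ExpFrac.MainB

/-!
The uniform counting theorem.
-/

set_option autoImplicit false

open Finset Filter

namespace ExpFrac

/-- Counting with an abstract threshold. -/
theorem count_rateB (ξ : ℝ) (hξ : ξ ≠ 0) : ∃ n₀ : ℕ, ∀ φ : ℕ → ℝ, ∀ x m L s : ℕ, n₀ ≤ s →
    1 ≤ m → 1 ≤ L → (∀ n, s ≤ n → n ≤ x → 400 * (m : ℝ) * Real.log (L + 1) ≤ Real.log n) →
    (∀ n, s ≤ n → n ≤ x → ∀ k, n ≤ k → 2 * rate n m L ≤ φ k ∨ x < k) → ∀ β : ℝ,
    {k : ℕ | k ≤ x ∧ nint (ξ * Real.exp k - β) < Real.exp (-φ k)}.ncard ≤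
      s + (m + 1) * (x / (L + 1) + 1) := by
  obtain ⟨n₀, h₀⟩ := windowB ξ hξ
  refine ⟨n₀, fun φ x m L s hs hm hL h1 h2 β => ?_⟩
  have e : {k : ℕ | k ≤ x ∧ nint (ξ * Real.exp k - β) < Real.exp (-φ k)} =
      {k : ℕ | k ≤ x ∧ nint (ξ * Real.exp k - β) < Real.exp (-φ k)} ∩ Set.Iic x := by
    ext k
    simp only [Set.mem_ofPred_eq, Set.mem_inter_iff, Set.mem_Iic]
    tauto
  rw [e]
  refine count_windows _ x L (m + 1) s fun n hn hnx => ?_
  refine (Set.ncard_le_ncard ?_ ?_).trans (h₀ n (hs.trans hn) m L hm hL (h1 n hn hnx) β)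
  · rintro k ⟨⟨hk2, hk1⟩, hk3, hk4⟩
    refine ⟨hk3, hk4, lt_of_lt_of_le hk1 (Real.exp_le_exp.2 (neg_le_neg ?_))⟩
    rcases h2 n hn hnx k hk3 with h | h
    · exact h
    · exact absurd h (not_lt.2 hk2)
  · exact (Set.finite_Icc n (n + L)).subset fun k hk => ⟨hk.1, hk.2.1⟩

theorem half_log_le {x n : ℕ} (hx : 1 ≤ x) (hn : Nat.ceil (Real.sqrt x) ≤ n) :
    Real.log x / 2 ≤ Real.log n := by
  have h1 : Real.sqrt x ≤ n := (Nat.le_ceil _).trans (by exact_mod_cast hn)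
  have h0 : (0 : ℝ) < x := by exact_mod_cast hx
  have h2 := Real.log_le_log (Real.sqrt_pos.2 h0) h1
  rwa [Real.log_sqrt h0.le] at h2

set_option maxHeartbeats 1000000 in
/-- The exceptional set for `exp (-(ε k))` has at most `x ^ (1 - ε ^ 2 / 32000)` elements up
to `x`, uniformly for `200 √(log log x / log x) ≤ ε ≤ 1` and uniformly in the shift `β`. -/
theorem sparse_unif (ξ : ℝ) (hξ : ξ ≠ 0) : ∃ x₀ : ℕ, ∀ x ≥ x₀, ∀ ε : ℝ,
    200 * Real.sqrt (Real.log (Real.log x) / Real.log x) ≤ ε → ε ≤ 1 → ∀ β : ℝ,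
    (({k : ℕ | k ≤ x ∧ nint (ξ * Real.exp k - β) < Real.exp (-(ε * k))}.ncard : ℕ) : ℝ) ≤
      (x : ℝ) ^ (1 - ε ^ 2 / 32000) := by
  obtain ⟨n₀, h₀⟩ := count_rateB ξ hξ
  have tl : Tendsto (fun x : ℕ => Real.log x) atTop atTop :=
    Real.tendsto_log_atTop.comp tendsto_natCast_atTop_atTop
  have tll : Tendsto (fun x : ℕ => Real.log (Real.log x)) atTop atTop :=
    Real.tendsto_log_atTop.comp tl
  have t3 : Tendsto (fun x : ℕ => (x : ℝ) ^ (1 / 4 : ℝ)) atTop atTop :=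
    (tendsto_rpow_atTop (by norm_num)).comp tendsto_natCast_atTop_atTop
  obtain ⟨x₀, hx₀⟩ := eventually_atTop.1 ((((tl.eventually_ge_atTop (10000 : ℝ)).and
    (tll.eventually_ge_atTop (1 : ℝ))).and ((t3.eventually_ge_atTop (16 : ℝ)))).and
    (eventually_ge_atTop ((n₀ + 1) ^ 2)))
  refine ⟨x₀, fun x hx ε hε1 hε2 β => ?_⟩
  obtain ⟨⟨⟨h1, h2⟩, h3⟩, h5⟩ := hx₀ x hx
  have hx1 : 1 ≤ x := le_trans (Nat.one_le_pow _ _ (by omega)) h5
  have hx1' : (1 : ℝ) ≤ x := by exact_mod_cast hx1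
  have hx0 : (0 : ℝ) < x := by linarith
  set l := Real.log (x : ℝ) with hl
  have hl0 : 0 < l := by linarith
  have hε0 : 0 < ε := by
    refine lt_of_lt_of_le ?_ hε1
    have : 0 < Real.sqrt (Real.log l / l) := Real.sqrt_pos.2 (by positivity)
    positivity
  -- `ε ^ 2 * l` is large
  have hε3 : 40000 * Real.log l ≤ ε ^ 2 * l := by
    have e1 : (200 * Real.sqrt (Real.log l / l)) ^ 2 ≤ ε ^ 2 :=
      pow_le_pow_left₀ (by positivity) hε1 2
    have e2 : (200 * Real.sqrt (Real.log l / l)) ^ 2 = 40000 * (Real.log l / l) := by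
      rw [mul_pow, Real.sq_sqrt (by positivity)]; norm_num
    rw [e2] at e1
    have e3 := mul_le_mul_of_nonneg_right e1 hl0.le
    have e4 : 40000 * (Real.log l / l) * l = 40000 * Real.log l := by field_simp
    linarith
  set m := Nat.ceil (4 / ε) with hm
  have hm1 : 1 ≤ m := Nat.one_le_iff_ne_zero.2 (Nat.ceil_pos.2 (by positivity)).ne'
  have hm1' : (1 : ℝ) ≤ m := by exact_mod_cast hm1
  have hmε : 4 / ε ≤ m := Nat.le_ceil _
  have hm5 : (m : ℝ) * ε ≤ 5 := by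
    have e1 : (m : ℝ) ≤ 4 / ε + 1 := (Nat.ceil_lt_add_one (by positivity)).le
    have e2 := mul_le_mul_of_nonneg_right e1 hε0.le
    have e3 : (4 / ε + 1) * ε = 4 + ε := by field_simp
    linarith
  set η := ε ^ 2 / 16000 with hη
  have hη0 : 0 < η := by positivity
  have hη1 : η ≤ 1 / 16000 := by
    rw [hη]
    have : ε ^ 2 ≤ 1 := pow_le_one₀ hε0.le hε2
    linarith
  have hηl : 5 / 2 * Real.log l ≤ η * l := by
    rw [hη]; linarith
  -- `x ^ η ≥ l ^ 2`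
  have hxη2 : l ≤ (x : ℝ) ^ (η / 2) := by
    rw [Real.rpow_def_of_pos hx0, ← hl]
    have e1 : Real.log l ≤ l * (η / 2) := by
      have : 0 ≤ Real.log l := by linarith
      linarith
    calc l = Real.exp (Real.log l) := (Real.exp_log hl0).symm
      _ ≤ _ := Real.exp_le_exp.2 e1
  have hxηη : (x : ℝ) ^ η = (x : ℝ) ^ (η / 2) * (x : ℝ) ^ (η / 2) := by
    rw [← Real.rpow_add hx0]; congr 1; ring
  have hxη : l ≤ (x : ℝ) ^ η := by
    rw [hxηη]
    nlinarith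
  -- `8 m ≤ x ^ (η / 2)`
  have hml : 8 * (m : ℝ) ≤ l := by
    have e1 : 40000 ≤ ε ^ 2 * l := by linarith
    have e2 : (m : ℝ) ^ 2 * (ε ^ 2) ≤ 25 := by
      have := pow_le_pow_left₀ (by positivity) hm5 2
      rw [mul_pow] at this
      linarith
    have e3 : (m : ℝ) ^ 2 * 40000 ≤ 25 * l := by
      have e4 := mul_le_mul_of_nonneg_left e1 (sq_nonneg (m : ℝ))
      have e5 := mul_le_mul_of_nonneg_right e2 hl0.le
      linarith
    have e6 : (8 * (m : ℝ)) ^ 2 ≤ l ^ 2 := by nlinarith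
    exact le_of_sq_le_sq e6 hl0.le
  have hm8 : 8 * (m : ℝ) ≤ (x : ℝ) ^ (η / 2) := hml.trans hxη2
  set L := Nat.floor ((x : ℝ) ^ η) - 1 with hL
  have hfl : 3 ≤ Nat.floor ((x : ℝ) ^ η) := Nat.le_floor (by
    have : (3 : ℝ) ≤ (x : ℝ) ^ η := by linarith
    exact_mod_cast this)
  have hL1 : L + 1 = Nat.floor ((x : ℝ) ^ η) := by omega
  have hLr : ((L : ℝ) + 1) ≤ (x : ℝ) ^ η := by
    have : ((L + 1 : ℕ) : ℝ) ≤ (x : ℝ) ^ η := by rw [hL1]; exact Nat.floor_le (by positivity)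
    exact_mod_cast this
  have hLr2 : (x : ℝ) ^ η / 2 ≤ (L : ℝ) + 1 := by
    have h6 : (x : ℝ) ^ η < ((L + 1 : ℕ) : ℝ) + 1 := by rw [hL1]; exact Nat.lt_floor_add_one _
    push_cast at h6
    linarith
  have hB : Real.log (L + 1) ≤ η * l := by
    rw [hl, ← Real.log_rpow hx0]
    exact Real.log_le_log (by positivity) hLr
  have hB0 : (0 : ℝ) < Real.log (L + 1) := by
    have := half_le_log (L := L) (by omega)
    linarith
  set s := Nat.ceil (Real.sqrt x) with hs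
  have hns : n₀ ≤ s := by
    have h6 : ((n₀ + 1 : ℕ) : ℝ) ≤ Real.sqrt x := by
      refine Real.le_sqrt_of_sq_le ?_
      exact_mod_cast h5
    have h7 : ((n₀ + 1 : ℕ) : ℝ) ≤ (s : ℝ) := h6.trans (Nat.le_ceil _)
    have h8 : n₀ + 1 ≤ s := by exact_mod_cast h7
    omega
  have hkey : ∀ n, s ≤ n → 400 * (m : ℝ) * Real.log (L + 1) ≤ ε / 4 * Real.log n := by
    intro n hn
    have h6 := half_log_le hx1 hn
    calc 400 * (m : ℝ) * Real.log (L + 1) ≤ 400 * (m : ℝ) * (η * l) :=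
          mul_le_mul_of_nonneg_left hB (by positivity)
      _ = (m * ε) * (ε * l / 40) := by rw [hη]; ring
      _ ≤ 5 * (ε * l / 40) := mul_le_mul_of_nonneg_right hm5 (by positivity)
      _ = ε / 4 * (l / 2) := by ring
      _ ≤ ε / 4 * Real.log n := mul_le_mul_of_nonneg_left h6 (by positivity)
  have hlogn : ∀ n, s ≤ n → 0 < Real.log n := by
    intro n hn
    have h6 := half_log_le hx1 hn
    rw [← hl] at h6
    linarith
  have hcount := h₀ (fun k => ε * k) x m L s hns hm1 (by omega) (fun n hn _ => by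
      have h6 := hkey n hn
      have h7 := hlogn n hn
      have h8 : ε / 4 * Real.log n ≤ 1 * Real.log n := mul_le_mul_of_nonneg_right (by linarith) h7.le
      linarith) (fun n hn _ k hk => by
      left
      have h6 := hkey n hn
      have h7 := hlogn n hn
      have hn0 : (0 : ℝ) ≤ n := Nat.cast_nonneg _
      have hkn : (n : ℝ) ≤ k := by exact_mod_cast hk
      show 2 * (n / m + 400 * m * n * Real.log (L + 1) / Real.log n) ≤ ε * k
      have h8 : (n : ℝ) / m ≤ ε / 4 * n := by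
        rw [div_le_iff₀ (by linarith)]
        have : 1 ≤ ε / 4 * m := by
          rw [div_le_iff₀ hε0] at hmε
          linarith
        have := mul_le_mul_of_nonneg_left this hn0
        linarith
      have h9 : 400 * m * n * Real.log (L + 1) / Real.log n ≤ ε / 4 * n := by
        rw [div_le_iff₀ h7]
        have h10 : n * (400 * (m : ℝ) * Real.log (L + 1)) ≤ n * (ε / 4 * Real.log n) :=
          mul_le_mul_of_nonneg_left h6 hn0
        linarith
      have h12 : ε * n ≤ ε * k := mul_le_mul_of_nonneg_left hkn hε0.le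
      linarith) β
  have hcount' : (({k : ℕ | k ≤ x ∧ nint (ξ * Real.exp k - β) <
      Real.exp (-(ε * k))}.ncard : ℕ) : ℝ) ≤ ((s + (m + 1) * (x / (L + 1) + 1) : ℕ) : ℝ) := by
    exact_mod_cast hcount
  refine hcount'.trans ?_
  have e0 : 1 - ε ^ 2 / 32000 = 1 - η / 2 := by rw [hη]; ring
  rw [e0]
  push_cast
  have e1 : (s : ℝ) ≤ Real.sqrt x + 1 := (Nat.ceil_lt_add_one (Real.sqrt_nonneg _)).le
  have e2 : ((x / (L + 1) : ℕ) : ℝ) ≤ x / (L + 1) := by
    have := Nat.cast_div_le (α := ℝ) (m := x) (n := L + 1)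
    push_cast at this
    exact this
  have e3 : (x : ℝ) / (L + 1) ≤ 2 * (x : ℝ) ^ (1 - η) := by
    rw [div_le_iff₀ (by positivity)]
    have h6 : (x : ℝ) ^ (1 - η) * (x : ℝ) ^ η = x := by
      rw [← Real.rpow_add hx0]; simp
    have h7 : 0 < (x : ℝ) ^ (1 - η) := Real.rpow_pos_of_pos hx0 _
    have h8 := mul_le_mul_of_nonneg_left hLr2 h7.le
    linarith
  have e4 : (x : ℝ) ^ (1 - η) * (8 * m) ≤ (x : ℝ) ^ (1 - η / 2) := by
    have h6 : (x : ℝ) ^ (1 - η) * (x : ℝ) ^ (η / 2) = (x : ℝ) ^ (1 - η / 2) := by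
      rw [← Real.rpow_add hx0]; congr 1; ring
    rw [← h6]
    exact mul_le_mul_of_nonneg_left hm8 (Real.rpow_nonneg hx0.le _)
  have e50 : (16 : ℝ) ≤ (x : ℝ) ^ (1 / 2 - η / 2) := by
    refine h3.trans (Real.rpow_le_rpow_of_exponent_le hx1' (by linarith))
  have e5 : Real.sqrt x * 16 ≤ (x : ℝ) ^ (1 - η / 2) := by
    have h6 : Real.sqrt x * (x : ℝ) ^ (1 / 2 - η / 2) = (x : ℝ) ^ (1 - η / 2) := by
      rw [Real.sqrt_eq_rpow, ← Real.rpow_add hx0]; congr 1; ring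
    rw [← h6]
    exact mul_le_mul_of_nonneg_left e50 (Real.sqrt_nonneg _)
  have e7 : (m : ℝ) ≤ Real.sqrt x := by
    have h6 : (m : ℝ) ≤ (x : ℝ) ^ (η / 2) := by linarith
    rw [Real.sqrt_eq_rpow]
    exact h6.trans (Real.rpow_le_rpow_of_exponent_le hx1' (by linarith))
  have e6 : ((m : ℝ) + 1) * ((x / (L + 1) : ℕ) : ℝ) ≤ (2 * m) * (2 * (x : ℝ) ^ (1 - η)) :=
    mul_le_mul (by linarith) (e2.trans e3) (by positivity) (by positivity)
  linarith

end ExpFrac
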