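import Pool.Agent.ExpFrac.Pig
import Pool.Agent.ExpFrac.Unif

/-!
The counting theorem with exponent `3 / 2`.
-/

set_option autoImplicit false

open Finset Filter

namespace ExpFrac

theorem window2 (ξ : ℝ) (hξ : ξ ≠ 0) : ∃ n₀ : ℕ, ∀ n ≥ n₀, ∀ K K' L b : ℕ, 32 ≤ K → 1 ≤ K' →
    K' ≤ K → 1 ≤ L → b = K' * (L + 1) ^ (K + 2) →
    800 * (K' : ℝ) * K * Real.log (L + 1) ≤ Real.log n → ∀ β : ℝ,
    ({k : ℕ | nint (ξ * Real.exp k - β) < Real.exp (-gap n K K' L)} ∩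
      Set.Icc n (n + (b * (L + 1) - 1))).ncard ≤ (K + 1) * b := by
  obtain ⟨n₀, h₀⟩ := grid ξ hξ
  refine ⟨n₀, fun n hn K K' L b hK hK' hKK hL hb h β => ?_⟩
  refine pigeon _ n K K' L b hK' hb fun y x hyinj hyL hy0 hxinj hxL => ?_
  have hKL : K ≤ L := by
    have h3 := Fintype.card_le_of_injective (fun j => (⟨y j, Nat.lt_succ_of_le (hyL j)⟩ : Fin (L + 1)))
      (fun i j hij => hyinj (by simpa using hij))
    simpa using h3
  have hK32 : (32 : ℝ) ≤ K := by exact_mod_cast hK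
  have hK1' : (1 : ℝ) ≤ K' := by exact_mod_cast hK'
  have hB : (0 : ℝ) < Real.log (L + 1) := by
    have := half_le_log hL
    linarith
  have hb1 : 1 ≤ b := by
    rw [hb]
    exact Nat.mul_pos hK' (Nat.pow_pos (Nat.succ_pos L))
  have hbL : 2 ≤ b * (L + 1) := by
    calc 2 = 1 * 2 := rfl
      _ ≤ b * (L + 1) := Nat.mul_le_mul hb1 (by omega)
  have h1 : 400 * (K : ℝ) * Real.log (L + 1) ≤ Real.log n := by
    have : 1 * (400 * (K : ℝ) * Real.log (L + 1)) ≤ K' * (400 * (K : ℝ) * Real.log (L + 1)) :=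
      mul_le_mul_of_nonneg_right hK1' (by positivity)
    have h2 : (0 : ℝ) ≤ K' * (400 * (K : ℝ) * Real.log (L + 1)) := by positivity
    linarith
  have h2 : 400 * (K' : ℝ) * Real.log ((b * (L + 1) - 1 : ℕ) + 1) ≤ Real.log n := by
    have e1 : (((b * (L + 1) - 1 : ℕ) : ℝ) + 1) = K' * (L + 1) ^ (K + 3) := by
      have : ((b * (L + 1) - 1 : ℕ) : ℝ) + 1 = ((b * (L + 1) - 1 + 1 : ℕ) : ℝ) := by push_cast; ring
      rw [this, Nat.sub_add_cancel (by omega), hb]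
      push_cast
      ring
    rw [e1, Real.log_mul (by linarith) (by positivity), Real.log_pow]
    have e2 : Real.log (K' : ℝ) ≤ Real.log (L + 1) := by
      refine Real.log_le_log (by linarith) ?_
      have : (K' : ℝ) ≤ L := by exact_mod_cast hKK.trans hKL
      linarith
    have e3 : Real.log (K' : ℝ) + ((K + 3 : ℕ) : ℝ) * Real.log (L + 1) ≤
        2 * K * Real.log (L + 1) := by
      push_cast
      have : (4 : ℝ) * Real.log (L + 1) ≤ K * Real.log (L + 1) :=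
        mul_le_mul_of_nonneg_right (by linarith) hB.le
      linarith
    have e4 := mul_le_mul_of_nonneg_left e3 (by positivity : (0 : ℝ) ≤ 400 * K')
    linarith
  obtain ⟨i, j, hij⟩ := h₀ n hn K K' L (b * (L + 1) - 1) hK hK' hKK (by omega) h1 h2 β y hyinj
    hyL hy0 x hxinj hxL
  exact ⟨i, j, not_lt.2 hij⟩

set_option maxHeartbeats 2000000 in
/-- The exceptional set for `exp (-(ε k))` has at most `x ^ (1 - ε ^ (3/2) / 2000000)` elements
up to `x`, uniformly for `3000000 log log x / log x ≤ ε ^ (3/2)`, `ε ≤ 1`, and uniformly in the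
shift `β`. -/
theorem sparse2 (ξ : ℝ) (hξ : ξ ≠ 0) : ∃ x₀ : ℕ, ∀ x ≥ x₀, ∀ ε : ℝ, 0 < ε → ε ≤ 1 →
    3000000 * Real.log (Real.log x) / Real.log x ≤ ε ^ (3 / 2 : ℝ) → ∀ β : ℝ,
    (({k : ℕ | k ≤ x ∧ nint (ξ * Real.exp k - β) < Real.exp (-(ε * k))}.ncard : ℕ) : ℝ) ≤
      (x : ℝ) ^ (1 - ε ^ (3 / 2 : ℝ) / 2000000) := by
  obtain ⟨n₀, h₀⟩ := window2 ξ hξ
  have tl : Tendsto (fun x : ℕ => Real.log x) atTop atTop :=
    Real.tendsto_log_atTop.comp tendsto_natCast_atTop_atTop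
  have tll : Tendsto (fun x : ℕ => Real.log (Real.log x)) atTop atTop :=
    Real.tendsto_log_atTop.comp tl
  have t3 : Tendsto (fun x : ℕ => (x : ℝ) ^ (1 / 4 : ℝ)) atTop atTop :=
    (tendsto_rpow_atTop (by norm_num)).comp tendsto_natCast_atTop_atTop
  have t4 : ∀ᶠ x : ℕ in atTop, Real.log x ≤ (x : ℝ) ^ (1 / 4 : ℝ) := by
    have h := (isLittleO_log_rpow_atTop (r := 1 / 4) (by norm_num)).bound (c := 1) one_pos
    filter_upwards [tendsto_natCast_atTop_atTop.eventually h, eventually_ge_atTop 1] with x hx hx1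
    have hx1' : (1 : ℝ) ≤ x := by exact_mod_cast hx1
    rw [Real.norm_eq_abs, abs_of_nonneg (Real.log_nonneg hx1'), Real.norm_eq_abs,
      abs_of_nonneg (Real.rpow_nonneg (by linarith) _), one_mul] at hx
    exact hx
  obtain ⟨x₀, hx₀⟩ := eventually_atTop.1 (((((tl.eventually_ge_atTop (10000 : ℝ)).and
    (tll.eventually_ge_atTop (1 : ℝ))).and ((t3.eventually_ge_atTop (16 : ℝ)))).and
    (eventually_ge_atTop ((n₀ + 1) ^ 2))).and t4)
  refine ⟨x₀, fun x hx ε hε0 hε2 hε1 β => ?_⟩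
  obtain ⟨⟨⟨⟨h1, h2⟩, h3⟩, h5⟩, h44⟩ := hx₀ x hx
  have hx1 : 1 ≤ x := le_trans (Nat.one_le_pow _ _ (by omega)) h5
  have hx1' : (1 : ℝ) ≤ x := by exact_mod_cast hx1
  have hx0 : (0 : ℝ) < x := by linarith
  set l := Real.log (x : ℝ) with hl
  have hl0 : 0 < l := by linarith
  -- the square root
  set s := Real.sqrt ε with hs
  have hs0 : 0 < s := Real.sqrt_pos.2 hε0
  have hs2 : s ^ 2 = ε := Real.sq_sqrt hε0.le
  have hs1 : s ≤ 1 := by
    rw [hs]; exact Real.sqrt_le_one.2 hε2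
  have hs3 : ε ^ (3 / 2 : ℝ) = s ^ 3 := by
    rw [hs, Real.sqrt_eq_rpow, ← Real.rpow_natCast, ← Real.rpow_mul hε0.le]
    norm_num
  rw [hs3] at hε1 ⊢
  have hs3l : 3000000 * Real.log l ≤ s ^ 3 * l := by
    rwa [div_le_iff₀ hl0] at hε1
  have hs3l' : 3000000 ≤ s ^ 3 * l := by linarith
  have hs3pos : 0 < s ^ 3 := by positivity
  have hs31 : s ^ 3 ≤ 1 := pow_le_one₀ hs0.le hs1
  have hs32 : s ^ 3 ≤ s ^ 2 := pow_le_pow_of_le_one hs0.le hs1 (by norm_num)
  have hs21 : s ^ 2 ≤ s := by nlinarith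
  -- `K`
  set K := Nat.ceil (80 / s ^ 2) with hK
  have hKlo : 80 / s ^ 2 ≤ K := Nat.le_ceil _
  have hKup : (K : ℝ) * s ^ 2 ≤ 81 := by
    have e1 : (K : ℝ) ≤ 80 / s ^ 2 + 1 := (Nat.ceil_lt_add_one (by positivity)).le
    have e2 := mul_le_mul_of_nonneg_right e1 (by positivity : 0 ≤ s ^ 2)
    have e3 : (80 / s ^ 2 + 1) * s ^ 2 = 80 + s ^ 2 := by field_simp
    linarith
  have hKlo2 : 80 ≤ (K : ℝ) * s ^ 2 := by
    rwa [div_le_iff₀ (by positivity)] at hKlo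
  have hK80 : (80 : ℝ) ≤ K := by
    have : (K : ℝ) * s ^ 2 ≤ K * 1 := mul_le_mul_of_nonneg_left (by linarith) (by positivity)
    linarith
  have hK32 : 32 ≤ K := by
    have : (80 : ℕ) ≤ K := by exact_mod_cast hK80
    omega
  have hK0 : (0 : ℝ) < K := by linarith
  -- `K'`
  set K' := Nat.ceil (1 / s) with hK'
  have hK'lo : 1 ≤ (K' : ℝ) * s := by
    have : 1 / s ≤ K' := Nat.le_ceil _
    rwa [div_le_iff₀ hs0] at this
  have hK'up : (K' : ℝ) * s ≤ 2 := by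
    have e1 : (K' : ℝ) ≤ 1 / s + 1 := (Nat.ceil_lt_add_one (by positivity)).le
    have e2 := mul_le_mul_of_nonneg_right e1 hs0.le
    have e3 : (1 / s + 1) * s = 1 + s := by field_simp
    linarith
  have hK'1 : 1 ≤ K' := Nat.one_le_iff_ne_zero.2 (Nat.ceil_pos.2 (by positivity)).ne'
  have hK'0 : (0 : ℝ) < K' := by exact_mod_cast hK'1
  have hKK : K' ≤ K := by
    have : (K' : ℝ) ≤ K := by
      have e1 : (K' : ℝ) * s * s ≤ 2 * s := mul_le_mul_of_nonneg_right hK'up hs0.le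
      have e2 : (K' : ℝ) * s ^ 2 ≤ K * s ^ 2 := by
        have : (K' : ℝ) * s * s = K' * s ^ 2 := by ring
        linarith
      exact le_of_mul_le_mul_right e2 (by positivity)
    exact_mod_cast this
  have hKs3 : (K : ℝ) * s ^ 3 ≤ 81 := by
    have : (K : ℝ) * s ^ 3 ≤ K * s ^ 2 := mul_le_mul_of_nonneg_left hs32 hK0.le
    linarith
  have hKKs : (K' : ℝ) * K * s ^ 3 ≤ 162 := by
    have e : (K' : ℝ) * K * s ^ 3 = (K' * s) * (K * s ^ 2) := by ring
    rw [e]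
    have := mul_le_mul hK'up hKup (by positivity) (by norm_num)
    linarith
  set η := s ^ 3 / 1000000 with hη
  have hη0 : 0 < η := by positivity
  have hη1 : η ≤ 1 / 1000000 := by rw [hη]; linarith
  have hηl : 3 * Real.log l ≤ η * l := by
    rw [hη]; linarith
  -- `l ≤ x ^ (η / 2)`
  have hxη2 : l ≤ (x : ℝ) ^ (η / 2) := by
    rw [Real.rpow_def_of_pos hx0, ← hl]
    have e1 : Real.log l ≤ l * (η / 2) := by
      have : 0 ≤ Real.log l := by linarith
      linarith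
    calc l = Real.exp (Real.log l) := (Real.exp_log hl0).symm
      _ ≤ _ := Real.exp_le_exp.2 e1
  have hxηη : (x : ℝ) ^ η = (x : ℝ) ^ (η / 2) * (x : ℝ) ^ (η / 2) := by
    rw [← Real.rpow_add hx0]; congr 1; ring
  have hxη : l ≤ (x : ℝ) ^ η := by
    rw [hxηη]
    nlinarith
  -- `8 (K + 1) ≤ l`
  have hKl : 8 * ((K : ℝ) + 1) ≤ l := by
    have e1 : (K : ℝ) * (s ^ 3 * l) ≤ 81 * l := by
      have := mul_le_mul_of_nonneg_right hKs3 hl0.le
      linarith
    have e2 : (K : ℝ) * 3000000 ≤ K * (s ^ 3 * l) := mul_le_mul_of_nonneg_left hs3l' hK0.le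
    linarith
  have hKKl : ((K : ℝ) + 1) * K' ≤ l := by
    have e1 : (K' : ℝ) * K * (s ^ 3 * l) ≤ 162 * l := by
      have := mul_le_mul_of_nonneg_right hKKs hl0.le
      linarith
    have e2 : (K' : ℝ) * K * 3000000 ≤ K' * K * (s ^ 3 * l) :=
      mul_le_mul_of_nonneg_left hs3l' (by positivity)
    have e3 : (K' : ℝ) * 1 ≤ K' * K := mul_le_mul_of_nonneg_left (by linarith) hK'0.le
    have e4 : ((K : ℝ) + 1) * K' = K' * K + K' := by ring
    linarith
  set L := Nat.floor ((x : ℝ) ^ η) - 1 with hL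
  have hfl : 3 ≤ Nat.floor ((x : ℝ) ^ η) := Nat.le_floor (by
    have : (3 : ℝ) ≤ (x : ℝ) ^ η := by linarith
    exact_mod_cast this)
  have hL1 : L + 1 = Nat.floor ((x : ℝ) ^ η) := by omega
  have hLr : ((L : ℝ) + 1) ≤ (x : ℝ) ^ η := by
    have : ((L + 1 : ℕ) : ℝ) ≤ (x : ℝ) ^ η := by rw [hL1]; exact Nat.floor_le (by positivity)
    exact_mod_cast this
  have hLr2 : (x : ℝ) ^ η / 2 ≤ (L : ℝ) + 1 := by
    have h6 : (x : ℝ) ^ η < ((L + 1 : ℕ) : ℝ) + 1 := by rw [hL1]; exact Nat.lt_floor_add_one _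
    push_cast at h6
    linarith
  have hB : Real.log (L + 1) ≤ η * l := by
    rw [hl, ← Real.log_rpow hx0]
    exact Real.log_le_log (by positivity) hLr
  have hB0 : (0 : ℝ) < Real.log (L + 1) := by
    have := half_le_log (L := L) (by omega)
    linarith
  set b := K' * (L + 1) ^ (K + 2) with hb
  have hb1 : 1 ≤ b := Nat.mul_pos hK'1 (Nat.pow_pos (Nat.succ_pos L))
  have hb0 : (0 : ℝ) < b := by exact_mod_cast hb1
  set s₀ := Nat.ceil (Real.sqrt x) with hs₀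
  have hns : n₀ ≤ s₀ := by
    have h6 : ((n₀ + 1 : ℕ) : ℝ) ≤ Real.sqrt x := by
      refine Real.le_sqrt_of_sq_le ?_
      exact_mod_cast h5
    have h7 : ((n₀ + 1 : ℕ) : ℝ) ≤ (s₀ : ℝ) := h6.trans (Nat.le_ceil _)
    have h8 : n₀ + 1 ≤ s₀ := by exact_mod_cast h7
    omega
  have hlogn : ∀ n, s₀ ≤ n → l / 2 ≤ Real.log n := fun n hn => half_log_le hx1 hn
  set S := {k : ℕ | k ≤ x ∧ nint (ξ * Real.exp k - β) < Real.exp (-(ε * k))} with hS
  have hSx : S = S ∩ Set.Iic x := by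
    ext k
    simp only [hS, Set.mem_inter_iff, Set.mem_ofPred_eq, Set.mem_Iic]
    tauto
  have hbL1 : b * (L + 1) - 1 + 1 = b * (L + 1) :=
    Nat.sub_add_cancel (Nat.mul_pos hb1 (Nat.succ_pos L))
  have hcount := count_windows S x (b * (L + 1) - 1) ((K + 1) * b) s₀ (fun n hn hnx => by
    have hln := hlogn n hn
    have hn0 : (0 : ℝ) ≤ n := Nat.cast_nonneg _
    have hlnpos : 0 < Real.log n := by linarith
    refine (Set.ncard_le_ncard ?_ ((Set.finite_Icc n (n + (b * (L + 1) - 1))).subset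
      Set.inter_subset_right)).trans (h₀ n (hns.trans hn) K K' L b hK32 hK'1 hKK (by omega) hb
      ?_ β)
    · rintro k ⟨hk1, hk2⟩
      refine ⟨lt_of_lt_of_le hk1.2 (Real.exp_le_exp.2 (neg_le_neg ?_)), hk2⟩
      have hkn : (n : ℝ) ≤ k := by exact_mod_cast hk2.1
      show 40 * n / K + 1400 * (K / K') * n * Real.log (L + 1) / Real.log n ≤ ε * k
      have e1 : 40 * (n : ℝ) / K ≤ ε / 2 * n := by
        rw [div_le_iff₀ hK0, ← hs2]
        have := mul_le_mul_of_nonneg_right hKlo2 hn0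
        linarith
      have e2 : 1400 * (K / K') * n * Real.log (L + 1) / Real.log n ≤ ε / 2 * n := by
        rw [div_le_iff₀ hlnpos]
        have e3 : (K : ℝ) / K' ≤ K * s := by
          rw [div_le_iff₀ hK'0]
          have := mul_le_mul_of_nonneg_left hK'lo hK0.le
          linarith
        have e4 : 1400 * ((K : ℝ) / K') * n * Real.log (L + 1) ≤ 1400 * (K * s) * n * (η * l) := by
          refine mul_le_mul ?_ hB hB0.le (by positivity)
          exact mul_le_mul_of_nonneg_right (mul_le_mul_of_nonneg_left e3 (by norm_num)) hn0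
        have e5 : 1400 * (K * s) * n * (η * l) = 14 / 10000 * (K * s ^ 2) * (s ^ 2 * n * l) := by
          rw [hη]; ring
        have e6 : 14 / 10000 * ((K : ℝ) * s ^ 2) * (s ^ 2 * n * l) ≤
            14 / 10000 * 81 * (s ^ 2 * n * l) := by
          refine mul_le_mul_of_nonneg_right ?_ (by positivity)
          linarith
        have e7 : s ^ 2 * n * (l / 2) ≤ s ^ 2 * n * Real.log n :=
          mul_le_mul_of_nonneg_left hln (by positivity)
        have e8 : 0 ≤ s ^ 2 * n * l := by positivity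
        rw [← hs2]
        linarith
      have e9 : ε * n ≤ ε * k := mul_le_mul_of_nonneg_left hkn hε0.le
      linarith
    · have e1 : 800 * (K' : ℝ) * K * Real.log (L + 1) ≤ 800 * K' * K * (η * l) :=
        mul_le_mul_of_nonneg_left hB (by positivity)
      have e2 : 800 * (K' : ℝ) * K * (η * l) = 8 / 10000 * (K' * K * s ^ 3) * l := by
        rw [hη]; ring
      have e3 : 8 / 10000 * ((K' : ℝ) * K * s ^ 3) * l ≤ 8 / 10000 * 162 * l := by
        refine mul_le_mul_of_nonneg_right ?_ hl0.le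
        linarith
      linarith)
  rw [← hSx, hbL1] at hcount
  have hcount' : ((S.ncard : ℕ) : ℝ) ≤
      ((s₀ + (K + 1) * b * (x / (b * (L + 1)) + 1) : ℕ) : ℝ) := by exact_mod_cast hcount
  refine hcount'.trans ?_
  have e0 : 1 - s ^ 3 / 2000000 = 1 - η / 2 := by rw [hη]; ring
  rw [e0]
  push_cast
  have e1 : (s₀ : ℝ) ≤ Real.sqrt x + 1 := (Nat.ceil_lt_add_one (Real.sqrt_nonneg _)).le
  have e2 : ((x / (b * (L + 1)) : ℕ) : ℝ) ≤ x / (b * (L + 1)) := by
    have := Nat.cast_div_le (α := ℝ) (m := x) (n := b * (L + 1))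
    push_cast at this
    exact this
  have e3 : (x : ℝ) / (L + 1) ≤ 2 * (x : ℝ) ^ (1 - η) := by
    rw [div_le_iff₀ (by positivity)]
    have h6 : (x : ℝ) ^ (1 - η) * (x : ℝ) ^ η = x := by
      rw [← Real.rpow_add hx0]; simp
    have h7 : 0 < (x : ℝ) ^ (1 - η) := Real.rpow_pos_of_pos hx0 _
    have h8 := mul_le_mul_of_nonneg_left hLr2 h7.le
    linarith
  have e3' : ((K : ℝ) + 1) * b * ((x / (b * (L + 1)) : ℕ) : ℝ) ≤
      (K + 1) * (2 * (x : ℝ) ^ (1 - η)) := by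
    have h6 : ((K : ℝ) + 1) * b * ((x / (b * (L + 1)) : ℕ) : ℝ) ≤
        (K + 1) * b * (x / (b * (L + 1))) := mul_le_mul_of_nonneg_left e2 (by positivity)
    have h7 : ((K : ℝ) + 1) * b * (x / (b * (L + 1))) = (K + 1) * (x / (L + 1)) := by
      field_simp
    rw [h7] at h6
    exact h6.trans (mul_le_mul_of_nonneg_left e3 (by positivity))
  have e4 : (x : ℝ) ^ (1 - η) * (8 * (K + 1)) ≤ (x : ℝ) ^ (1 - η / 2) := by
    have h6 : (x : ℝ) ^ (1 - η) * (x : ℝ) ^ (η / 2) = (x : ℝ) ^ (1 - η / 2) := by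
      rw [← Real.rpow_add hx0]; congr 1; ring
    rw [← h6]
    exact mul_le_mul_of_nonneg_left (hKl.trans hxη2) (Real.rpow_nonneg hx0.le _)
  have e50 : (16 : ℝ) ≤ (x : ℝ) ^ (1 / 2 - η / 2) := by
    refine h3.trans (Real.rpow_le_rpow_of_exponent_le hx1' (by linarith))
  have e5 : Real.sqrt x * 16 ≤ (x : ℝ) ^ (1 - η / 2) := by
    have h6 : Real.sqrt x * (x : ℝ) ^ (1 / 2 - η / 2) = (x : ℝ) ^ (1 - η / 2) := by
      rw [Real.sqrt_eq_rpow, ← Real.rpow_add hx0]; congr 1; ring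
    rw [← h6]
    exact mul_le_mul_of_nonneg_left e50 (Real.sqrt_nonneg _)
  -- `(K + 1) b ≤ √x`
  have e6 : ((K : ℝ) + 1) * b ≤ Real.sqrt x := by
    have h6 : (b : ℝ) ≤ K' * (x : ℝ) ^ (1 / 4 : ℝ) := by
      rw [hb]
      push_cast
      refine mul_le_mul_of_nonneg_left ?_ hK'0.le
      calc ((L : ℝ) + 1) ^ (K + 2) ≤ ((x : ℝ) ^ η) ^ (K + 2) :=
            pow_le_pow_left₀ (by positivity) hLr _
        _ = (x : ℝ) ^ (η * ((K + 2 : ℕ) : ℝ)) := by
            rw [← Real.rpow_natCast, ← Real.rpow_mul hx0.le]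
        _ ≤ _ := by
            refine Real.rpow_le_rpow_of_exponent_le hx1' ?_
            push_cast
            have : η * (K + 2) = (K * s ^ 3 + 2 * s ^ 3) / 1000000 := by rw [hη]; ring
            rw [this]
            linarith
    have h7 : ((K : ℝ) + 1) * b ≤ (K + 1) * (K' * (x : ℝ) ^ (1 / 4 : ℝ)) :=
      mul_le_mul_of_nonneg_left h6 (by positivity)
    have h8 : ((K : ℝ) + 1) * (K' * (x : ℝ) ^ (1 / 4 : ℝ)) ≤ l * (x : ℝ) ^ (1 / 4 : ℝ) := by
      have := mul_le_mul_of_nonneg_right hKKl (Real.rpow_nonneg hx0.le (1 / 4 : ℝ))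
      linarith
    have h9 : l * (x : ℝ) ^ (1 / 4 : ℝ) ≤ (x : ℝ) ^ (1 / 4 : ℝ) * (x : ℝ) ^ (1 / 4 : ℝ) :=
      mul_le_mul_of_nonneg_right h44 (Real.rpow_nonneg hx0.le _)
    have h10 : (x : ℝ) ^ (1 / 4 : ℝ) * (x : ℝ) ^ (1 / 4 : ℝ) = Real.sqrt x := by
      rw [← Real.rpow_add hx0, Real.sqrt_eq_rpow]; norm_num
    linarith
  have e7 : (1 : ℝ) ≤ Real.sqrt x := Real.one_le_sqrt.2 hx1'
  linarith

end ExpFrac
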