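import Pool.Agent.ExpFrac.Two

/-!
The grid theorem: for `n + x i + y j` with `K'` values `x i` and `K + 1` values `y j`.
-/

set_option autoImplicit false

open Polynomial Finset
open scoped Nat

namespace ExpFrac

theorem vee_pos (K N L : ℕ) (hL : 1 ≤ L) : 0 < vee K N L := by
  have := rho_pos K N L hL
  rw [vee]
  positivity

theorem log_rho_sys (K N L : ℕ) (hL : 1 ≤ L) (hN : 1 ≤ N) :
    Real.log (rho K N L) ≤ 1 + Real.log (L + 1) + L + (K + 1) * N * Real.log (L + 1) + 2 * N -
      N * Real.log N := by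
  have h1 := log_rho_le K N L hL hN
  have h2 := log_fac_lower N hN
  have h3 : (0 : ℝ) ≤ N * Real.log (L + 1) := by
    have := half_le_log hL
    have : (0 : ℝ) ≤ Real.log (L + 1) := by linarith
    positivity
  linarith

theorem log_vee_sys (K N L : ℕ) (hL : 1 ≤ L) (hN : 1 ≤ N) (hK : 1 ≤ K) (hKL : K ≤ L + 1) :
    Real.log (vee K N L) ≤ 1 + Real.log (L + 1) + L + 2 * ((K + 1) * N * Real.log (L + 1)) +
      2 * N + K * (N * Real.log N) := by
  have h1 := log_vee_le K N L hL hN hK hKL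
  have h2 := log_fac_lower N hN
  have h3 : (0 : ℝ) ≤ N * Real.log (L + 1) := by
    have := half_le_log hL
    have : (0 : ℝ) ≤ Real.log (L + 1) := by linarith
    positivity
  have h4 : (0 : ℝ) ≤ N * Real.log N := by
    have : 0 ≤ Real.log (N : ℝ) := Real.log_nonneg (by exact_mod_cast hN)
    positivity
  linarith

theorem log_rho_sys2 (K N L : ℕ) (hL : 1 ≤ L) (hN : 1 ≤ N) :
    Real.log (2 * rho (K + 1) N L) ≤ 1 + Real.log (L + 1) + L +
      (K + 1) * N * Real.log (L + 1) + 2 * N - N * Real.log N := by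
  have h1 := log_rho_le (K + 1) N L hL hN
  have h2 := log_fac_lower N hN
  rw [Real.log_mul (by norm_num) (rho_pos _ _ _ hL).ne']
  push_cast at h1
  have := Real.log_two_lt_d9
  linarith

theorem log_vee_sys2 (K N L : ℕ) (hL : 1 ≤ L) (hN : 1 ≤ N) (hKL : K ≤ L) :
    Real.log (2 * vee (K + 1) N L) ≤ 1 + Real.log (L + 1) + L +
      2 * ((K + 1) * N * Real.log (L + 1)) + 2 * N + K * (N * Real.log N) := by
  have h1 := log_vee_le (K + 1) N L hL hN (by omega) (by omega)
  have h2 := log_fac_lower N hN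
  rw [Real.log_mul (by norm_num) (vee_pos _ _ _ hL).ne']
  push_cast at h1
  have := Real.log_two_lt_d9
  linarith

/-- The size facts. -/
theorem size_facts (ξ : ℝ) (hξ : ξ ≠ 0) : ∃ n₀ : ℕ, ∀ n ≥ n₀, ∀ K K' L L' : ℕ, 32 ≤ K →
    1 ≤ K' → K ≤ L → 1 ≤ L' →
    400 * (K : ℝ) * Real.log (L + 1) ≤ Real.log n →
    400 * (K' : ℝ) * Real.log (L' + 1) ≤ Real.log n →
    (0 : ℝ) < n ∧ 2 * ((K : ℝ) + 1) ≤ |ξ| * Real.exp n ∧
    20 * (K * (Real.log (|ξ| + 1) + L + L' + K * Real.log (L + 1) + K * (L + 1) + K +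
      2 * (Real.log (K + 1) + 1 + |Real.log (|ξ|)|))) ≤ (n : ℝ) := by
  set c := Real.log (|ξ| + 1) with hc
  set c₂ := |Real.log (|ξ|)| with hc₂
  have hξ0 : 0 < |ξ| := abs_pos.2 hξ
  have hc0 : 0 ≤ c := Real.log_nonneg (by linarith)
  have hc₂0 : 0 ≤ c₂ := abs_nonneg _
  set U₀ := 20 * (c + 2 * c₂ + 1 / |ξ| + 100) with hU₀
  have hU₀1 : 1 ≤ U₀ := by
    have : 0 < 1 / |ξ| := by positivity
    rw [hU₀]; linarith
  refine ⟨Nat.ceil (Real.exp (400 * Real.log U₀)) + 1, fun n hn K K' L L' hK hK' hKL hL' h1 h2 => ?_⟩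
  have hn1 : Real.exp (400 * Real.log U₀) ≤ n :=
    (Nat.le_ceil _).trans (by exact_mod_cast (by omega : Nat.ceil (Real.exp (400 * Real.log U₀)) ≤ n))
  have hn0 : (0 : ℝ) < n := lt_of_lt_of_le (Real.exp_pos _) hn1
  set u := Real.exp (Real.log n / 400) with hu
  have huU : U₀ ≤ u := by
    have h3 : 400 * Real.log U₀ ≤ Real.log n := by
      rw [← Real.log_exp (400 * Real.log U₀)]
      exact Real.log_le_log (Real.exp_pos _) hn1
    have h4 : Real.exp (Real.log U₀) = U₀ := Real.exp_log (by linarith)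
    rw [← h4, hu]
    exact Real.exp_le_exp.2 (by linarith)
  have hu1 : 1 ≤ u := hU₀1.trans huU
  have hu4 : u ^ 4 ≤ n := by
    rw [hu, ← Real.exp_nat_mul]
    conv_rhs => rw [← Real.exp_log hn0]
    refine Real.exp_le_exp.2 ?_
    have h3 : 0 ≤ Real.log n := by
      have : Real.exp 0 ≤ u := by rw [Real.exp_zero]; exact hu1
      rw [hu] at this
      have := Real.exp_le_exp.1 this
      linarith
    push_cast
    linarith
  have hK1 : (1 : ℝ) ≤ K := by exact_mod_cast (by omega : 1 ≤ K)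
  have hK1' : (1 : ℝ) ≤ K' := by exact_mod_cast hK'
  have hB0 : (1 / 2 : ℝ) ≤ Real.log (L + 1) := half_le_log (by omega)
  have hB0' : (1 / 2 : ℝ) ≤ Real.log (L' + 1) := half_le_log hL'
  have hLu : (L : ℝ) + 1 ≤ u := by
    have h3 : Real.log ((L : ℝ) + 1) ≤ Real.log n / 400 := by
      have := mul_le_mul_of_nonneg_right hK1 (by linarith : (0 : ℝ) ≤ 400 * Real.log (L + 1))
      linarith
    have h4 : Real.exp (Real.log ((L : ℝ) + 1)) = L + 1 := Real.exp_log (by positivity)
    rw [← h4, hu]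
    exact Real.exp_le_exp.2 h3
  have hLu' : (L' : ℝ) + 1 ≤ u := by
    have h3 : Real.log ((L' : ℝ) + 1) ≤ Real.log n / 400 := by
      have := mul_le_mul_of_nonneg_right hK1' (by linarith : (0 : ℝ) ≤ 400 * Real.log (L' + 1))
      linarith
    have h4 : Real.exp (Real.log ((L' : ℝ) + 1)) = L' + 1 := Real.exp_log (by positivity)
    rw [← h4, hu]
    exact Real.exp_le_exp.2 h3
  have hKLr : (K : ℝ) ≤ L := by exact_mod_cast hKL
  have hKu : (K : ℝ) + 1 ≤ u := by linarith
  have hBu : Real.log ((L : ℝ) + 1) ≤ u := by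
    have := Real.log_le_sub_one_of_pos (x := (L : ℝ) + 1) (by positivity)
    linarith
  have hlK : Real.log ((K : ℝ) + 1) ≤ u := by
    have := Real.log_le_sub_one_of_pos (x := (K : ℝ) + 1) (by positivity)
    linarith
  have hu2 : u ≤ u ^ 2 := by nlinarith
  have hu3 : u ≤ u ^ 3 := by nlinarith
  have hu20 : (0 : ℝ) < u ^ 3 := by positivity
  have h43 : U₀ * u ^ 3 ≤ u ^ 4 := by
    have : u ^ 4 = u * u ^ 3 := by ring
    rw [this]
    exact mul_le_mul_of_nonneg_right huU hu20.le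
  refine ⟨hn0, ?_, ?_⟩
  · have h3 : (n : ℝ) ≤ Real.exp n := by
      have := Real.add_one_le_exp (n : ℝ)
      linarith
    have h4 : 20 * (1 / |ξ|) * u ^ 3 ≤ n := by
      have : 20 * (1 / |ξ|) * u ^ 3 ≤ U₀ * u ^ 3 :=
        mul_le_mul_of_nonneg_right (by rw [hU₀]; linarith) hu20.le
      linarith
    have h5 : 20 * u ^ 3 ≤ |ξ| * n := by
      have h6 := mul_le_mul_of_nonneg_left h4 hξ0.le
      have h7 : |ξ| * (20 * (1 / |ξ|) * u ^ 3) = 20 * u ^ 3 := by field_simp
      linarith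
    have h8 : |ξ| * n ≤ |ξ| * Real.exp n := mul_le_mul_of_nonneg_left h3 hξ0.le
    linarith
  · have e1 : (K : ℝ) * Real.log (L + 1) ≤ u ^ 2 := by
      rw [sq]
      exact mul_le_mul (by linarith) hBu (by linarith) (by linarith)
    have e2 : (K : ℝ) * (L + 1) ≤ u ^ 2 := by
      rw [sq]
      exact mul_le_mul (by linarith) hLu (by positivity) (by linarith)
    have e3 : c + L + L' + K * Real.log (L + 1) + K * (L + 1) + K +
        2 * (Real.log (K + 1) + 1 + c₂) ≤ (c + 2 * c₂ + 9) * u ^ 2 := by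
      have h5 : (c + 2 * c₂ + 2) * 1 ≤ (c + 2 * c₂ + 2) * u ^ 2 :=
        mul_le_mul_of_nonneg_left (by nlinarith) (by linarith)
      linarith
    have e4 : (K : ℝ) * (c + L + L' + K * Real.log (L + 1) + K * (L + 1) + K +
        2 * (Real.log (K + 1) + 1 + c₂)) ≤ u * ((c + 2 * c₂ + 9) * u ^ 2) := by
      refine mul_le_mul (by linarith) e3 ?_ (by linarith)
      have h6 : 0 ≤ Real.log ((K : ℝ) + 1) := Real.log_nonneg (by linarith)
      have h7 : 0 ≤ Real.log ((L : ℝ) + 1) := by linarith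
      positivity
    have e5 : 20 * (u * ((c + 2 * c₂ + 9) * u ^ 2)) ≤ U₀ * u ^ 3 := by
      have h8 : 20 * (u * ((c + 2 * c₂ + 9) * u ^ 2)) = (20 * (c + 2 * c₂ + 9)) * u ^ 3 := by ring
      rw [h8]
      refine mul_le_mul_of_nonneg_right ?_ hu20.le
      have : 0 < 1 / |ξ| := by positivity
      rw [hU₀]; linarith
    linarith

/-- The size of the threshold in the grid theorem. -/
noncomputable def gap (n K K' L : ℕ) : ℝ :=
  40 * n / K + 1400 * (K / K') * n * Real.log (L + 1) / Real.log n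

/-- One side: lower bound for the maximal minor. -/
theorem side (n K N L j : ℕ) (b ρ v η : ℝ) (hn0 : (0 : ℝ) < n) (hln : 0 < Real.log n)
    (hj : 1 ≤ j) (hjK : 16 * j ≤ K) (hKL : K ≤ L + 1)
    (hLN : L ≤ N) (hb : 1 ≤ b) (hρ : 0 < ρ) (hv : 0 < v) (hη : 0 < η) (hη1 : η ≤ 1)
    (hlρ : Real.log ρ ≤ 1 + Real.log (L + 1) + L + (K + 1) * N * Real.log (L + 1) + 2 * N -
      N * Real.log N)
    (hlv : Real.log v ≤ 1 + Real.log (L + 1) + L + 2 * ((K + 1) * N * Real.log (L + 1)) + 2 * N +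
      K * (N * Real.log N))
    (h : 1 ≤ b * ((K ! : ℝ) * ((η * ρ ^ (K - j)) *
        (max ((Real.exp L + η) / η) (v / ρ) * (1 + Real.exp L) ^ (K - 1)))))
    (hN1 : ((2 * n : ℕ) : ℝ) + 20 * (K ^ 2 * N * Real.log (L + 1)) ≤ K * (N * Real.log N))
    (hN2 : K * (N * Real.log N) ≤ ((2 * n : ℕ) : ℝ) + 21 * (K ^ 2 * N * Real.log (L + 1)))
    (hN3 : K * N * Real.log ((2 * n : ℕ) : ℝ) ≤ 6 * ((2 * n : ℕ) : ℝ))
    (hlb : Real.log b ≤ 9 / 5 * n) :
    -Real.log η ≤ Real.log b + 4 * j * n / K + 84 * (K * n * Real.log (L + 1) / Real.log n) := by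
  have hK16 : 16 ≤ K := by omega
  have hK0 : (0 : ℝ) < K := by exact_mod_cast (by omega : 0 < K)
  have hjK' : 16 * (j : ℝ) ≤ K := by exact_mod_cast hjK
  have hj' : (1 : ℝ) ≤ j := by exact_mod_cast hj
  have hB0 : (0 : ℝ) < Real.log (L + 1) := by
    have := half_le_log (L := L) (by omega)
    linarith
  push_cast at hN1 hN2 hN3
  have hlog2n : Real.log n ≤ Real.log (2 * n) := Real.log_le_log hn0 (by linarith)
  set Z := (K : ℝ) ^ 2 * N * Real.log (L + 1) with hZ
  have hZ0 : 0 ≤ Z := by positivity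
  set F := (N : ℝ) * Real.log N with hF
  have hF0 : 0 ≤ F := by
    have : 0 ≤ K * F := by linarith
    exact nonneg_of_mul_nonneg_right this hK0
  rcases row_log K N L j b ρ v η hj hjK hKL hLN hb hρ hv hη hη1 hlρ hlv h with hc | hc
  · exfalso
    have h1 : 15 / 16 * (K * F) ≤ ((K : ℝ) - j) * F := by
      have : 15 / 16 * (K : ℝ) ≤ K - j := by linarith
      have := mul_le_mul_of_nonneg_right this hF0
      linarith
    linarith
  · have h1 : ((j : ℝ) + 1) * F ≤ 4 * j * n / K + 3 * Z := by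
      have h2 : ((j : ℝ) + 1) * F ≤ 2 * j * F := mul_le_mul_of_nonneg_right (by linarith) hF0
      have h3 : 2 * (j : ℝ) * F = 2 * j / K * (K * F) := by field_simp
      have h4 : 2 * (j : ℝ) / K * (K * F) ≤ 2 * j / K * (2 * n + 21 * Z) :=
        mul_le_mul_of_nonneg_left hN2 (by positivity)
      have h5 : 2 * (j : ℝ) / K * (2 * n + 21 * Z) = 4 * j * n / K + 2 * j / K * (21 * Z) := by
        field_simp; ring
      have h6 : 2 * (j : ℝ) / K ≤ 1 / 8 := by
        rw [div_le_iff₀ hK0]; linarith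
      have h7 : 2 * (j : ℝ) / K * (21 * Z) ≤ 1 / 8 * (21 * Z) :=
        mul_le_mul_of_nonneg_right h6 (by linarith)
      linarith
    have h8 : Z ≤ 12 * (K * n * Real.log (L + 1) / Real.log n) := by
      rw [← mul_div_assoc, le_div_iff₀ hln]
      have h9 : Z * Real.log n ≤ Z * Real.log (2 * n) := mul_le_mul_of_nonneg_left hlog2n hZ0
      have h10 : Z * Real.log (2 * n) = K * Real.log (L + 1) * (K * N * Real.log (2 * n)) := by
        rw [hZ]; ring
      have h11 : K * Real.log (L + 1) * (K * N * Real.log (2 * n)) ≤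
          K * Real.log (L + 1) * (6 * (2 * n)) := mul_le_mul_of_nonneg_left hN3 (by positivity)
      linarith
    linarith

set_option maxHeartbeats 2000000 in
/-- The grid theorem. -/
theorem grid (ξ : ℝ) (hξ : ξ ≠ 0) : ∃ n₀ : ℕ, ∀ n ≥ n₀, ∀ K K' L L' : ℕ, 32 ≤ K →
    1 ≤ K' → K' ≤ K → 1 ≤ L' →
    400 * (K : ℝ) * Real.log (L + 1) ≤ Real.log n →
    400 * (K' : ℝ) * Real.log (L' + 1) ≤ Real.log n → ∀ β : ℝ,
    ∀ y : Option (Fin K) → ℕ, Function.Injective y → (∀ j, y j ≤ L) →
    (∀ i, y none < y (some i)) →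
    ∀ x : Fin K' → ℕ, Function.Injective x → (∀ i, x i ≤ L') →
    ∃ i j, Real.exp (-(gap n K K' L)) ≤ nint (ξ * Real.exp ((n + x i + y j : ℕ) : ℝ) - β) := by
  obtain ⟨n₀, h₀⟩ := size_facts ξ hξ
  refine ⟨n₀, fun n hn K K' L L' hK hK' hKK hL' h1 h2 β y hyinj hyL hy0 x hxinj hxL => ?_⟩
  have hKL : K ≤ L := by
    have h3 := Fintype.card_le_of_injective (fun j => (⟨y j, Nat.lt_succ_of_le (hyL j)⟩ : Fin (L + 1)))
      (fun i j hij => hyinj (by simpa using hij))
    simpa using h3
  have hKL' : K' ≤ L' + 1 := by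
    have h3 := Fintype.card_le_of_injective (fun j => (⟨x j, Nat.lt_succ_of_le (hxL j)⟩ : Fin (L' + 1)))
      (fun i j hij => hxinj (by simpa using hij))
    simpa using h3
  have hL : 1 ≤ L := by omega
  obtain ⟨hn0, hξn, herr⟩ := h₀ n hn K K' L L' hK hK' hKL hL' h1 h2
  by_contra hcon
  push Not at hcon
  have hK32 : (32 : ℝ) ≤ K := by exact_mod_cast hK
  have hK0 : (0 : ℝ) < K := by linarith
  have hK0' : (1 : ℝ) ≤ K' := by exact_mod_cast hK'
  have hξ0 : 0 < |ξ| := abs_pos.2 hξ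
  have hB1 : (1 / 2 : ℝ) ≤ Real.log (L + 1) := half_le_log hL
  have hB1' : (1 / 2 : ℝ) ≤ Real.log (L' + 1) := half_le_log hL'
  have hln : 0 < Real.log n := by
    have : 0 < 400 * (K : ℝ) * Real.log (L + 1) := by positivity
    linarith
  have hlog2n : Real.log n ≤ Real.log ((2 * n : ℕ) : ℝ) := by
    refine Real.log_le_log hn0 ?_
    push_cast
    linarith
  set G := gap n K K' L with hG
  have hGdef : G = 40 * n / K + 1400 * (K / K') * n * Real.log (L + 1) / Real.log n := rfl
  have hG1 : 40 * n / K ≤ G := by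
    rw [hGdef]
    have : 0 ≤ 1400 * (K / K') * n * Real.log (L + 1) / Real.log n := by positivity
    linarith
  have hG0 : 0 ≤ G := le_trans (by positivity) hG1
  set δ₀ := Real.exp (-G) with hδ₀
  have hδ₀0 : 0 < δ₀ := Real.exp_pos _
  have hδ₀1 : δ₀ ≤ 1 := Real.exp_le_one_iff.2 (by linarith)
  set t := ξ * Real.exp n with ht
  have htabs : |t| = |ξ| * Real.exp n := by rw [ht, abs_mul, abs_of_pos (Real.exp_pos _)]
  have ht2 : 2 * ((K : ℝ) + 1) ≤ |t| := by rw [htabs]; exact hξn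
  have ht0 : 0 < |t| := by linarith
  have htne : t ≠ 0 := abs_pos.1 ht0
  -- the integers
  set a : Fin K' → Option (Fin K) → ℤ :=
    fun i j => round (ξ * Real.exp ((n + x i + y j : ℕ) : ℝ) - β) with ha
  have hy1 : ∀ i j, |(a i j : ℝ) - (t * Real.exp (x i) * Real.exp (y j) - β)| ≤ δ₀ := by
    intro i j
    have h3 := (hcon i j).le
    rw [nint, abs_sub_comm] at h3
    have h4 : ξ * Real.exp ((n + x i + y j : ℕ) : ℝ) = t * Real.exp (x i) * Real.exp (y j) := by
      push_cast
      rw [Real.exp_add, Real.exp_add, ht]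
      ring
    simp only [ha]
    rw [h4] at h3 ⊢
    exact h3
  set M : Matrix (Fin K') (Fin K) ℤ := fun i j => a i (some j) - a i none with hM
  set g : Fin K' → ℝ := fun i => Real.exp (x i) with hg
  set w : Fin K → ℝ := fun j => Real.exp (y (some j)) - Real.exp (y none) with hw
  have hMt : ∀ i j, |(M i j : ℝ) - t * g i * w j| ≤ 2 * δ₀ := by
    intro i j
    have h3 := hy1 i (some j)
    have h4 := hy1 i none
    have e : (M i j : ℝ) - t * g i * w j =
        ((a i (some j) : ℝ) - (t * Real.exp (x i) * Real.exp (y (some j)) - β)) -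
        ((a i none : ℝ) - (t * Real.exp (x i) * Real.exp (y none) - β)) := by
      simp only [hM, hg, hw]
      push_cast
      ring
    rw [e]
    refine (abs_sub _ _).trans ?_
    linarith
  have hg1 : ∀ i, 1 ≤ g i := fun i => Real.one_le_exp (Nat.cast_nonneg _)
  have hgE : ∀ i, g i ≤ Real.exp L' := fun i => Real.exp_le_exp.2 (by exact_mod_cast hxL i)
  have hw1 : ∀ j, 1 ≤ w j := by
    intro j
    have h3 : (y none : ℝ) + 1 ≤ y (some j) := by exact_mod_cast hy0 j
    have h4 := Real.exp_le_exp.2 h3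
    rw [Real.exp_add] at h4
    have h5 : (1 : ℝ) ≤ Real.exp (y none) := Real.one_le_exp (Nat.cast_nonneg _)
    have h6 := Real.exp_one_gt_d9
    simp only [hw]
    nlinarith
  have hwE : ∀ j, w j ≤ Real.exp L := by
    intro j
    have h3 : Real.exp (y (some j)) ≤ Real.exp L :=
      Real.exp_le_exp.2 (by exact_mod_cast hyL (some j))
    have h4 := Real.exp_pos (y none : ℝ)
    simp only [hw]
    linarith
  have hgw : ∀ i j, |t| ≤ |t * g i * w j| := by
    intro i j
    rw [abs_mul (t * g i), abs_mul t (g i)]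
    have h3 : 1 ≤ |g i| := (hg1 i).trans (le_abs_self _)
    have h4 : 1 ≤ |w j| := (hw1 j).trans (le_abs_self _)
    have h5 : |t| * 1 ≤ |t| * |g i| := mul_le_mul_of_nonneg_left h3 ht0.le
    have h6 : |t| * |g i| * 1 ≤ |t| * |g i| * |w j| :=
      mul_le_mul_of_nonneg_left h4 (by positivity)
    linarith
  have i₁ : Fin K' := ⟨0, by omega⟩
  have j₁ : Fin K := ⟨0, by omega⟩
  have hMne : M ≠ 0 := by
    intro h0
    have h3 := hMt i₁ j₁
    rw [h0] at h3
    simp only [Matrix.zero_apply, Int.cast_zero, zero_sub, abs_neg] at h3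
    have h4 := hgw i₁ j₁
    linarith
  have hT : ∀ i j, |(M i j : ℝ)| ≤ (|ξ| + 1) * Real.exp (n + L + L') := by
    intro i j
    have h3 := hMt i j
    have h4 : |t * g i * w j| ≤ |ξ| * Real.exp (n + L + L') := by
      rw [abs_mul, abs_mul, htabs, Real.exp_add, Real.exp_add,
        abs_of_pos (by linarith [hg1 i] : 0 < g i), abs_of_pos (by linarith [hw1 j] : 0 < w j)]
      have h5 : g i * w j ≤ Real.exp L' * Real.exp L :=
        mul_le_mul (hgE i) (hwE j) (by linarith [hw1 j]) (Real.exp_pos _).le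
      have h6 := mul_le_mul_of_nonneg_left h5 (by positivity : 0 ≤ |ξ| * Real.exp n)
      calc |ξ| * Real.exp n * g i * w j = |ξ| * Real.exp n * (g i * w j) := by ring
        _ ≤ _ := h6
        _ = _ := by ring
    have h5 : (2 : ℝ) ≤ Real.exp (n + L + L') := by
      have h6 := Real.add_one_le_exp ((n : ℝ) + L + L')
      have h7 : (1 : ℝ) ≤ L := by exact_mod_cast hL
      have h8 : (0 : ℝ) ≤ L' := Nat.cast_nonneg _
      linarith
    have h7 := abs_sub_abs_le_abs_sub (M i j : ℝ) (t * g i * w j)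
    linarith
  -- the systems
  obtain ⟨q, hqp, hq1, hq2⟩ := Nat.exists_prime_lt_and_le_two_mul L (by omega)
  have : Fact q.Prime := ⟨hqp⟩
  obtain ⟨q', hqp', hq1', hq2'⟩ := Nat.exists_prime_lt_and_le_two_mul L' (by omega)
  have : Fact q'.Prime := ⟨hqp'⟩
  obtain ⟨N, hN1, hqN, hLN, -, hNa, hNb, hNc⟩ := exists_N' (2 * n) K L q (by omega) hL hqp.one_le
    hq2 (h1.trans hlog2n)
  obtain ⟨N', hN1', hqN', hLN', -, hNa', hNb', hNc'⟩ := exists_N' (2 * n) K' L' q' hK' hL'
    hqp'.one_le hq2' (h2.trans hlog2n)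
  have hS := sys_diff N L q (by omega) hL hqN hq1 y hyinj hyL j₁
  have hS' := sys_plain N' L' q' (by omega) hL' hqN' hq1' x hxinj hxL i₁
  rw [Fintype.card_fin] at hS hS'
  have hρ := rho_pos (K + 1) N L hL
  have hρ' := rho_pos K' N' L' hL'
  have hv := vee_pos (K + 1) N L hL
  have hv' := vee_pos K' N' L' hL'
  set η := ((K : ℝ) + 1) * (2 * δ₀) / |t| with hη
  have hη0 : 0 < η := by positivity
  have hη1 : η ≤ 1 := by
    rw [hη, div_le_one ht0]
    have : ((K : ℝ) + 1) * (2 * δ₀) ≤ (K + 1) * (2 * 1) :=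
      mul_le_mul_of_nonneg_left (by linarith) (by linarith)
    linarith
  obtain ⟨j, A, b, hj, hjX, hjY, hA, hb, hP, hR, hC⟩ := two_sided M hMne g w (Real.exp L')
    (Real.exp L) hg1 hgE hw1 hwE t (2 * δ₀) ((|ξ| + 1) * Real.exp (n + L + L')) htne
    (by linarith) hMt hT _ _ _ _ (by linarith) hρ' hS hS' η (by rw [Fintype.card_fin])
  rw [Fintype.card_fin] at hjX hjY hR hC
  have hlA : 0 ≤ Real.log A := Real.log_nonneg hA
  have hlb : 0 ≤ Real.log b := Real.log_nonneg hb
  have hA0 : 0 < A := by linarith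
  have hb0 : 0 < b := by linarith
  have hj' : (1 : ℝ) ≤ j := by exact_mod_cast hj
  have hjK : (j : ℝ) ≤ K := by exact_mod_cast hjY
  have hKLr : (K : ℝ) ≤ L := by exact_mod_cast hKL
  -- the product
  set c := Real.log (|ξ| + 1) with hc
  set c₂ := |Real.log (|ξ|)| with hc₂
  have hlδ : Real.log (2 * δ₀) = Real.log 2 - G := by
    rw [Real.log_mul (by norm_num) hδ₀0.ne', hδ₀, Real.log_exp]; ring
  have hl2 : Real.log 2 ≤ 1 := by linarith [Real.log_two_lt_d9]
  have hl20 : 0 ≤ Real.log 2 := Real.log_nonneg (by norm_num)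
  have hPl : Real.log A + Real.log b ≤ n + (c + L + L' + K * Real.log (L + 1) + K * (L + 1) + K) -
      (j - 1) * G := by
    have h3 := Real.log_le_log (by positivity) hP
    have hfac : (0 : ℝ) < (j ! : ℝ) := by positivity
    rw [Real.log_mul hA0.ne' hb0.ne', Real.log_mul hfac.ne' (by positivity),
      Real.log_mul (by positivity) (by positivity), Real.log_mul (by positivity) (by positivity),
      Real.log_div (by positivity) (by positivity), Real.log_pow, Real.log_pow, hlδ,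
      Real.log_mul (by positivity) (Real.exp_pos _).ne', Real.log_exp, Nat.cast_sub hj] at h3
    have h4 : Real.log (j ! : ℝ) ≤ K * Real.log (L + 1) := by
      refine (log_fac_upper j).trans (mul_le_mul hjK (Real.log_le_log (by linarith) (by linarith))
        (Real.log_nonneg hj') hK0.le)
    have h5 : ((j : ℝ) - (1 : ℕ)) * Real.log (1 + Real.exp L) ≤ K * (L + 1) := by
      refine mul_le_mul (by push_cast; linarith) (log_one_add_exp_le L)
        (Real.log_nonneg (by linarith [Real.exp_pos (L : ℝ)])) hK0.le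
    have h6 : ((j : ℝ) - 1) * Real.log 2 ≤ K := by
      have := mul_le_mul (by linarith : (j : ℝ) - 1 ≤ K) hl2 hl20 hK0.le
      linarith
    linarith
  have hlη : -Real.log η = G + n + Real.log (|ξ|) - Real.log (K + 1) - Real.log 2 := by
    rw [hη, Real.log_div (by positivity) ht0.ne', Real.log_mul (by positivity) (by positivity),
      hlδ, htabs, Real.log_mul hξ0.ne' (Real.exp_pos _).ne', Real.log_exp]
    ring
  have hc₂' : -c₂ ≤ Real.log (|ξ|) := neg_abs_le _
  have hlK0 : 0 ≤ Real.log ((K : ℝ) + 1) := Real.log_nonneg (by linarith)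
  have hc0 : 0 ≤ c := Real.log_nonneg (by linarith)
  have hc20 : 0 ≤ c₂ := abs_nonneg _
  set e₁ := c + L + L' + K * Real.log (L + 1) + K * (L + 1) + K with he₁
  set e₂ := Real.log (K + 1) + 1 + c₂ with he₂
  have he₁0 : 0 ≤ e₁ := by positivity
  have he₂0 : 0 ≤ e₂ := by positivity
  have herr' : K * (e₁ + 2 * e₂) ≤ n / 20 := by
    have : 20 * (K * (e₁ + 2 * e₂)) ≤ (n : ℝ) := herr
    linarith
  have herr2 : e₁ + 2 * e₂ ≤ n / 640 := by
    have h3 : 32 * (e₁ + 2 * e₂) ≤ K * (e₁ + 2 * e₂) :=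
      mul_le_mul_of_nonneg_right hK32 (by linarith)
    linarith
  have hjG : 0 ≤ ((j : ℝ) - 1) * G := mul_nonneg (by linarith) hG0
  -- the two sides
  have hside : 16 * j ≤ K → G + n ≤ Real.log b + 4 * j * n / K +
      84 * (K * n * Real.log (L + 1) / Real.log n) + e₂ := by
    intro h16
    have h3 := side n K N L j b _ _ η hn0 hln hj h16 (by omega) hLN hb (by linarith) (by linarith)
      hη0 hη1 (log_rho_sys2 K N L hL hN1) (log_vee_sys2 K N L hL hN1 hKL) hR hNa hNb hNc
      (by linarith)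
    rw [hlη] at h3
    linarith
  have hside' : 16 * j ≤ K' → G + n ≤ Real.log A + 4 * j * n / K' +
      84 * (K' * n * Real.log (L' + 1) / Real.log n) + e₂ := by
    intro h16
    have h3 := side n K' N' L' j A _ _ η hn0 hln hj h16 hKL' hLN' hA hρ' hv'
      hη0 hη1 (log_rho_sys K' N' L' hL' hN1') (log_vee_sys K' N' L' hL' hN1' hK' hKL') hC hNa'
      hNb' hNc' (by linarith)
    rw [hlη] at h3
    linarith
  have hZb : K * n * Real.log (L + 1) / Real.log n ≤ n / 400 := by
    rw [div_le_iff₀ hln]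
    have := mul_le_mul_of_nonneg_left h1 hn0.le
    linarith
  have hZb' : K' * n * Real.log (L' + 1) / Real.log n ≤ n / 400 := by
    rw [div_le_iff₀ hln]
    have := mul_le_mul_of_nonneg_left h2 hn0.le
    linarith
  have hjn : ∀ D : ℕ, 16 * j ≤ D → 4 * j * n / (D : ℝ) ≤ n / 4 := by
    intro D hD
    have hD0 : (0 : ℝ) < D := by exact_mod_cast (by omega : 0 < D)
    rw [div_le_iff₀ hD0]
    have hD' : 16 * (j : ℝ) ≤ D := by exact_mod_cast hD
    have := mul_le_mul_of_nonneg_right hD' hn0.le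
    linarith
  by_cases hA16 : 16 * j ≤ K'
  · have hB16 : 16 * j ≤ K := hA16.trans hKK
    have h3 := hside hB16
    have h4 := hside' hA16
    have h5 := hjn K hB16
    have h6 := hjn K' hA16
    linarith
  · by_cases hB16 : 16 * j ≤ K
    · have h3 := hside hB16
      have h4 : (K' : ℝ) ≤ 16 * j := by exact_mod_cast (by omega : K' ≤ 16 * j)
      have hK'0 : (0 : ℝ) < K' := by linarith
      have h5 : j * G = 40 * (j * n / K) +
          1400 * (j / K') * (K * n * Real.log (L + 1) / Real.log n) := by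
        rw [hGdef]; field_simp
      have h6 : (1 / 16 : ℝ) ≤ j / K' := by
        rw [le_div_iff₀ hK'0]; linarith
      have h7 : 0 ≤ K * n * Real.log (L + 1) / Real.log n := by positivity
      have h8 : 1400 * (1 / 16 : ℝ) * (K * n * Real.log (L + 1) / Real.log n) ≤
          1400 * (j / K') * (K * n * Real.log (L + 1) / Real.log n) :=
        mul_le_mul_of_nonneg_right (by linarith) h7
      have h9 : 4 * (j : ℝ) * n / K = 4 * (j * n / K) := by ring
      have h10 : (n : ℝ) / K ≤ j * n / K := by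
        refine div_le_div_of_nonneg_right ?_ hK0.le
        have := mul_le_mul_of_nonneg_right hj' hn0.le
        linarith
      have h11 : e₁ + 2 * e₂ ≤ n / K / 20 := by
        rw [div_div, le_div_iff₀ (by positivity)]
        linarith
      have h12 : 0 < (n : ℝ) / K := by positivity
      linarith
    · have h3 : (K : ℝ) / 32 ≤ j - 1 := by
        have : (K : ℝ) + 1 ≤ 16 * j := by exact_mod_cast (by omega : K + 1 ≤ 16 * j)
        linarith
      have h4 : (K : ℝ) / 32 * (40 * n / K) ≤ (j - 1) * G :=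
        mul_le_mul h3 hG1 (by positivity) (by linarith)
      have h5 : (K : ℝ) / 32 * (40 * n / K) = 5 / 4 * n := by field_simp; ring
      linarith

end ExpFrac
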