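import Pool.Agent.ExpFrac.Dich

/-!
At most `m` integers in a short interval have exponentially small distance.
-/

set_option autoImplicit false

open Polynomial Finset
open scoped Nat

namespace ExpFrac

/-- Distance to the nearest integer. -/
noncomputable def nint (x : ℝ) : ℝ := |x - round x|

theorem nint_le_half (x : ℝ) : nint x ≤ 1 / 2 := abs_sub_round x

set_option maxHeartbeats 1000000 in
/-- Choice of the parameter `N`. -/
theorem exists_N (n m L q : ℕ) (hm : 1 ≤ m) (hL : 1 ≤ L) (hq : 1 ≤ q) (hqL : q ≤ 2 * L)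
    (h : 400 * (m : ℝ) * Real.log (L + 1) ≤ Real.log n) :
    ∃ N : ℕ, 1 ≤ N ∧ q ∣ N ∧ L ≤ N ∧ Real.sqrt n ≤ N ∧
      (n : ℝ) + 20 * (m ^ 2 * N * Real.log (L + 1)) ≤ m * (N * Real.log N) ∧
      N * Real.log N + 18 * (m ^ 2 * N * Real.log (L + 1)) <
        n / m + 400 * m * n * Real.log (L + 1) / Real.log n := by
  have hm' : (1 : ℝ) ≤ m := by exact_mod_cast hm
  have hL' : (1 : ℝ) ≤ L := by exact_mod_cast hL
  have hq' : (1 : ℝ) ≤ q := by exact_mod_cast hq
  have hqL' : (q : ℝ) ≤ 2 * L := by exact_mod_cast hqL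
  set B := Real.log ((L : ℝ) + 1) with hB
  set l := Real.log (n : ℝ) with hl
  have hB1 : (1 / 2 : ℝ) ≤ B := half_le_log hL
  have hB0 : (0 : ℝ) < B := by linarith
  have hmB : (1 / 2 : ℝ) ≤ m * B := by
    have := mul_le_mul hm' hB1 (by norm_num) (by linarith)
    linarith
  have hl200 : (200 : ℝ) ≤ l := by linarith
  have hn0 : (0 : ℝ) < n := by
    rcases Nat.eq_zero_or_pos n with h0 | h0
    · exfalso
      rw [h0] at hl
      simp at hl
      linarith
    · exact_mod_cast h0
  have hexp : Real.exp l = n := Real.exp_log hn0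
  have hn1 : (1 : ℝ) ≤ n := by
    rw [← hexp]; exact Real.one_le_exp (by linarith)
  set κ := 20 * (m : ℝ) * B with hκ
  have hκl : κ ≤ l / 20 := by rw [hκ]; linarith
  -- the condition
  have hex : ∃ t : ℕ, (n : ℝ) ≤ m * (((q * t : ℕ) : ℝ) * (Real.log ((q * t : ℕ) : ℝ) - κ)) := by
    refine ⟨n, ?_⟩
    push_cast
    have h1 : Real.log ((q : ℝ) * n) = Real.log q + l := Real.log_mul (by linarith) hn0.ne'
    have h2 : 0 ≤ Real.log (q : ℝ) := Real.log_nonneg hq'
    have h3 : (1 : ℝ) ≤ Real.log ((q : ℝ) * n) - κ := by rw [h1]; linarith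
    have h4 : (n : ℝ) ≤ q * n := by nlinarith
    have h5 : (n : ℝ) ≤ (q * n) * (Real.log ((q : ℝ) * n) - κ) := by nlinarith
    nlinarith
  classical
  set t := Nat.find hex with ht
  have hspec := Nat.find_spec hex
  rw [← ht] at hspec
  have ht0 : 1 ≤ t := by
    by_contra hcon
    have : t = 0 := by omega
    rw [this] at hspec
    simp at hspec
    rw [hspec] at hn0
    simp at hn0
  have hmin : ¬ ((n : ℝ) ≤ m * (((q * (t - 1) : ℕ) : ℝ) *
      (Real.log ((q * (t - 1) : ℕ) : ℝ) - κ))) := Nat.find_min hex (by omega)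
  set N := q * t with hN
  set N' := q * (t - 1) with hN'
  have hNN' : N = N' + q := by
    rw [hN, hN']
    conv_lhs => rw [← Nat.sub_add_cancel ht0]
    ring
  have hNN'R : (N : ℝ) = N' + q := by rw [hNN']; push_cast; ring
  have hN1 : 1 ≤ N := Nat.one_le_iff_ne_zero.2 (by positivity)
  have hN1' : (1 : ℝ) ≤ N := by exact_mod_cast hN1
  have hN0 : (0 : ℝ) < N := by linarith
  have hlogN : 0 ≤ Real.log (N : ℝ) := Real.log_nonneg hN1'
  push Not at hmin
  have hf : (n : ℝ) + κ * (m * N) ≤ m * (N * Real.log N) := by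
    have : m * ((N : ℝ) * (Real.log N - κ)) = m * (N * Real.log N) - κ * (m * N) := by ring
    linarith
  -- lower bound for `N`
  set s := Real.exp (l / 2) with hs
  have hss : s * s = n := by
    rw [hs, ← Real.exp_add, ← hexp]
    congr 1
    ring
  have hs0 : 0 < s := Real.exp_pos _
  have hsqrt : Real.sqrt n = s := by
    rw [← hss]; exact Real.sqrt_mul_self hs0.le
  have hNs : s ≤ N := by
    by_contra hcon
    push Not at hcon
    have h1 : Real.log (N : ℝ) ≤ l / 2 := by
      rw [← Real.log_exp (l / 2)]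
      exact Real.log_le_log hN0 hcon.le
    have h2 : (n : ℝ) ≤ m * (N * (l / 2)) := by
      have h3 : (N : ℝ) * Real.log N ≤ N * (l / 2) := mul_le_mul_of_nonneg_left h1 hN0.le
      have h4 : (m : ℝ) * (N * Real.log N) ≤ m * (N * (l / 2)) :=
        mul_le_mul_of_nonneg_left h3 (by linarith)
      have h5 : 0 ≤ κ * (m * N) := by positivity
      linarith
    have h6 : (m : ℝ) ≤ l / 200 := by
      have := mul_le_mul_of_nonneg_left hB1 (by linarith : (0 : ℝ) ≤ 400 * m)
      linarith
    have h7 : m * ((N : ℝ) * (l / 2)) ≤ (l / 200) * (s * (l / 2)) := by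
      refine mul_le_mul h6 ?_ (by positivity) (by linarith)
      exact mul_le_mul_of_nonneg_right hcon.le (by linarith)
    have h8 : l ^ 2 / 8 ≤ s := by
      have := Real.quadratic_le_exp_of_nonneg (x := l / 2) (by linarith)
      rw [hs]
      linarith
    have h9 : s * s ≤ (l / 200) * (s * (l / 2)) := by rw [hss]; linarith
    have h10 : s ≤ (l / 200) * (l / 2) := by
      have : s * s ≤ s * ((l / 200) * (l / 2)) := by linarith
      exact le_of_mul_le_mul_left this hs0
    have h11 : 0 < l ^ 2 := pow_pos (by linarith) 2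
    linarith
  have hlN : l / 2 ≤ Real.log N := by
    rw [← Real.log_exp (l / 2)]
    exact Real.log_le_log hs0 hNs
  -- `L` and `q` are small
  set u := Real.exp (l / 400) with hu
  have hLu : (L : ℝ) + 1 ≤ u := by
    have h1 : B ≤ l / 400 := by
      have := mul_le_mul_of_nonneg_right hm' (by linarith : (0 : ℝ) ≤ 400 * B)
      linarith
    have h2 : Real.exp B = (L : ℝ) + 1 := Real.exp_log (by linarith)
    rw [← h2, hu]
    exact Real.exp_le_exp.2 h1
  have hqu : (q : ℝ) ≤ 2 * u := by linarith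
  -- fourth root of `N`
  set w := Real.exp (Real.log N / 4) with hw
  have hw0 : 0 < w := Real.exp_pos _
  have hw4 : w ^ 4 = N := by
    rw [hw, ← Real.exp_nat_mul]
    have : ((4 : ℕ) : ℝ) * (Real.log N / 4) = Real.log N := by push_cast; ring
    rw [this, Real.exp_log hN0]
  have huw : u ≤ w := by
    rw [hu, hw]
    exact Real.exp_le_exp.2 (by linarith)
  have hw25 : 25 ≤ w := by
    have h1 : Real.log N / 4 + 1 ≤ w := Real.add_one_le_exp _
    linarith
  have hlogw : Real.log N ≤ 4 * w := by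
    have h1 : Real.log N / 4 + 1 ≤ w := Real.add_one_le_exp _
    linarith
  have hw2 : w ^ 2 * 100 ≤ N := by
    have h1 : (25 : ℝ) ^ 2 ≤ w ^ 2 := pow_le_pow_left₀ (by norm_num) hw25 2
    have h2 := mul_le_mul_of_nonneg_left h1 (sq_nonneg w)
    have h3 : w ^ 4 = w ^ 2 * w ^ 2 := by ring
    have h4 := sq_nonneg w
    linarith
  have hww : 25 * w ≤ w ^ 2 := by
    have := mul_le_mul_of_nonneg_right hw25 hw0.le
    linarith [sq w]
  have hqN2 : 2 * (q : ℝ) ≤ N := by
    linarith
  have hLN : (L : ℝ) ≤ N := by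
    linarith
  -- upper bound for `N`
  have hN'0 : (0 : ℝ) < N' := by linarith
  have hN'2 : (N : ℝ) ≤ 2 * N' := by linarith
  have hlN' : 2 / 5 * l ≤ Real.log N' := by
    have h1 : Real.log (N : ℝ) ≤ Real.log (2 * N') := Real.log_le_log hN0 hN'2
    rw [Real.log_mul (by norm_num) hN'0.ne'] at h1
    have := Real.log_two_lt_d9
    linarith
  have hmin2 : (m : ℝ) * (N' * Real.log N') < n + κ * (m * N') := by
    have : m * ((N' : ℝ) * (Real.log N' - κ)) = m * (N' * Real.log N') - κ * (m * N') := by ring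
    linarith
  have hNup : (m : ℝ) * N' * l ≤ 3 * n := by
    have h1 : (m : ℝ) * N' * (7 / 20 * l) ≤ m * (N' * (Real.log N' - κ)) := by
      have : (7 / 20 * l) ≤ Real.log N' - κ := by linarith
      have h2 := mul_le_mul_of_nonneg_left this (by positivity : (0 : ℝ) ≤ m * N')
      linarith
    linarith
  -- the difference of `N log N`
  have hdiff : (N : ℝ) * Real.log N ≤ N' * Real.log N' + q * (Real.log N + 1) := by
    have h1 : Real.log (N : ℝ) - Real.log N' ≤ q / N' := by
      rw [← Real.log_div hN0.ne' hN'0.ne']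
      have h2 : (N : ℝ) / N' = 1 + q / N' := by
        rw [hNN'R]; field_simp
      rw [h2]
      have := Real.log_le_sub_one_of_pos (x := 1 + (q : ℝ) / N') (by positivity)
      linarith
    have h3 : (N' : ℝ) * (Real.log N - Real.log N') ≤ q := by
      have := mul_le_mul_of_nonneg_left h1 hN'0.le
      rwa [mul_div_cancel₀ _ hN'0.ne'] at this
    have h4 : (N : ℝ) * Real.log N = N' * Real.log N + q * Real.log N := by
      have h5 : (N : ℝ) * Real.log N = (N' + q) * Real.log N :=
        congrArg (fun x : ℝ => x * Real.log N) hNN'R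
      rw [h5]; ring
    linarith
  have hqlog : q * (Real.log N + 1) ≤ N / 2 := by
    have h1 : Real.log N + 1 ≤ 5 * w := by linarith
    have h2 : q * (Real.log N + 1) ≤ 2 * w * (5 * w) :=
      mul_le_mul (by linarith) h1 (by linarith) (by linarith)
    have h3 : 2 * w * (5 * w) = 10 * w ^ 2 := by ring
    linarith
  refine ⟨N, hN1, dvd_mul_right _ _, by exact_mod_cast hLN, by rw [hsqrt]; exact hNs, ?_, ?_⟩
  · have : 20 * ((m : ℝ) ^ 2 * N * B) = κ * (m * N) := by rw [hκ]; ring
    linarith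
  · set Z := (m : ℝ) ^ 2 * N * B with hZ
    have hZN : (N : ℝ) / 2 ≤ Z := by
      have h1 : (N : ℝ) * (1 / 2) ≤ N * (m * B) := mul_le_mul_of_nonneg_left hmB hN0.le
      have h2 : (N : ℝ) * (m * B) ≤ Z := by
        have h3 : 1 * ((N : ℝ) * (m * B)) ≤ m * (N * (m * B)) :=
          mul_le_mul_of_nonneg_right hm' (by positivity)
        calc (N : ℝ) * (m * B) = 1 * (N * (m * B)) := (one_mul _).symm
          _ ≤ _ := h3
          _ = Z := by rw [hZ]; ring
      linarith
    have hκZ : κ * (m * N) = 20 * Z := by rw [hκ, hZ]; ring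
    have h1 : (m : ℝ) * (N * Real.log N) ≤ n + 20 * Z + m * Z := by
      have h2 : (m : ℝ) * (N * Real.log N) ≤ m * (N' * Real.log N' + q * (Real.log N + 1)) :=
        mul_le_mul_of_nonneg_left hdiff (by linarith)
      have h3 : (m : ℝ) * (q * (Real.log N + 1)) ≤ m * Z :=
        mul_le_mul_of_nonneg_left (by linarith) (by linarith)
      have h4 : κ * (m * N') ≤ κ * (m * N) := by
        refine mul_le_mul_of_nonneg_left ?_ (by positivity)
        exact mul_le_mul_of_nonneg_left (by linarith) (by linarith)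
      linarith
    have h5 : (N : ℝ) * Real.log N ≤ n / m + 21 * Z := by
      have h6 : (N : ℝ) * Real.log N ≤ (n + 20 * Z + m * Z) / m := by
        rw [le_div_iff₀ (by linarith)]
        linarith
      have h7 : (n + 20 * Z + m * Z) / m = n / m + 20 * (Z / m) + Z := by
        field_simp
      have h8 : Z / m ≤ Z := div_le_self (by positivity) hm'
      linarith
    have h9 : 39 * Z < 400 * m * n * B / l := by
      rw [lt_div_iff₀ (by linarith)]
      have h10 : (m : ℝ) * N * l ≤ 6 * n := by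
        have : (m : ℝ) * N * l ≤ m * (2 * N') * l := by
          refine mul_le_mul_of_nonneg_right ?_ (by linarith)
          exact mul_le_mul_of_nonneg_left hN'2 (by linarith)
        linarith
      have h11 : Z * l = (m * N * l) * (m * B) := by rw [hZ]; ring
      have h12 : Z * l ≤ 6 * n * (m * B) := by
        rw [h11]
        exact mul_le_mul_of_nonneg_right h10 (by linarith)
      have h13 : 0 < n * (m * B) := by positivity
      linarith
    linarith

/-- The main theorem. -/
theorem main (ξ : ℝ) (hξ : ξ ≠ 0) : ∃ n₀ : ℕ, ∀ n ≥ n₀, ∀ m L : ℕ, 1 ≤ m → 1 ≤ L →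
    400 * (m : ℝ) * Real.log (L + 1) ≤ Real.log n →
    ∀ k : Fin (m + 1) → ℕ, Function.Injective k → (∀ j, k j ≤ L) →
    ∃ j, Real.exp (-(n / m + 400 * m * n * Real.log (L + 1) / Real.log n)) ≤
      nint (ξ * Real.exp ((n + k j : ℕ) : ℝ)) := by
  set c := Real.log (|ξ| + 1) with hc
  have hξ0 : 0 < |ξ| := abs_pos.2 hξ
  have hc0 : 0 ≤ c := Real.log_nonneg (by linarith)
  obtain ⟨n₁, hn₁⟩ := exists_nat_ge (c ^ 2 + 1 + 1 / |ξ|)
  refine ⟨n₁ + 1, fun n hn m L hm hL h k hinj hk => ?_⟩
  have hnr : c ^ 2 + 1 + 1 / |ξ| ≤ n := hn₁.trans (by exact_mod_cast (by omega : n₁ ≤ n))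
  have hn0 : (0 : ℝ) < n := by
    have : 0 < 1 / |ξ| := by positivity
    nlinarith
  by_contra hcon
  push Not at hcon
  have hmL : m ≤ L := by
    have h1 := Fintype.card_le_of_injective (fun j => (⟨k j, Nat.lt_succ_of_le (hk j)⟩ : Fin (L + 1)))
      (fun i j hij => hinj (by simpa using hij))
    simpa using h1
  have hm' : (1 : ℝ) ≤ m := by exact_mod_cast hm
  obtain ⟨q, hqp, hq1, hq2⟩ := Nat.exists_prime_lt_and_le_two_mul L (by omega)
  have : Fact q.Prime := ⟨hqp⟩
  obtain ⟨N, hN1, hqN, hLN, hsN, hN2, hN3⟩ := exists_N n m L q hm hL hqp.one_le hq2 h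
  set δ := Real.exp (-(n / m + 400 * m * n * Real.log (L + 1) / Real.log n)) with hδ
  have hδ0 : 0 < δ := Real.exp_pos _
  have hln : 0 < Real.log n := by
    have := half_le_log hL
    nlinarith
  have hδ1 : δ ≤ 1 := by
    rw [hδ]
    refine Real.exp_le_one_iff.2 ?_
    have := half_le_log hL
    have : 0 ≤ (n : ℝ) / m + 400 * m * n * Real.log (L + 1) / Real.log n := by positivity
    linarith
  -- the integers
  have hy : ∀ j, |((round (ξ * Real.exp ((n + k j : ℕ) : ℝ)) : ℤ) : ℝ) -
      (ξ * Real.exp n) * Real.exp (k j)| ≤ δ := by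
    intro j
    have h1 := (hcon j).le
    rw [nint, abs_sub_comm] at h1
    have h2 : ξ * Real.exp ((n + k j : ℕ) : ℝ) = (ξ * Real.exp n) * Real.exp (k j) := by
      push_cast
      rw [Real.exp_add]
      ring
    rw [h2] at h1 ⊢
    exact h1
  have hξn : 1 < |ξ| * Real.exp n := by
    have h1 : (n : ℝ) + 1 ≤ Real.exp n := Real.add_one_le_exp _
    have h2 : 1 / |ξ| < Real.exp n := by nlinarith
    rwa [div_lt_iff₀ hξ0, mul_comm] at h2
  have ha : ∃ i, round (ξ * Real.exp ((n + k i : ℕ) : ℝ)) ≠ 0 := by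
    refine ⟨0, fun h0 => ?_⟩
    have h1 := hy 0
    rw [h0, Int.cast_zero, zero_sub, abs_neg, abs_mul, abs_mul, abs_of_pos (Real.exp_pos _),
      abs_of_pos (Real.exp_pos _)] at h1
    have h2 : (1 : ℝ) ≤ Real.exp (k 0) := Real.one_le_exp (Nat.cast_nonneg _)
    nlinarith
  have hT : |((round (ξ * Real.exp ((n + k 0 : ℕ) : ℝ)) : ℤ) : ℝ)| ≤
      (|ξ| + 1) * Real.exp (n + L) := by
    have h1 := hy 0
    have h2 : |(ξ * Real.exp n) * Real.exp (k 0)| ≤ |ξ| * Real.exp (n + L) := by
      rw [abs_mul, abs_mul, abs_of_pos (Real.exp_pos _), abs_of_pos (Real.exp_pos _), mul_assoc,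
        ← Real.exp_add]
      refine mul_le_mul_of_nonneg_left (Real.exp_le_exp.2 ?_) hξ0.le
      have : (k 0 : ℝ) ≤ L := by exact_mod_cast hk 0
      linarith
    have h3 : (1 : ℝ) ≤ Real.exp (n + L) := Real.one_le_exp (by positivity)
    have h4 := abs_sub_abs_le_abs_sub (((round (ξ * Real.exp ((n + k 0 : ℕ) : ℝ)) : ℤ) : ℝ))
      ((ξ * Real.exp n) * Real.exp (k 0))
    linarith
  have hd := dich m L N q hm hmL hLN hqN hq1 k hinj hk _ ha (ξ * Real.exp n) δ hδ0 hy
    ((|ξ| + 1) * Real.exp (n + L)) (by positivity) hT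
  rcases hd with hd | hd
  · rw [Real.log_mul (by positivity) (Real.exp_pos _).ne', Real.log_exp, ← hc] at hd
    have hB1 := half_le_log hL
    have hLN' : (L : ℝ) ≤ N := by exact_mod_cast hLN
    have hN1' : (1 : ℝ) ≤ N := by exact_mod_cast hN1
    have hcN : c < N := by
      have h1 : c < Real.sqrt n := by
        refine Real.lt_sqrt_of_sq_lt ?_
        have : 0 < 1 / |ξ| := by positivity
        linarith
      linarith
    have h2 : (N : ℝ) ≤ 2 * (m ^ 2 * N * Real.log (L + 1)) := by
      have h3 : (N : ℝ) * 1 ≤ N * (m ^ 2) := mul_le_mul_of_nonneg_left (by nlinarith) (by linarith)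
      have h4 : (m : ℝ) ^ 2 * N * (1 / 2) ≤ m ^ 2 * N * Real.log (L + 1) :=
        mul_le_mul_of_nonneg_left hB1 (by positivity)
      linarith
    linarith
  · rw [hδ, Real.log_exp, neg_neg] at hd
    linarith

end ExpFrac
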