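import Pool.Agent.ExpFrac.CoreB
import Pool.Agent.ExpFrac.Count

/-!
The inhomogeneous window theorem: at most `m + 1` integers in a short interval for which the
distance of `ξ exp k - β` to the nearest integer is exponentially small, uniformly in `β`.
-/

set_option autoImplicit false

open Polynomial Finset
open scoped Nat

namespace ExpFrac

theorem one_le_log_three : (1 : ℝ) ≤ Real.log 3 := by
  have h := Real.exp_one_lt_d9
  rw [Real.le_log_iff_exp_le (by norm_num)]
  linarith

theorem mainB (ξ : ℝ) (hξ : ξ ≠ 0) : ∃ n₀ : ℕ, ∀ n ≥ n₀, ∀ m L : ℕ, 1 ≤ m → 1 ≤ L →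
    400 * (m : ℝ) * Real.log (L + 1) ≤ Real.log n →
    ∀ (β : ℝ) (k : Option (Fin (m + 1)) → ℕ), Function.Injective k → (∀ j, k j ≤ L) →
    (∀ j, k none < k (some j)) →
    ∃ j, Real.exp (-(2 * rate n m L)) ≤ nint (ξ * Real.exp ((n + k j : ℕ) : ℝ) - β) := by
  set c := Real.log (|ξ| + 1) with hc
  have hξ0 : 0 < |ξ| := abs_pos.2 hξ
  have hc0 : 0 ≤ c := Real.log_nonneg (by linarith)
  obtain ⟨n₁, hn₁⟩ := exists_nat_ge (c ^ 2 + 1 + 1 / |ξ|)
  refine ⟨n₁ + 1, fun n hn m L hm hL h β k hinj hk hk0 => ?_⟩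
  have hnr : c ^ 2 + 1 + 1 / |ξ| ≤ n := hn₁.trans (by exact_mod_cast (by omega : n₁ ≤ n))
  have hn0 : (0 : ℝ) < n := by
    have : 0 < 1 / |ξ| := by positivity
    nlinarith
  by_contra hcon
  push Not at hcon
  have hmL2 : m + 1 ≤ L := by
    have h1 := Fintype.card_le_of_injective (fun j => (⟨k j, Nat.lt_succ_of_le (hk j)⟩ : Fin (L + 1)))
      (fun i j hij => hinj (by simpa using hij))
    simpa using h1
  have hm' : (1 : ℝ) ≤ m := by exact_mod_cast hm
  obtain ⟨q, hqp, hq1, hq2⟩ := Nat.exists_prime_lt_and_le_two_mul L (by omega)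
  have : Fact q.Prime := ⟨hqp⟩
  obtain ⟨N, hN1, hqN, hLN, hsN, hN2, hN3⟩ := exists_N n m L q hm hL hqp.one_le hq2 h
  have hN3' : N * Real.log N + 18 * (m ^ 2 * N * Real.log (L + 1)) < rate n m L := hN3
  have hB1 : (1 : ℝ) ≤ Real.log (L + 1) := by
    refine one_le_log_three.trans (Real.log_le_log (by norm_num) ?_)
    have : ((2 : ℕ) : ℝ) ≤ L := by exact_mod_cast (by omega : 2 ≤ L)
    push_cast at this
    linarith
  have hLN' : (L : ℝ) ≤ N := by exact_mod_cast hLN
  have hN1' : (1 : ℝ) ≤ N := by exact_mod_cast hN1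
  have hZ : (N : ℝ) ≤ m ^ 2 * N * Real.log (L + 1) := by
    have h3 : (N : ℝ) * 1 ≤ N * (m ^ 2) := mul_le_mul_of_nonneg_left (by nlinarith) (by linarith)
    have h4 : (m : ℝ) ^ 2 * N * 1 ≤ m ^ 2 * N * Real.log (L + 1) :=
      mul_le_mul_of_nonneg_left hB1 (by positivity)
    linarith
  have hlogN : 0 ≤ Real.log (N : ℝ) := Real.log_nonneg hN1'
  have hrate : 1 ≤ rate n m L := by
    have : 0 ≤ N * Real.log N := by positivity
    linarith
  set δ₀ := Real.exp (-(2 * rate n m L)) with hδ₀
  have hδ₀0 : 0 < δ₀ := Real.exp_pos _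
  have hδ₀1 : 2 * δ₀ ≤ 1 := by
    have h1 : δ₀ ≤ Real.exp (-1) := Real.exp_le_exp.2 (by linarith)
    have h2 := Real.exp_neg_one_lt_d9
    linarith
  -- the integers
  set a : Option (Fin (m + 1)) → ℤ := fun j => round (ξ * Real.exp ((n + k j : ℕ) : ℝ) - β) with ha
  have hy0 : ∀ j, |(a j : ℝ) - ((ξ * Real.exp n) * Real.exp (k j) - β)| ≤ δ₀ := by
    intro j
    have h1 := (hcon j).le
    rw [nint, abs_sub_comm] at h1
    have h2 : ξ * Real.exp ((n + k j : ℕ) : ℝ) = (ξ * Real.exp n) * Real.exp (k j) := by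
      push_cast
      rw [Real.exp_add]
      ring
    simp only [ha]
    rw [h2] at h1 ⊢
    exact h1
  have hy : ∀ j : Fin (m + 1), |((a (some j) - a none : ℤ) : ℝ) -
      (ξ * Real.exp n) * (Real.exp (k (some j)) - Real.exp (k none))| ≤ 2 * δ₀ := by
    intro j
    have h1 := hy0 (some j)
    have h2 := hy0 none
    push_cast
    have e : (a (some j) : ℝ) - a none -
        (ξ * Real.exp n) * (Real.exp (k (some j)) - Real.exp (k none)) =
        ((a (some j) : ℝ) - ((ξ * Real.exp n) * Real.exp (k (some j)) - β)) -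
        ((a none : ℝ) - ((ξ * Real.exp n) * Real.exp (k none) - β)) := by ring
    rw [e]
    refine (abs_sub _ _).trans ?_
    linarith
  have hξn : 1 < |ξ| * Real.exp n := by
    have h1 : (n : ℝ) + 1 ≤ Real.exp n := Real.add_one_le_exp _
    have h2 : 1 / |ξ| < Real.exp n := by nlinarith
    rwa [div_lt_iff₀ hξ0, mul_comm] at h2
  have hE1 : ∀ j, 1 ≤ Real.exp (k (some j)) - Real.exp (k none) := by
    intro j
    have h2 : (k none : ℝ) + 1 ≤ k (some j) := by exact_mod_cast hk0 j
    have h3 := Real.exp_le_exp.2 h2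
    rw [Real.exp_add] at h3
    have h4 : (1 : ℝ) ≤ Real.exp (k none) := Real.one_le_exp (Nat.cast_nonneg _)
    have h5 := Real.exp_one_gt_d9
    nlinarith
  have hb : ∃ i : Fin (m + 1), a (some i) - a none ≠ 0 := by
    refine ⟨0, fun h0 => ?_⟩
    have h1 := hy 0
    have hEa : |Real.exp (k (some 0)) - Real.exp (k none)| =
        Real.exp (k (some 0)) - Real.exp (k none) := abs_of_pos (by linarith [hE1 0])
    rw [h0, Int.cast_zero, zero_sub, abs_neg, abs_mul, abs_mul, abs_of_pos (Real.exp_pos _),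
      hEa] at h1
    have h2 := hE1 0
    nlinarith
  have hT : |((a (some 0) - a none : ℤ) : ℝ)| ≤ (|ξ| + 1) * Real.exp (n + L) := by
    have h1 := hy 0
    have h2 : |(ξ * Real.exp n) * (Real.exp (k (some 0)) - Real.exp (k none))| ≤
        |ξ| * Real.exp (n + L) := by
      have hEa : |Real.exp (k (some 0)) - Real.exp (k none)| =
          Real.exp (k (some 0)) - Real.exp (k none) := abs_of_pos (by linarith [hE1 0])
      rw [abs_mul, abs_mul, abs_of_pos (Real.exp_pos _), hEa, Real.exp_add, mul_assoc]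
      refine mul_le_mul_of_nonneg_left (mul_le_mul_of_nonneg_left ?_ (Real.exp_pos _).le) hξ0.le
      have h5 : Real.exp (k (some 0)) ≤ Real.exp L :=
        Real.exp_le_exp.2 (by exact_mod_cast hk (some 0))
      have h6 := Real.exp_pos (k none : ℝ)
      linarith
    have h3 : (1 : ℝ) ≤ Real.exp (n + L) := Real.one_le_exp (by positivity)
    have h4 := abs_sub_abs_le_abs_sub (((a (some 0) - a none : ℤ) : ℝ))
      ((ξ * Real.exp n) * (Real.exp (k (some 0)) - Real.exp (k none)))
    linarith
  have hd := dichB m L N q hm (by omega) hmL2 hLN hqN hq1 k hinj hk hk0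
    (fun j => a (some j) - a none) hb (ξ * Real.exp n) (2 * δ₀) (by linarith) hy
    ((|ξ| + 1) * Real.exp (n + L)) (by positivity) hT
  rcases hd with hd | hd
  · rw [Real.log_mul (by positivity) (Real.exp_pos _).ne', Real.log_exp, ← hc] at hd
    have hcN : c < N := by
      have h1 : c < Real.sqrt n := by
        refine Real.lt_sqrt_of_sq_lt ?_
        have : 0 < 1 / |ξ| := by positivity
        linarith
      linarith
    linarith
  · rw [Real.log_mul (by norm_num) hδ₀0.ne', hδ₀, Real.log_exp] at hd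
    have h2 : Real.log 2 ≤ 1 := by linarith [Real.log_two_lt_d9]
    linarith

/-- Windows, inhomogeneous case: at most `m + 1` exceptions. -/
theorem windowB (ξ : ℝ) (hξ : ξ ≠ 0) : ∃ n₀ : ℕ, ∀ n ≥ n₀, ∀ m L : ℕ, 1 ≤ m → 1 ≤ L →
    400 * (m : ℝ) * Real.log (L + 1) ≤ Real.log n → ∀ β : ℝ,
    {k : ℕ | n ≤ k ∧ k ≤ n + L ∧
      nint (ξ * Real.exp k - β) < Real.exp (-(2 * rate n m L))}.ncard ≤ m + 1 := by
  obtain ⟨n₀, h₀⟩ := mainB ξ hξ
  refine ⟨n₀, fun n hn m L hm hL h β => ?_⟩
  set S := {k : ℕ | n ≤ k ∧ k ≤ n + L ∧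
    nint (ξ * Real.exp k - β) < Real.exp (-(2 * rate n m L))} with hS
  have hfin : S.Finite := (Set.finite_Icc n (n + L)).subset fun k hk => ⟨hk.1, hk.2.1⟩
  by_contra hcon
  push Not at hcon
  have h1 : m + 1 + 1 ≤ hfin.toFinset.card := by
    rw [← Set.ncard_eq_toFinset_card S hfin]; exact hcon
  set f := Finset.orderEmbOfCardLe hfin.toFinset h1 with hf
  have hfS : ∀ j, f j ∈ S := fun j =>
    hfin.mem_toFinset.1 (Finset.orderEmbOfCardLe_mem hfin.toFinset h1 j)
  set g : Option (Fin (m + 1)) → ℕ := fun j => match j with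
    | none => f 0 - n
    | some i => f i.succ - n with hg
  have g0 : n + g none = f 0 := by
    have := (hfS 0).1
    simp only [hg]
    omega
  have g1 : ∀ i : Fin (m + 1), n + g (some i) = f i.succ := by
    intro i
    have := (hfS i.succ).1
    simp only [hg]
    omega
  have hlt : ∀ i : Fin (m + 1), g none < g (some i) := by
    intro i
    have h2 : f 0 < f i.succ := f.strictMono (Fin.succ_pos i)
    have := g0
    have := g1 i
    omega
  obtain ⟨j, hj⟩ := h₀ n hn m L hm hL h β g (by
      intro i j hij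
      match i, j with
      | none, none => rfl
      | none, some j => exact absurd hij (hlt j).ne
      | some i, none => exact absurd hij (hlt i).ne'
      | some i, some j =>
        have h3 := g1 i
        have h4 := g1 j
        rw [hij] at h3
        have h5 : f i.succ = f j.succ := by omega
        rw [Fin.succ_injective _ (f.injective h5)]) (by
      intro j
      match j with
      | none =>
        have h3 := (hfS 0).2.1
        have := g0
        omega
      | some i =>
        have h3 := (hfS i.succ).2.1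
        have := g1 i
        omega) hlt
  have hjS : n + g j ∈ S := by
    match j with
    | none => rw [g0]; exact hfS 0
    | some i => rw [g1 i]; exact hfS i.succ
  exact absurd hjS.2.2 (not_lt.2 hj)

end ExpFrac
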