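import Pool.Agent.ExpFrac.Grid
import Pool.Agent.ExpFrac.Count

/-!
Pigeonhole: dense sets contain `x i + y j`.
-/

set_option autoImplicit false

open Finset Filter

namespace ExpFrac

/-- A pattern inside a block. -/
theorem exists_pattern (T : Set ℕ) (s K L : ℕ) (h : K + 1 ≤ (T ∩ Set.Icc s (s + L)).ncard) :
    ∃ y : Option (Fin K) → Fin (L + 1), Function.Injective y ∧
      (∀ i, (y none : ℕ) < y (some i)) ∧ ∀ j, s + (y j : ℕ) ∈ T := by
  have hfin : (T ∩ Set.Icc s (s + L)).Finite := (Set.finite_Icc _ _).subset Set.inter_subset_right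
  have h1 : K + 1 ≤ hfin.toFinset.card := by
    rw [← Set.ncard_eq_toFinset_card _ hfin]; exact h
  set f := Finset.orderEmbOfCardLe hfin.toFinset h1 with hf
  have hfS : ∀ j, f j ∈ T ∩ Set.Icc s (s + L) := fun j =>
    hfin.mem_toFinset.1 (Finset.orderEmbOfCardLe_mem hfin.toFinset h1 j)
  set g : Option (Fin K) → Fin (K + 1) := fun j => match j with
    | none => 0
    | some i => i.succ with hg
  have hginj : Function.Injective g := by
    intro i j hij
    match i, j with
    | none, none => rfl
    | none, some j => exact absurd hij (Fin.succ_ne_zero j).symm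
    | some i, none => exact absurd hij (Fin.succ_ne_zero i)
    | some i, some j => rw [Fin.succ_injective _ hij]
  have hlt : ∀ j : Option (Fin K), f (g j) - s < L + 1 := by
    intro j
    have := (hfS (g j)).2.2
    omega
  have hadd : ∀ j : Option (Fin K), s + (f (g j) - s) = f (g j) := by
    intro j
    have := (hfS (g j)).2.1
    omega
  refine ⟨fun j => ⟨f (g j) - s, hlt j⟩, ?_, ?_, ?_⟩
  · intro i j hij
    have h3 : f (g i) - s = f (g j) - s := by simpa using hij
    have h4 := hadd i
    have h5 := hadd j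
    have h6 : f (g i) = f (g j) := by omega
    exact hginj (f.injective h6)
  · intro i
    have h3 : f (g none) < f (g (some i)) := f.strictMono (Fin.succ_pos i)
    have h4 := hadd none
    have h5 := hadd (some i)
    show f (g none) - s < f (g (some i)) - s
    omega
  · intro j
    show s + (f (g j) - s) ∈ T
    rw [hadd j]
    exact (hfS (g j)).1

theorem pigeon (T : Set ℕ) (n K K' L b : ℕ) (hK'1 : 1 ≤ K') (hb : b = K' * (L + 1) ^ (K + 2))
    (h : ∀ (y : Option (Fin K) → ℕ) (x : Fin K' → ℕ), Function.Injective y → (∀ j, y j ≤ L) →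
      (∀ i, y none < y (some i)) → Function.Injective x → (∀ i, x i ≤ b * (L + 1) - 1) →
      ∃ i j, n + x i + y j ∉ T) :
    (T ∩ Set.Icc n (n + (b * (L + 1) - 1))).ncard ≤ (K + 1) * b := by
  classical
  set blk : ℕ → Set ℕ := fun i => T ∩ Set.Icc (n + i * (L + 1)) (n + i * (L + 1) + L) with hblk
  have hblkfin : ∀ i, (blk i).Finite := fun i => (Set.finite_Icc _ _).subset Set.inter_subset_right
  set good := (Finset.range b).filter (fun i => K + 1 ≤ (blk i).ncard) with hgood
  have hcard : good.card ≤ K' * (L + 1) ^ (K + 1) := by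
    by_contra hcon
    push Not at hcon
    have hpat : ∀ i : ℕ, ∃ y : Option (Fin K) → Fin (L + 1), i ∈ good → (Function.Injective y ∧
      (∀ a, (y none : ℕ) < y (some a)) ∧ ∀ j, n + i * (L + 1) + (y j : ℕ) ∈ T) := by
      intro i
      by_cases hi : i ∈ good
      · obtain ⟨y, hy⟩ := exists_pattern T (n + i * (L + 1)) K L (Finset.mem_filter.1 hi).2
        exact ⟨y, fun _ => hy⟩
      · exact ⟨fun _ => 0, fun h => absurd h hi⟩
    choose p hp using hpat
    have hcu : (Finset.univ : Finset (Option (Fin K) → Fin (L + 1))).card * K' < good.card := by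
      rw [Finset.card_univ, Fintype.card_fun, Fintype.card_option, Fintype.card_fin,
        Fintype.card_fin, mul_comm]
      exact hcon
    obtain ⟨y, -, hy⟩ := Finset.exists_lt_card_fiber_of_mul_lt_card_of_maps_to
      (f := p) (s := good) (t := Finset.univ) (fun a _ => Finset.mem_univ _) hcu
    set F := good.filter (fun i => p i = y) with hF
    have hFc : K' ≤ F.card := hy.le
    set e := Finset.orderEmbOfCardLe F hFc with he
    have heF : ∀ i, e i ∈ F := fun i => Finset.orderEmbOfCardLe_mem F hFc i
    have heg : ∀ i, e i ∈ good := fun i => (Finset.mem_filter.1 (heF i)).1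
    have hep : ∀ i, p (e i) = y := fun i => (Finset.mem_filter.1 (heF i)).2
    have i₀ : Fin K' := ⟨0, by omega⟩
    have hprop := hp (e i₀) (heg i₀)
    rw [hep i₀] at hprop
    obtain ⟨i, j, hij⟩ := h (fun j => (y j : ℕ)) (fun i => e i * (L + 1))
      (fun a c hac => hprop.1 (Fin.ext hac)) (fun j => Nat.lt_succ_iff.1 (y j).2) hprop.2.1
      (fun a c hac => by
        have h3 : e a = e c := Nat.eq_of_mul_eq_mul_right (Nat.succ_pos L) hac
        exact e.injective h3) (fun i => by
        have h3 : e i < b := Finset.mem_range.1 (Finset.mem_filter.1 (heg i)).1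
        have h4 : (e i + 1) * (L + 1) ≤ b * (L + 1) := Nat.mul_le_mul_right _ h3
        have h5 : (e i + 1) * (L + 1) = e i * (L + 1) + (L + 1) := by ring
        show e i * (L + 1) ≤ b * (L + 1) - 1
        omega)
    have h6 := (hp (e i) (heg i)).2.2 j
    rw [hep i] at h6
    exact hij h6
  have hsub : T ∩ Set.Icc n (n + (b * (L + 1) - 1)) ⊆ ⋃ i ∈ Finset.range b, blk i := by
    rintro k ⟨hk1, hk2, hk3⟩
    rw [Set.mem_iUnion₂]
    have hb0 : 0 < b := by
      rw [hb]
      exact Nat.mul_pos hK'1 (Nat.pow_pos (Nat.succ_pos L))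
    have h1 : (k - n) / (L + 1) * (L + 1) ≤ k - n := Nat.div_mul_le_self _ _
    have h2 : k - n < ((k - n) / (L + 1) + 1) * (L + 1) := by
      have := Nat.lt_div_mul_add (a := k - n) (b := L + 1) (by omega)
      linarith
    have h2' : ((k - n) / (L + 1) + 1) * (L + 1) = (k - n) / (L + 1) * (L + 1) + (L + 1) := by
      ring
    have hpos : 1 ≤ b * (L + 1) := Nat.mul_pos hb0 (Nat.succ_pos L)
    refine ⟨(k - n) / (L + 1), ?_, hk1, ?_, ?_⟩
    · rw [Finset.mem_range, Nat.div_lt_iff_lt_mul (by omega : 0 < L + 1)]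
      omega
    · omega
    · omega
  refine (Set.ncard_le_ncard hsub
    (Set.Finite.biUnion (Finset.finite_toSet _) fun i _ => hblkfin i)).trans ?_
  have hbi : ∀ s : Finset ℕ, (⋃ i ∈ s, blk i).ncard ≤ ∑ i ∈ s, (blk i).ncard := by
    intro s
    induction s using Finset.induction_on with
    | empty => simp
    | insert a s ha ih =>
      rw [Finset.set_biUnion_insert, Finset.sum_insert ha]
      exact (Set.ncard_union_le _ _).trans (Nat.add_le_add_left ih _)
  refine (hbi _).trans ?_
  have hle : ∀ i ∈ Finset.range b, (blk i).ncard ≤ (if i ∈ good then L + 1 else 0) + K := by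
    intro i hi
    by_cases hg : i ∈ good
    · rw [if_pos hg]
      have h3 : (blk i).ncard ≤ (Set.Icc (n + i * (L + 1)) (n + i * (L + 1) + L)).ncard :=
        Set.ncard_le_ncard Set.inter_subset_right (Set.finite_Icc _ _)
      have h4 : (Set.Icc (n + i * (L + 1)) (n + i * (L + 1) + L)).ncard = L + 1 := by
        rw [Set.ncard_eq_toFinset_card', Set.toFinset_Icc, Nat.card_Icc]
        omega
      omega
    · rw [if_neg hg]
      have h3 : ¬ (K + 1 ≤ (blk i).ncard) := fun h4 => hg (Finset.mem_filter.2 ⟨hi, h4⟩)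
      omega
  refine (Finset.sum_le_sum hle).trans ?_
  rw [Finset.sum_add_distrib, Finset.sum_ite_mem, Finset.sum_const, Finset.sum_const,
    Finset.card_range, smul_eq_mul, smul_eq_mul]
  have h5 : (Finset.range b ∩ good).card ≤ K' * (L + 1) ^ (K + 1) :=
    (Finset.card_le_card Finset.inter_subset_right).trans hcard
  have h6 : (Finset.range b ∩ good).card * (L + 1) ≤ K' * (L + 1) ^ (K + 1) * (L + 1) :=
    Nat.mul_le_mul_right _ h5
  have h7 : K' * (L + 1) ^ (K + 1) * (L + 1) = b := by rw [hb]; ring
  calc _ ≤ b + b * K := by rw [h7] at h6; exact Nat.add_le_add_right h6 _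
    _ = (K + 1) * b := by ring

end ExpFrac
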