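import Mathlib

/-!
Hermite polynomials with prescribed zeros: sums of derivatives at the nodes modulo `N`.
-/

set_option autoImplicit false

open Polynomial Finset
open scoped Nat

namespace ExpFrac

variable {ι : Type} [Fintype ι] [DecidableEq ι]

/-- The product of `(X - k j)^N` over all `j`, with exponent `N - 1` for `j = l`. -/
noncomputable def P (N : ℕ) (k : ι → ℕ) (l : ι) : ℤ[X] :=
  (X - C (k l : ℤ)) ^ (N - 1) * ∏ j ∈ univ.erase l, (X - C (k j : ℤ)) ^ N

theorem fac_succ {N : ℕ} (hN : 0 < N) : N ! = (N - 1)! * N := by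
  obtain ⟨n, rfl⟩ : ∃ n, N = n + 1 := ⟨N - 1, by omega⟩
  rw [Nat.factorial_succ, Nat.add_sub_cancel, mul_comm]

theorem exists_W (N : ℕ) (hN : 0 < N) (k : ι → ℕ) (l : ι) :
    ∃ W : ι → ℤ, (∀ j, eval (k j : ℤ) (sumIDeriv (P N k l)) = ((N - 1)! : ℤ) * W j) ∧
      (∀ j, j ≠ l → (N : ℤ) ∣ W j) ∧
      (N : ℤ) ∣ W l - ∏ j ∈ univ.erase l, ((k l : ℤ) - k j) ^ N := by
  have hfac : ((N ! : ℕ) : ℤ) = ((N - 1)! : ℤ) * N := by exact_mod_cast fac_succ hN
  obtain ⟨g, -, hg⟩ := eval_sumIDeriv_of_pos (P N k l) hN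
  obtain ⟨h, -, hh⟩ := aeval_sumIDeriv (R := ℤ) ℤ (P N k l) N
  have e1 : ∀ j, j ≠ l → eval (k j : ℤ) (sumIDeriv (P N k l)) =
      ((N - 1)! : ℤ) * (N * eval (k j : ℤ) h) := by
    intro j hj
    have := hh (k j : ℤ) (by
      rw [Algebra.algebraMap_self, Polynomial.map_id]
      exact Dvd.dvd.mul_left (Finset.dvd_prod_of_mem (fun j => (X - C (k j : ℤ)) ^ N)
        (mem_erase.2 ⟨hj, mem_univ j⟩)) _)
    rw [coe_aeval_eq_eval, nsmul_eq_mul, hfac] at this
    rw [this]
    ring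
  have e2 : eval (k l : ℤ) (sumIDeriv (P N k l)) =
      ((N - 1)! : ℤ) * (∏ j ∈ univ.erase l, ((k l : ℤ) - k j) ^ N + N * eval (k l : ℤ) g) := by
    have := hg (k l : ℤ) (p' := ∏ j ∈ univ.erase l, (X - C (k j : ℤ)) ^ N) rfl
    rw [this, eval_prod, nsmul_eq_mul, nsmul_eq_mul, hfac]
    simp only [eval_pow, eval_sub, eval_X, eval_C]
    ring
  refine ⟨fun j => if j = l then ∏ j ∈ univ.erase l, ((k l : ℤ) - k j) ^ N +
      N * eval (k l : ℤ) g else N * eval (k j : ℤ) h, ?_, ?_, ?_⟩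
  · intro j
    by_cases hj : j = l
    · subst hj
      simp only [if_true]
      exact e2
    · simp only [if_neg hj]
      exact e1 j hj
  · intro j hj
    simp only [if_neg hj]
    exact dvd_mul_right _ _
  · simp only [if_true]
    rw [add_sub_cancel_left]
    exact dvd_mul_right _ _

theorem natDegree_P_le (N : ℕ) (k : ι → ℕ) (l : ι) :
    (P N k l).natDegree ≤ Fintype.card ι * N := by
  rw [P]
  refine (natDegree_mul_le).trans ?_
  have h1 : ((X - C (k l : ℤ)) ^ (N - 1)).natDegree ≤ N := by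
    refine natDegree_pow_le.trans ?_
    rw [natDegree_X_sub_C]
    omega
  have h2 : (∏ j ∈ univ.erase l, (X - C (k j : ℤ)) ^ N).natDegree ≤
      (Fintype.card ι - 1) * N := by
    refine (natDegree_prod_le _ _).trans ?_
    calc ∑ j ∈ univ.erase l, ((X - C (k j : ℤ)) ^ N).natDegree
        ≤ ∑ _j ∈ univ.erase l, N := by
          refine Finset.sum_le_sum (fun j _ => natDegree_pow_le.trans ?_)
          rw [natDegree_X_sub_C]
          omega
      _ = (Fintype.card ι - 1) * N := by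
          rw [sum_const, card_erase_of_mem (mem_univ l), card_univ, smul_eq_mul]
  have h3 : 1 ≤ Fintype.card ι := Fintype.card_pos_iff.2 ⟨l⟩
  calc _ ≤ N + (Fintype.card ι - 1) * N := add_le_add h1 h2
    _ = (1 + (Fintype.card ι - 1)) * N := by ring
    _ = Fintype.card ι * N := by rw [Nat.add_sub_cancel' h3]

/-- Size of the polynomial on `[0, L]`. -/
theorem abs_eval_P_le (N : ℕ) (k : ι → ℕ) (l : ι) (L : ℝ) (hL : 1 ≤ L) (hk : ∀ j, (k j : ℝ) ≤ L)
    (x : ℝ) (hx0 : 0 ≤ x) (hxL : x ≤ L) :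
    |eval x ((P N k l).map (Int.castRingHom ℝ))| ≤ L ^ (Fintype.card ι * N) := by
  have hf : ∀ j : ι, |x - (k j : ℝ)| ≤ L := by
    intro j
    rw [abs_le]
    constructor
    · have := hk j
      linarith
    · have : (0 : ℝ) ≤ k j := Nat.cast_nonneg _
      linarith
  have h3 : 1 ≤ Fintype.card ι := Fintype.card_pos_iff.2 ⟨l⟩
  rw [P, Polynomial.map_mul, eval_mul, abs_mul, Polynomial.map_pow, Polynomial.map_prod, eval_pow,
    eval_prod, abs_prod, abs_pow]
  have h1 : |eval x (Polynomial.map (Int.castRingHom ℝ) (X - C (k l : ℤ)))| ^ (N - 1) ≤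
      L ^ (N - 1) := by
    refine pow_le_pow_left₀ (abs_nonneg _) ?_ _
    simpa using hf l
  have h2 : ∏ j ∈ univ.erase l, |eval x (Polynomial.map (Int.castRingHom ℝ)
      ((X - C (k j : ℤ)) ^ N))| ≤ L ^ ((Fintype.card ι - 1) * N) := by
    calc ∏ j ∈ univ.erase l, |eval x (Polynomial.map (Int.castRingHom ℝ)
        ((X - C (k j : ℤ)) ^ N))| ≤ ∏ _j ∈ univ.erase l, L ^ N := by
          refine Finset.prod_le_prod (fun _ _ => abs_nonneg _) (fun j _ => ?_)
          rw [Polynomial.map_pow, eval_pow, abs_pow]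
          refine pow_le_pow_left₀ (abs_nonneg _) ?_ _
          simpa using hf j
      _ = L ^ ((Fintype.card ι - 1) * N) := by
          rw [prod_const, card_erase_of_mem (mem_univ l), card_univ, ← pow_mul, mul_comm N]
  calc _ ≤ L ^ (N - 1) * L ^ ((Fintype.card ι - 1) * N) :=
        mul_le_mul h1 h2 (Finset.prod_nonneg fun _ _ => abs_nonneg _) (by positivity)
    _ = L ^ (N - 1 + (Fintype.card ι - 1) * N) := by rw [pow_add]
    _ ≤ L ^ (Fintype.card ι * N) := by
        refine pow_le_pow_right₀ hL ?_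
        calc N - 1 + (Fintype.card ι - 1) * N ≤ N + (Fintype.card ι - 1) * N := by omega
          _ = (1 + (Fintype.card ι - 1)) * N := by ring
          _ = Fintype.card ι * N := by rw [Nat.add_sub_cancel' h3]

/-- Domination of coefficients. -/
def Dom (p q : ℤ[X]) : Prop := ∀ d, |p.coeff d| ≤ q.coeff d

theorem Dom.mul {p q p' q' : ℤ[X]} (h : Dom p q) (h' : Dom p' q') : Dom (p * p') (q * q') := by
  intro d
  rw [coeff_mul, coeff_mul]
  refine (abs_sum_le_sum_abs _ _).trans (sum_le_sum fun x _ => ?_)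
  rw [abs_mul]
  exact mul_le_mul (h _) (h' _) (abs_nonneg _) ((abs_nonneg _).trans (h _))

theorem Dom.one : Dom 1 1 := by
  intro d
  rw [coeff_one]
  split_ifs <;> simp

theorem Dom.pow {p q : ℤ[X]} (h : Dom p q) (n : ℕ) : Dom (p ^ n) (q ^ n) := by
  induction n with
  | zero => simpa using Dom.one
  | succ n ih => rw [pow_succ, pow_succ]; exact ih.mul h

omit [Fintype ι] in
theorem Dom.prod {s : Finset ι} {p q : ι → ℤ[X]} (h : ∀ i ∈ s, Dom (p i) (q i)) :
    Dom (∏ i ∈ s, p i) (∏ i ∈ s, q i) := by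
  induction s using Finset.induction_on with
  | empty => simpa using Dom.one
  | insert a s ha ih =>
    rw [prod_insert ha, prod_insert ha]
    exact (h a (mem_insert_self a s)).mul (ih fun i hi => h i (mem_insert_of_mem hi))

theorem dom_X_sub (a b : ℕ) (hab : a ≤ b) : Dom (X - C (a : ℤ)) (X + C (b : ℤ)) := by
  intro d
  rw [coeff_sub, coeff_add, coeff_X, coeff_C]
  rcases Nat.lt_trichotomy d 1 with h | h | h
  · have : d = 0 := by omega
    subst this
    simp [hab]
  · subst h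
    simp
  · have h1 : d ≠ 0 := by omega
    have h2 : ¬ (1 = d) := by omega
    simp [h1, h2]

/-- The sum of the derivatives at `0`. -/
theorem abs_eval_zero_le (p q : ℤ[X]) (h : Dom p q) (n : ℕ) (hn : p.natDegree ≤ n)
    (hq : q.natDegree ≤ n) :
    |eval 0 (sumIDeriv p)| ≤ (n ! : ℤ) * eval 1 q := by
  rw [sumIDeriv_apply_of_le hn, eval_finsetSum]
  have e : ∀ i ∈ range (n + 1), eval 0 (derivative^[i] p) = (i ! : ℤ) * p.coeff i := by
    intro i _
    rw [← coeff_zero_eq_eval_zero, coeff_iterate_derivative, zero_add, Nat.descFactorial_self,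
      nsmul_eq_mul]
  rw [sum_congr rfl e, eval_eq_sum_range' (Nat.lt_succ_of_le hq), mul_sum]
  refine (abs_sum_le_sum_abs _ _).trans (sum_le_sum fun i hi => ?_)
  rw [abs_mul, one_pow, mul_one]
  refine mul_le_mul ?_ (h i) (abs_nonneg _) (by positivity)
  rw [abs_of_nonneg (by positivity)]
  exact_mod_cast Nat.factorial_le (by simpa [Nat.lt_succ_iff] using hi)

theorem abs_F_zero_le (N : ℕ) (k : ι → ℕ) (l : ι) (L : ℕ) (hk : ∀ j, k j ≤ L) :
    |eval 0 (sumIDeriv (P N k l))| ≤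
      ((Fintype.card ι * N)! : ℤ) * (1 + L : ℤ) ^ (Fintype.card ι * N) := by
  have h3 : 1 ≤ Fintype.card ι := Fintype.card_pos_iff.2 ⟨l⟩
  set Q : ℤ[X] := (X + C (L : ℤ)) ^ (N - 1) * ∏ j ∈ univ.erase l, (X + C (L : ℤ)) ^ N with hQ
  have hQ' : Q = (X + C (L : ℤ)) ^ (N - 1 + (Fintype.card ι - 1) * N) := by
    rw [hQ, prod_const, card_erase_of_mem (mem_univ l), card_univ, ← pow_mul, ← pow_add,
      mul_comm N]
  have hle : N - 1 + (Fintype.card ι - 1) * N ≤ Fintype.card ι * N := by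
    calc N - 1 + (Fintype.card ι - 1) * N ≤ N + (Fintype.card ι - 1) * N := by omega
      _ = (1 + (Fintype.card ι - 1)) * N := by ring
      _ = Fintype.card ι * N := by rw [Nat.add_sub_cancel' h3]
  have hdom : Dom (P N k l) Q :=
    ((dom_X_sub _ _ (hk l)).pow _).mul (Dom.prod fun j _ => (dom_X_sub _ _ (hk j)).pow _)
  refine (abs_eval_zero_le _ Q hdom (Fintype.card ι * N) (natDegree_P_le N k l) ?_).trans ?_
  · rw [hQ']
    refine natDegree_pow_le.trans ?_
    rw [natDegree_X_add_C, mul_one]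
    exact hle
  · refine mul_le_mul_of_nonneg_left ?_ (by positivity)
    rw [hQ']
    simp only [eval_pow, eval_add, eval_X, eval_C]
    exact pow_le_pow_right₀ (by linarith [Int.natCast_nonneg L]) hle

end ExpFrac
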