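import Pool.Agent.ExpFrac.Core

/-!
Full systems of integer rows close to one direction.
-/

set_option autoImplicit false

open Polynomial Finset
open scoped Nat

namespace ExpFrac

/-- A nonsingular integer matrix all of whose rows are close to the direction `w`. -/
def Sys {ι : Type} [Fintype ι] [DecidableEq ι] (w : ι → ℝ) (ρ v : ℝ) : Prop :=
  ∃ (W : Matrix ι ι ℤ) (U : ι → ℝ), W.det ≠ 0 ∧
    (∀ l y, |(W l y : ℝ) - U l * w y| ≤ ρ) ∧ (∀ l y, |(W l y : ℝ)| ≤ v)

variable {ι : Type} [Fintype ι] [DecidableEq ι]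

theorem not_dvd_diag (N L q : ℕ) [hq : Fact q.Prime] (hqN : q ∣ N) (hqL : L < q)
    {κ : Type} [Fintype κ] [DecidableEq κ] (k : κ → ℕ) (hinj : Function.Injective k)
    (hk : ∀ j, k j ≤ L) (l : κ) (x : ℤ)
    (h3 : (N : ℤ) ∣ x - ∏ j ∈ univ.erase l, ((k l : ℤ) - k j) ^ N) : ¬ (q : ℤ) ∣ x := by
  intro hdvd
  have h1 : (q : ℤ) ∣ ∏ j ∈ univ.erase l, ((k l : ℤ) - k j) ^ N := by
    have h2 := (Int.natCast_dvd_natCast.2 hqN).trans h3
    exact (dvd_sub_right hdvd).1 h2
  have hp : Prime (q : ℤ) := Nat.prime_iff_prime_int.1 hq.out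
  obtain ⟨j, hj, h3⟩ := (hp.dvd_finsetProd_iff _).1 h1
  have h4 := hp.dvd_of_dvd_pow h3
  have h5 : (k l : ℤ) - k j ≠ 0 := by
    intro h6
    have : k l = k j := by omega
    exact (mem_erase.1 hj).1 (hinj this).symm
  have h7 := Int.le_of_dvd (abs_pos.2 h5) ((dvd_abs _ _).2 h4)
  have h8 : |(k l : ℤ) - k j| ≤ L := by
    rw [abs_le]
    have := hk l
    have := hk j
    constructor <;> omega
  omega

theorem sys_plain (N L q : ℕ) (hN : 0 < N) (hL : 1 ≤ L) [hq : Fact q.Prime] (hqN : q ∣ N)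
    (hqL : L < q) (k : ι → ℕ) (hinj : Function.Injective k) (hk : ∀ j, k j ≤ L) (i₀ : ι) :
    Sys (fun j => Real.exp (k j)) (rho (Fintype.card ι) N L) (vee (Fintype.card ι) N L) := by
  choose W hW1 hW2 hW3 using fun l : ι => exists_W N hN k l
  refine ⟨fun l j => W l j, fun l => ((eval 0 (sumIDeriv (P N k l)) : ℤ) : ℝ) / (N - 1)!, ?_,
    fun l j => row_approx N L hL k hk l (W l) (hW1 l) j,
    fun l j => row_size N L hL k hk l (W l) (hW1 l) j⟩
  refine det_mod _ q i₀ (fun i _ j hj => ?_) fun i => ?_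
  · exact (Int.natCast_dvd_natCast.2 hqN).trans (hW2 i j hj)
  · exact not_dvd_diag N L q hqN hqL k hinj hk i _ (hW3 i)

theorem sys_diff (N L q : ℕ) (hN : 0 < N) (hL : 1 ≤ L) [hq : Fact q.Prime] (hqN : q ∣ N)
    (hqL : L < q) (k : Option ι → ℕ) (hinj : Function.Injective k) (hk : ∀ j, k j ≤ L) (i₀ : ι) :
    Sys (fun j : ι => Real.exp (k (some j)) - Real.exp (k none))
      (2 * rho (Fintype.card ι + 1) N L) (2 * vee (Fintype.card ι + 1) N L) := by
  have hcard : Fintype.card (Option ι) = Fintype.card ι + 1 := Fintype.card_option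
  choose W hW1 hW2 hW3 using fun l : Option ι => exists_W N hN k l
  have hap := fun (l j : Option ι) => row_approx N L hL k hk l (W l) (hW1 l) j
  have hsz := fun (l j : Option ι) => row_size N L hL k hk l (W l) (hW1 l) j
  rw [hcard] at hap hsz
  refine ⟨fun l j => W (some l) (some j) - W (some l) none,
    fun l => ((eval 0 (sumIDeriv (P N k (some l))) : ℤ) : ℝ) / (N - 1)!, ?_, ?_, ?_⟩
  · refine det_mod _ q i₀ (fun i _ j hj => ?_) fun i hdvd => ?_
    · refine dvd_sub ?_ ?_
      · exact (Int.natCast_dvd_natCast.2 hqN).trans (hW2 (some i) (some j) (by simpa using hj))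
      · exact (Int.natCast_dvd_natCast.2 hqN).trans (hW2 (some i) none (by simp))
    · have h0 : (q : ℤ) ∣ W (some i) none :=
        (Int.natCast_dvd_natCast.2 hqN).trans (hW2 (some i) none (by simp))
      have hdvd' : (q : ℤ) ∣ W (some i) (some i) := by
        have := dvd_add hdvd h0
        rwa [sub_add_cancel] at this
      exact not_dvd_diag N L q hqN hqL k hinj hk (some i) _ (hW3 (some i)) hdvd'
  · intro l j
    have h2 := hap (some l) (some j)
    have h3 := hap (some l) none
    set U := ((eval 0 (sumIDeriv (P N k (some l))) : ℤ) : ℝ) / (N - 1)! with hU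
    have e : ((W (some l) (some j) - W (some l) none : ℤ) : ℝ) -
        U * (Real.exp (k (some j)) - Real.exp (k none)) =
        ((W (some l) (some j) : ℝ) - U * Real.exp (k (some j))) -
          ((W (some l) none : ℝ) - U * Real.exp (k none)) := by push_cast; ring
    rw [e]
    refine (abs_sub _ _).trans ?_
    linarith
  · intro l j
    have h2 := hsz (some l) (some j)
    have h3 := hsz (some l) none
    push_cast
    refine (abs_sub _ _).trans ?_
    linarith

end ExpFrac
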