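import Pool.Agent.ExpFrac.Fact
import Pool.Agent.ExpFrac.ChooseN

/-!
The two-sided estimate for an integer matrix close to rank one.
-/

set_option autoImplicit false

open Polynomial Finset
open scoped Nat

namespace ExpFrac

theorem two_sided {X Y : Type} [Fintype X] [DecidableEq X] [Fintype Y] [DecidableEq Y]
    (M : Matrix X Y ℤ) (hM : M ≠ 0) (g : X → ℝ) (w : Y → ℝ) (EX EY : ℝ)
    (hg1 : ∀ x, 1 ≤ g x) (hgE : ∀ x, g x ≤ EX) (hw1 : ∀ y, 1 ≤ w y) (hwE : ∀ y, w y ≤ EY)
    (t δ T : ℝ) (ht : t ≠ 0) (hδ : 0 < δ)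
    (hMt : ∀ x y, |(M x y : ℝ) - t * g x * w y| ≤ δ) (hT : ∀ x y, |(M x y : ℝ)| ≤ T)
    (ρ v ρ' v' : ℝ) (hρ : 0 < ρ) (hρ' : 0 < ρ') (hS : Sys w ρ v) (hS' : Sys g ρ' v') (η : ℝ)
    (hη : (Fintype.card Y + 1) * δ / |t| ≤ η) :
    ∃ (j : ℕ) (a b : ℝ), 1 ≤ j ∧ j ≤ Fintype.card X ∧ j ≤ Fintype.card Y ∧ 1 ≤ a ∧ 1 ≤ b ∧
      a * b ≤ (j ! : ℝ) * (δ ^ j * (T / δ * (1 + EY) ^ (j - 1))) ∧
      1 ≤ b * (((Fintype.card Y)! : ℝ) * ((η * ρ ^ (Fintype.card Y - j)) *
        (max ((EY + η) / η) (v / ρ) * (1 + EY) ^ (Fintype.card Y - 1)))) ∧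
      1 ≤ a * (((Fintype.card X)! : ℝ) * ((η * ρ' ^ (Fintype.card X - j)) *
        (max ((EX + η) / η) (v' / ρ') * (1 + EX) ^ (Fintype.card X - 1)))) := by
  obtain ⟨j, A, B, hj, hfac, hA, hB⟩ := exists_factor M hM
  have hj0 : 0 < j := hj
  obtain ⟨J, hJ, hJmax⟩ := exists_max_minor B hB
  have hA' : ∃ I, (A.transpose.submatrix id I).det ≠ 0 := by
    obtain ⟨I, hI⟩ := hA
    refine ⟨I, ?_⟩
    rw [← Matrix.det_transpose] at hI
    exact hI
  obtain ⟨I, hI, hImax⟩ := exists_max_minor A.transpose hA'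
  have ht0 : 0 < |t| := abs_pos.2 ht
  have hJinj : Function.Injective J := by
    intro a a' haa
    by_contra hne
    exact hJ (Matrix.det_zero_of_column_eq hne fun i => by simp [haa])
  have hjY : j ≤ Fintype.card Y := by
    have := Fintype.card_le_of_injective J hJinj
    simpa using this
  have hIinj : Function.Injective I := by
    intro a a' haa
    by_contra hne
    exact hI (Matrix.det_zero_of_column_eq hne fun i => by simp [haa])
  have hjX : j ≤ Fintype.card X := by
    have := Fintype.card_le_of_injective I hIinj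
    simpa using this
  have hMxy : ∀ x y, (M x y : ℝ) = ∑ i, (A x i : ℝ) * (B i y : ℝ) := by
    intro x y
    rw [hfac, Matrix.mul_apply]
    push_cast
    rfl
  set i₀ : Fin j := ⟨0, hj0⟩ with hi₀
  set x₀ := I i₀
  set y₀ := J i₀
  have hηbd : ∀ s : ℝ, 1 ≤ s → ((Fintype.card (Fin j) : ℝ) + 1) * δ / |t * s| ≤ η := by
    intro s hs
    refine le_trans ?_ hη
    have h1 : |t| ≤ |t * s| := by
      rw [abs_mul]
      have : 1 ≤ |s| := hs.trans (le_abs_self s)
      nlinarith
    have h2 : ((Fintype.card (Fin j) : ℝ) + 1) ≤ Fintype.card Y + 1 := by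
      rw [Fintype.card_fin]
      have : (j : ℝ) ≤ Fintype.card Y := by exact_mod_cast hjY
      linarith
    exact div_le_div₀ (by positivity) (mul_le_mul_of_nonneg_right h2 hδ.le) ht0 h1
  have hRow := (minor_lower' w EY ρ v hw1 hwE hρ hS B J hJ hJmax i₀ (fun i => (A x₀ i : ℝ))
    (t * g x₀) δ (mul_ne_zero ht (by linarith [hg1 x₀])) hδ (fun y => by
      rw [← hMxy]
      exact hMt x₀ y) η (hηbd _ (hg1 x₀))).2
  have hCol := (minor_lower' g EX ρ' v' hg1 hgE hρ' hS' A.transpose I hI hImax i₀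
    (fun i => (B i y₀ : ℝ)) (t * w y₀) δ (mul_ne_zero ht (by linarith [hw1 y₀])) hδ (fun x => by
      have h1 : ∑ i, (B i y₀ : ℝ) * ((A.transpose i x : ℤ) : ℝ) = (M x y₀ : ℝ) := by
        rw [hMxy]
        refine Finset.sum_congr rfl fun i _ => ?_
        rw [Matrix.transpose_apply, mul_comm]
      rw [h1]
      have h2 := hMt x y₀
      have h3 : t * w y₀ * g x = t * g x * w y₀ := by ring
      rw [h3]
      exact h2) η (hηbd _ (hw1 y₀))).2
  rw [Fintype.card_fin] at hRow hCol
  set b : ℝ := |((B.submatrix id J).det : ℝ)| with hb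
  set a : ℝ := |((A.transpose.submatrix id I).det : ℝ)| with ha
  refine ⟨j, a, b, hj, hjX, hjY, ?_, ?_, ?_, hRow, hCol⟩
  · rw [ha]
    exact_mod_cast Int.one_le_abs hI
  · rw [hb]
    exact_mod_cast Int.one_le_abs hJ
  · have h1 : M.submatrix I J = A.submatrix I id * B.submatrix id J := by
      rw [hfac]
      ext p r
      simp [Matrix.mul_apply]
    have h2 : a * b = |(((M.submatrix I J).map (Int.castRingHom ℝ)).det)| := by
      rw [← RingHom.mapMatrix_apply, ← RingHom.map_det, eq_intCast, h1, Matrix.det_mul]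
      have h3 : (A.transpose.submatrix id I).det = (A.submatrix I id).det := by
        rw [← Matrix.det_transpose]
        rfl
      rw [ha, hb, h3]
      push_cast
      rw [abs_mul]
    rw [h2]
    have h4 := det_dir ((M.submatrix I J).map (Int.castRingHom ℝ)) (w ∘ J) i₀ EY
      (fun p => by
        have := hw1 (J p)
        simp only [Function.comp]
        linarith) (fun p => by
        have h5 := hw1 (J i₀)
        have h6 := hwE (J p)
        have h7 := (hw1 (J i₀)).trans (hwE (J i₀))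
        simp only [Function.comp]
        nlinarith) (fun p => t * g (I p)) (fun _ => δ) (fun p r => by
        simp only [Matrix.map_apply, Matrix.submatrix_apply, eq_intCast, Function.comp]
        exact hMt (I p) (J r)) (T / δ) (fun p => by
        simp only [Matrix.map_apply, Matrix.submatrix_apply, eq_intCast]
        have h5 := hT (I p) (J i₀)
        have h6 : δ * (T / δ) = T := by field_simp
        rw [h6]
        exact h5)
    rw [Finset.prod_const, Finset.card_univ, Fintype.card_fin] at h4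
    exact h4

/-- The numerical form of the row inequality. -/
theorem row_log (K N L j : ℕ) (b ρ v η : ℝ) (hj : 1 ≤ j) (hjK : 16 * j ≤ K) (hKL : K ≤ L + 1)
    (hLN : L ≤ N) (hb : 1 ≤ b) (hρ : 0 < ρ) (hv : 0 < v) (hη : 0 < η) (hη1 : η ≤ 1)
    (hlρ : Real.log ρ ≤ 1 + Real.log (L + 1) + L + (K + 1) * N * Real.log (L + 1) + 2 * N -
      N * Real.log N)
    (hlv : Real.log v ≤ 1 + Real.log (L + 1) + L + 2 * ((K + 1) * N * Real.log (L + 1)) + 2 * N +
      K * (N * Real.log N))
    (h : 1 ≤ b * ((K ! : ℝ) * ((η * ρ ^ (K - j)) *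
        (max ((Real.exp L + η) / η) (v / ρ) * (1 + Real.exp L) ^ (K - 1))))) :
    ((K : ℝ) - j) * (N * Real.log N) ≤ Real.log b + 4 * (K ^ 2 * N * Real.log (L + 1)) ∨
    -Real.log η ≤ Real.log b + (j + 1) * (N * Real.log N) +
      4 * (K ^ 2 * N * Real.log (L + 1)) := by
  have hK16 : 16 ≤ K := by omega
  have hL15 : 15 ≤ L := by omega
  have hN15 : 15 ≤ N := by omega
  have hK' : (16 : ℝ) ≤ K := by exact_mod_cast hK16
  have hN' : (1 : ℝ) ≤ N := by exact_mod_cast (by omega : 1 ≤ N)
  have hLN' : (L : ℝ) ≤ N := by exact_mod_cast hLN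
  have hL0 : (0 : ℝ) ≤ L := Nat.cast_nonneg _
  have hL15' : (15 : ℝ) ≤ L := by exact_mod_cast hL15
  have hjK' : (j : ℝ) ≤ K := by exact_mod_cast (by omega : j ≤ K)
  have hjK1 : (j : ℝ) + 1 ≤ K := by exact_mod_cast (by omega : j + 1 ≤ K)
  set B := Real.log ((L : ℝ) + 1) with hB
  have hB1 : (1 : ℝ) ≤ B := by
    rw [hB, Real.le_log_iff_exp_le (by linarith)]
    have := Real.exp_one_lt_d9
    linarith
  have hB0 : (0 : ℝ) ≤ B := by linarith
  have hlogN : 0 ≤ Real.log (N : ℝ) := Real.log_nonneg hN'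
  have hNlogN : 0 ≤ N * Real.log (N : ℝ) := by positivity
  set Z := (K : ℝ) ^ 2 * N * B with hZ
  have z1 : (K : ℝ) * N * B ≤ Z / 16 := by
    have : (K : ℝ) * N * B * 16 ≤ K * N * B * K := mul_le_mul_of_nonneg_left hK' (by positivity)
    have e : (K : ℝ) * N * B * K = Z := by rw [hZ]; ring
    linarith
  have z2 : (K : ℝ) * N ≤ Z / 16 := by
    have : (K : ℝ) * N * 1 ≤ K * N * B := mul_le_mul_of_nonneg_left hB1 (by positivity)
    linarith
  have z3 : (K : ℝ) * B ≤ Z / 16 := by
    have : (K : ℝ) * B * 1 ≤ K * B * N := mul_le_mul_of_nonneg_left hN' (by positivity)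
    have e : (K : ℝ) * B * N = K * N * B := by ring
    linarith
  have z4 : (K : ℝ) ≤ Z / 16 := by
    have : (K : ℝ) * 1 ≤ K * N := mul_le_mul_of_nonneg_left hN' (by positivity)
    linarith
  have z5 : (K : ℝ) * L ≤ Z / 16 := by
    have : (K : ℝ) * L ≤ K * N := mul_le_mul_of_nonneg_left hLN' (by positivity)
    linarith
  have z6 : (N : ℝ) * B ≤ K * N * B := by
    have : 1 * ((N : ℝ) * B) ≤ K * (N * B) := mul_le_mul_of_nonneg_right (by linarith) (by positivity)
    linarith
  have z7 : (N : ℝ) ≤ K * N := by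
    have : 1 * (N : ℝ) ≤ K * N := mul_le_mul_of_nonneg_right (by linarith) (by positivity)
    linarith
  have z8 : B ≤ K * B := by
    have : 1 * B ≤ K * B := mul_le_mul_of_nonneg_right (by linarith) hB0
    linarith
  have hKf : Real.log (K ! : ℝ) ≤ K * B := by
    have h1 := log_fac_upper K
    have h2 : Real.log (K : ℝ) ≤ B := by
      refine Real.log_le_log (by linarith) ?_
      exact_mod_cast hKL
    calc _ ≤ _ := h1
      _ ≤ _ := mul_le_mul_of_nonneg_left h2 (by positivity)
  have hfac : (0 : ℝ) < (K ! : ℝ) := by positivity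
  have hE : (0 : ℝ) < 1 + Real.exp L := by positivity
  have hle := log_one_add_exp_le L
  have hb0 : 0 < b := by linarith
  have h3 : ((K - 1 : ℕ) : ℝ) * Real.log (1 + Real.exp L) ≤ K * (L + 1) := by
    have e : ((K - 1 : ℕ) : ℝ) ≤ K := by exact_mod_cast Nat.sub_le K 1
    exact mul_le_mul e hle (Real.log_nonneg (by linarith [Real.exp_pos (L : ℝ)])) (by positivity)
  have eKj : ((K - j : ℕ) : ℝ) = K - j := by
    rw [Nat.cast_sub (by omega)]
  set R := 1 + B + L + (K + 1) * N * B + 2 * N with hR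
  have hR0 : 0 ≤ R := by positivity
  have hKR : K * R ≤ 2 * Z - K * B - K * (L + 1) := by
    have e : (K : ℝ) * R = K + K * B + K * L + (Z + K * N * B) + 2 * (K * N) := by
      rw [hR, hZ]; ring
    have hZ0 : 0 ≤ Z := by positivity
    linarith
  rcases le_total ((Real.exp L + η) / η) (v / ρ) with hc | hc
  · right
    rw [max_eq_right hc] at h
    have h1 := Real.log_le_log one_pos h
    rw [Real.log_one, Real.log_mul hb0.ne' (by positivity), Real.log_mul hfac.ne' (by positivity),
      Real.log_mul (by positivity) (by positivity), Real.log_mul hη.ne' (by positivity),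
      Real.log_mul (by positivity) (by positivity), Real.log_div hv.ne' hρ.ne', Real.log_pow,
      Real.log_pow, eKj] at h1
    have h2 : ((K : ℝ) - j - 1) * Real.log ρ ≤ ((K : ℝ) - j - 1) * (R - N * Real.log N) :=
      mul_le_mul_of_nonneg_left (by rw [hR]; linarith) (by linarith)
    have h4 : ((K : ℝ) - j - 1) * R ≤ K * R := mul_le_mul_of_nonneg_right (by linarith) hR0
    linarith
  · left
    rw [max_eq_left hc] at h
    have e1 : b * ((K ! : ℝ) * ((η * ρ ^ (K - j)) * ((Real.exp L + η) / η *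
        (1 + Real.exp L) ^ (K - 1)))) = b * ((K ! : ℝ) * (ρ ^ (K - j) * ((Real.exp L + η) *
        (1 + Real.exp L) ^ (K - 1)))) := by
      field_simp
    rw [e1] at h
    have h1 := Real.log_le_log one_pos h
    rw [Real.log_one, Real.log_mul hb0.ne' (by positivity), Real.log_mul hfac.ne' (by positivity),
      Real.log_mul (by positivity) (by positivity), Real.log_mul (by positivity) (by positivity),
      Real.log_pow, Real.log_pow, eKj] at h1
    have h2 : ((K : ℝ) - j) * Real.log ρ ≤ ((K : ℝ) - j) * (R - N * Real.log N) :=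
      mul_le_mul_of_nonneg_left (by rw [hR]; linarith) (by linarith)
    have h4 : ((K : ℝ) - j) * R ≤ K * R := mul_le_mul_of_nonneg_right (by
      have : (0 : ℝ) ≤ j := Nat.cast_nonneg _
      linarith) hR0
    have h5 : Real.log (Real.exp L + η) ≤ L + 1 := by
      refine le_trans (Real.log_le_log (by positivity) (by linarith)) hle
    linarith

end ExpFrac
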